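import Pool.Agent.MalP.Super4
import Pool.Agent.MalP.Words3
import Pool.Agent.MalP.SagleAlg

/-! # Alternating sums of words and words in superalgebras

For a word `w` with the letters `0, .., k - 1` and some others (each once) the alternating sum
`sum over σ in Perm (Fin k) of sign σ • evw (x ∘ σ) w` is, up to a sign, the top component of the
value of `w` at the generic odd element `ξ` (all letters `< k`) and the even elements `x l`
(`l ≥ k`). Hence all alternating sums lie in the span of the alternating sums of those words, whose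
super values span. -/

set_option autoImplicit false

namespace Pool.Agent.MalP

universe u

open Finset Equiv

/-- a word as an expression -/
def PEx.ofW : FreeMagma ℕ → PEx
  | .of i => .X i
  | .mul a b => .mul (PEx.ofW a) (PEx.ofW b)

theorem PEx.ofW_ev {A : Type u} [NonUnitalNonAssocRing A] (y : ℕ → A) (w : FreeMagma ℕ) :
    (PEx.ofW w).ev y = evw y w := by
  induction w with
  | ih1 i => rfl
  | ih2 a b iha ihb =>
    show (PEx.ofW a).ev y * (PEx.ofW b).ev y = evw y a * evw y b
    rw [iha, ihb]

theorem sg_eq (b : Bool) : sg b = 1 ∨ sg b = -1 := by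
  cases b
  · exact Or.inl rfl
  · exact Or.inr rfl

theorem PEx.ofW_sev {S : Type u} [NonUnitalNonAssocRing S] (p : ℕ → Bool) (z : ℕ → S)
    (w : FreeMagma ℕ) : (PEx.ofW w).sev p z = evw z w ∨ (PEx.ofW w).sev p z = - evw z w := by
  induction w with
  | ih1 i => exact Or.inl rfl
  | ih2 a b iha ihb =>
    show sg _ • ((PEx.ofW a).sev p z * (PEx.ofW b).sev p z) = evw z a * evw z b ∨
      sg _ • ((PEx.ofW a).sev p z * (PEx.ofW b).sev p z) = - (evw z a * evw z b)
    rcases iha with h1 | h1 <;> rcases ihb with h2 | h2 <;>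
      rcases sg_eq (linv p (PEx.ofW a).lts (PEx.ofW b).lts) with h3 | h3 <;>
      rw [h1, h2, h3] <;> simp

theorem PEx.ofW_lts (w : FreeMagma ℕ) : ((PEx.ofW w).lts : Multiset ℕ) = content w := by
  induction w with
  | ih1 i => rfl
  | ih2 a b iha ihb =>
    show (((PEx.ofW a).lts ++ (PEx.ofW b).lts : List ℕ) : Multiset ℕ) = content a + content b
    rw [← Multiset.coe_add, iha, ihb]

theorem PEx.ofW_ml (w : FreeMagma ℕ) (h : (content w).Nodup) : (PEx.ofW w).ml = true := by
  induction w with
  | ih1 i => rfl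
  | ih2 a b iha ihb =>
    have h0 : (content a + content b).Nodup := h
    have h1 := Multiset.nodup_add.1 h0
    show ((PEx.ofW a).ml && (PEx.ofW b).ml && (PEx.ofW a).lts.all
      (fun i => (PEx.ofW b).lts.all (fun j => !(Nat.beq i j)))) = true
    rw [iha h1.1, ihb h1.2.1, Bool.true_and, Bool.true_and, List.all_eq_true]
    intro i hi
    rw [List.all_eq_true]
    intro j hj
    have hi' : i ∈ content a := by
      rw [← PEx.ofW_lts a]
      exact hi
    have hj' : j ∈ content b := by
      rw [← PEx.ofW_lts b]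
      exact hj
    have hij : i ≠ j := by
      rintro rfl
      exact Multiset.disjoint_left.1 h1.2.2 hi' hj'
    cases hb : Nat.beq i j
    · rfl
    · exact absurd (Nat.eq_of_beq_eq_true hb) hij

theorem PEx.ofW_ls (w : FreeMagma ℕ) (l : ℕ) : l ∈ (PEx.ofW w).ls ↔ l ∈ content w := by
  rw [PEx.mem_ls, ← PEx.ofW_lts w]
  rfl

section AltEq

/-- the generic elements -/
def genE {A : Type u} [NonUnitalNonAssocRing A] (k : ℕ) (x : ℕ → A) (l : ℕ) : GrA k A :=
  if l < k then ∑ j : Fin k, GrA.sgl {j} (x j) else GrA.sgl ∅ (x l)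

/-- the action of permutations on assignments -/
def actE {A : Type u} (k : ℕ) (σ : Perm (Fin k)) (x : ℕ → A) (l : ℕ) : A :=
  if h : l < k then x (σ ⟨l, h⟩) else x l

/-- the parity of the letters -/
def parE (k : ℕ) (l : ℕ) : Bool := decide (l < k)

variable {A : Type u} [NonUnitalNonAssocRing A]

/-- the expansion of the super value at the generic elements -/
theorem alt_eq (k : ℕ) (e : PEx) (he : e.ml = true) (hk : ∀ i : Fin k, (i : ℕ) ∈ e.ls) (x : ℕ → A) :
    (e.sev (parE k) (genE k x)) univ =
      ∑ σ : Perm (Fin k), (Perm.sign σ : ℤ) • e.ev (actE k σ x) := by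
  classical
  have h1 : e.sev (parE k) (genE k x) = e.sev (parE k) (asg k id (fun _ : Fin k =>
      ∑ j : Fin k, GrA.sgl {j} (x j)) (fun l => GrA.sgl ∅ (x l))) := by
    congr 1
  rw [h1, ← PEx.sevM_apply k (parE k) id (fun l => GrA.sgl ∅ (x l)) e he hk,
    MultilinearMap.map_sum]
  have h2 : ∀ φ : Fin k → Fin k, PEx.sevM k (parE k) id (fun l => GrA.sgl ∅ (x l)) e he hk
      (fun i => GrA.sgl {φ i} (x (φ i))) =
      E2 (Us φ) e.ls • GrA.sgl (e.ls.biUnion (Us φ)) (e.ev (asg k id (fun i => x (φ i)) x)) := by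
    intro φ
    rw [PEx.sevM_apply]
    apply sev_sgl e he
    · intro l hl
      by_cases h : l < k
      · have e1 := asg_lt id (fun i => GrA.sgl {φ i} (x (φ i))) (fun l => GrA.sgl ∅ (x l)) ⟨l, h⟩
        have e2 := asg_lt id (fun i => x (φ i)) x ⟨l, h⟩
        have e3 := Us_lt φ ⟨l, h⟩
        rw [show l = ((⟨l, h⟩ : Fin k) : ℕ) from rfl, e1, e2, e3]
      · rw [asg_ge _ _ _ (not_lt.1 h), asg_ge _ _ _ (not_lt.1 h), Us_ge _ (not_lt.1 h)]
    · intro l hl
      by_cases h : l < k
      · have e3 := Us_lt φ ⟨l, h⟩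
        rw [show l = ((⟨l, h⟩ : Fin k) : ℕ) from rfl, e3, od_single]
        exact decide_eq_true h
      · rw [Us_ge _ (not_lt.1 h), od_empty]
        exact decide_eq_false h
  rw [GrA.sum_ap]
  have h4 : ∀ φ : Fin k → Fin k, (PEx.sevM k (parE k) id (fun l => GrA.sgl ∅ (x l)) e he hk
      (fun i => GrA.sgl {φ i} (x (φ i)))) univ =
      E2 (Us φ) e.ls • (if univ = e.ls.biUnion (Us φ) then
        e.ev (asg k id (fun i => x (φ i)) x) else 0) := by
    intro φ
    rw [h2 φ]
    rfl
  simp_rw [h4]
  let em : Perm (Fin k) ↪ (Fin k → Fin k) := ⟨fun σ => ⇑σ, DFunLike.coe_injective⟩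
  rw [← sum_subset (s₁ := (univ : Finset (Perm (Fin k))).map em) (subset_univ _)]
  · rw [sum_map]
    refine sum_congr rfl fun σ _ => ?_
    have e1 : em σ = ⇑σ := rfl
    have e2 : asg k id (fun i => x (σ i)) x = actE k σ x := by
      funext l
      rfl
    rw [e1, E2_Us_perm σ e.ls hk, if_pos, e2]
    ext j
    refine ⟨fun _ => ?_, fun _ => mem_univ j⟩
    rw [mem_biUnion]
    refine ⟨(σ.symm j : Fin k), hk _, ?_⟩
    rw [Us_lt, Equiv.apply_symm_apply]
    exact mem_singleton_self j
  · intro φ _ hφ'
    rw [E2_Us_not φ e.ls hk, zero_smul]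
    intro hinj
    apply hφ'
    rw [mem_map]
    exact ⟨Equiv.ofBijective φ (Finite.injective_iff_bijective.1 hinj), mem_univ _, rfl⟩

end AltEq

section Span

variable {F : Type u} [Field F] {A : Type u} [NonUnitalNonAssocRing A] [Module F A]

instance (k : ℕ) : Module F (GrA k A) := inferInstanceAs (Module F (Finset (Fin k) → A))

theorem GrA.smul_ap (k : ℕ) (r : F) (f : GrA k A) (W : Finset (Fin k)) : (r • f) W = r • f W := rfl

instance (k : ℕ) [IsScalarTower F A A] : IsScalarTower F (GrA k A) (GrA k A) where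
  smul_assoc := fun r f g => by
    ext W
    rw [GrA.smul_ap]
    show ((r • f) * g) W = r • (f * g) W
    rw [GrA.mul_def, GrA.mul_def, smul_sum]
    refine sum_congr rfl fun x _ => ?_
    split_ifs
    · rw [GrA.smul_ap, smul_mul_assoc, smul_comm]
    · rw [smul_zero]

instance (k : ℕ) [SMulCommClass F A A] : SMulCommClass F (GrA k A) (GrA k A) where
  smul_comm := fun r f g => by
    ext W
    show r • (f * g) W = (f * (r • g)) W
    rw [GrA.mul_def, GrA.mul_def, smul_sum]
    refine sum_congr rfl fun x _ => ?_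
    split_ifs
    · rw [GrA.smul_ap, mul_smul_comm, smul_comm]
    · rw [smul_zero]

/-- the alternating sum of the values -/
noncomputable def altS [IsScalarTower F A A] [SMulCommClass F A A] (k : ℕ) (x : ℕ → A) (p : FA F) : A :=
  ∑ σ : Perm (Fin k), (Perm.sign σ : ℤ) • ev (actE k σ x) p

/-- the evaluation at the top component -/
def topL (F : Type u) [Field F] {A : Type u} [NonUnitalNonAssocRing A] [Module F A] (k : ℕ) :
    GrA k A →ₗ[F] A where
  toFun := fun f => f univ
  map_add' := fun _ _ => rfl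
  map_smul' := fun _ _ => rfl

variable [IsScalarTower F A A] [SMulCommClass F A A]

theorem altS_wd (k : ℕ) (x : ℕ → A) (w : FreeMagma ℕ) (hw : (content w).Nodup)
    (hk : ∀ i : Fin k, (i : ℕ) ∈ content w) :
    altS k x (wd w : FA F) = (evw (genE k x) w) univ ∨
      altS k x (wd w : FA F) = - (evw (genE k x) w) univ := by
  have h1 := alt_eq k (PEx.ofW w) (PEx.ofW_ml w hw) (fun i => (PEx.ofW_ls w i).2 (hk i)) x
  have h2 : altS k x (wd w : FA F) =
      ∑ σ : Perm (Fin k), (Perm.sign σ : ℤ) • (PEx.ofW w).ev (actE k σ x) := by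
    unfold altS
    refine sum_congr rfl fun σ _ => ?_
    rw [PEx.ofW_ev, ev_wd]
  rw [h2, ← h1]
  rcases PEx.ofW_sev (parE k) (genE k x) w with h3 | h3
  · left
    rw [h3]
  · right
    rw [h3]
    rfl

/-- the alternating sums lie in the span of the alternating sums of the words `ws` -/
theorem altS_span (k : ℕ) (x : ℕ → A) (L : Finset ℕ) (hk : ∀ i : Fin k, (i : ℕ) ∈ L)
    (ws : Set (FreeMagma ℕ)) (hws : ∀ w ∈ ws, content w = L.val)
    (H : ∀ w, content w = L.val → evw (genE k x) w ∈ Submodule.span F (evw (genE k x) '' ws))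
    {p : FA F} (hp : p ∈ Hg F L.val) :
    altS k x p ∈ Submodule.span F ((fun w => altS k x (wd w : FA F)) '' ws) := by
  have hadd : ∀ p q : FA F, altS k x (p + q) = altS k x p + altS k x q := by
    intro p q
    unfold altS
    rw [← sum_add_distrib]
    refine sum_congr rfl fun σ _ => ?_
    rw [map_add, smul_add]
  have hsm : ∀ (r : F) (p : FA F), altS k x (r • p) = r • altS k x p := by
    intro r p
    unfold altS
    rw [smul_sum]
    refine sum_congr rfl fun σ _ => ?_
    rw [map_smul, smul_comm]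
  unfold Hg at hp
  induction hp using Submodule.span_induction with
  | mem p hp =>
    obtain ⟨w, hw, rfl⟩ := hp
    have hL : ∀ w, content w = L.val → (content w).Nodup ∧ ∀ i : Fin k, (i : ℕ) ∈ content w := by
      intro w hw
      rw [hw]
      exact ⟨L.nodup, fun i => hk i⟩
    have h1 : (evw (genE k x) w) univ ∈
        Submodule.span F ((fun w => altS k x (wd w : FA F)) '' ws) := by
      have h2 := Submodule.mem_map_of_mem (f := topL F k) (H w hw)
      rw [Submodule.map_span] at h2
      refine Submodule.span_le.2 ?_ h2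
      rintro _ ⟨_, ⟨w', hw', rfl⟩, rfl⟩
      have h3 : altS k x (wd w' : FA F) ∈
          Submodule.span F ((fun w => altS k x (wd w : FA F)) '' ws) :=
        Submodule.subset_span ⟨w', hw', rfl⟩
      have h4 := hL w' (hws w' hw')
      show (evw (genE k x) w') univ ∈ _
      rcases altS_wd (F := F) k x w' h4.1 h4.2 with h5 | h5
      · rw [← h5]
        exact h3
      · rw [← neg_eq_iff_eq_neg.2 h5]
        exact Submodule.neg_mem _ h3
    have h4 := hL w hw
    rcases altS_wd (F := F) k x w h4.1 h4.2 with h5 | h5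
    · rw [h5]
      exact h1
    · rw [h5]
      exact Submodule.neg_mem _ h1
  | zero =>
    have h0 := hsm (0 : F) (0 : FA F)
    rw [zero_smul, zero_smul] at h0
    rw [h0]
    exact Submodule.zero_mem _
  | add p q _ _ h1 h2 =>
    rw [hadd]
    exact Submodule.add_mem _ h1 h2
  | smul c p _ h1 =>
    rw [hsm]
    exact Submodule.smul_mem _ _ h1

/-- homomorphisms -/
theorem hom_altS {C : Type u} [NonUnitalNonAssocRing C] [Module F C] [IsScalarTower F C C]
    [SMulCommClass F C C] (f : A →ₙₐ[F] C) (k : ℕ) (x : ℕ → A) (p : FA F) :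
    f (altS k x p) = altS k (fun l => f (x l)) p := by
  unfold altS
  rw [map_sum]
  refine sum_congr rfl fun σ _ => ?_
  rw [map_zsmul, hom_ev]
  have h1 : (fun i => f (actE k σ x i)) = actE k σ fun l => f (x l) := by
    funext l
    unfold actE
    split_ifs <;> rfl
  rw [h1]

end Span

end Pool.Agent.MalP
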