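import Pool.Agent.MalP.S0
import Pool.Agent.MalP.Low.Alt

/-! # Commutators of superdiagonal matrices

A letter `l` is sent to the matrix with the entries `X l i` in the places `(i, i + 1)`. The value of
a word of length `n` has the entry `as X w 0` in the place `(0, n)`. -/

set_option autoImplicit false

namespace Pool.Agent.MalP

universe u

open Finset Equiv

namespace Asc

/-- the length of a word -/
def len : FreeMagma ℕ → ℕ :=
  fun w => FreeMagma.rec (motive := fun _ => ℕ) (fun _ => 1) (fun _ _ m n => m + n) w

/-- the entries of the value of a word in the places `(i, i + len w)` -/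
def as (X : ℕ → ℕ → ℤ) : FreeMagma ℕ → ℕ → ℤ :=
  fun w => FreeMagma.rec (motive := fun _ => ℕ → ℤ) X
    (fun a b f g i => f i * g (i + len a) - g i * f (i + len b)) w

/-- the action of permutations on assignments -/
def act {α : Type} (k : ℕ) (σ : Perm (Fin k)) (x : ℕ → α) (l : ℕ) : α :=
  if h : l < k then x (σ ⟨l, h⟩) else x l

/-- the alternating sum -/
def alt (k : ℕ) (X : ℕ → ℕ → ℤ) (w : FreeMagma ℕ) : ℤ :=
  ∑ σ : Perm (Fin k), (Perm.sign σ : ℤ) * as (act k σ X) w 0

variable (F : Type u) [Field F]

/-- the superdiagonal matrices -/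
def mat (N : ℕ) (f : ℕ → ℤ) : Cm (Matrix (Fin (N + 1)) (Fin (N + 1)) F) :=
  ⟨fun i j => if (j : ℕ) = i + 1 then ((f i : ℤ) : F) else 0⟩

theorem evw_mat (N : ℕ) (X : ℕ → ℕ → ℤ) (w : FreeMagma ℕ) (i j : Fin (N + 1)) :
    (evw (fun l => mat F N (X l)) w).e i j =
      if (j : ℕ) = i + len w then ((as X w i : ℤ) : F) else 0 := by
  induction w generalizing i j with
  | ih1 l => rfl
  | ih2 a b iha ihb =>
    show ((evw (fun l => mat F N (X l)) a).e * (evw (fun l => mat F N (X l)) b).e -
      (evw (fun l => mat F N (X l)) b).e * (evw (fun l => mat F N (X l)) a).e) i j = _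
    have key : ∀ (c d : FreeMagma ℕ), (∀ i j : Fin (N + 1), (evw (fun l => mat F N (X l)) c).e i j =
        if (j : ℕ) = i + len c then ((as X c i : ℤ) : F) else 0) →
        (∀ i j : Fin (N + 1), (evw (fun l => mat F N (X l)) d).e i j =
        if (j : ℕ) = i + len d then ((as X d i : ℤ) : F) else 0) →
        ((evw (fun l => mat F N (X l)) c).e * (evw (fun l => mat F N (X l)) d).e) i j =
        if (j : ℕ) = i + (len c + len d) then ((as X c i * as X d (i + len c) : ℤ) : F) else 0 := by
      intro c d hc hd
      rw [Matrix.mul_apply]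
      by_cases hj : (j : ℕ) = i + (len c + len d)
      · rw [if_pos hj]
        have hk : (i : ℕ) + len c < N + 1 := by
          have := j.2
          omega
        rw [Finset.sum_eq_single (⟨(i : ℕ) + len c, hk⟩ : Fin (N + 1))]
        · rw [hc, hd, if_pos rfl, if_pos (by show (j : ℕ) = (i : ℕ) + len c + len d; omega), Int.cast_mul]
        · intro k _ hk'
          rw [hc, if_neg, zero_mul]
          intro h
          apply hk'
          exact Fin.ext h
        · intro h
          exact absurd (mem_univ _) h
      · rw [if_neg hj]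
        refine Finset.sum_eq_zero fun k _ => ?_
        rw [hc, hd]
        by_cases h1 : (k : ℕ) = i + len c
        · have h2 : ¬ (j : ℕ) = k + len d := by omega
          rw [if_neg h2, mul_zero]
        · rw [if_neg h1, zero_mul]
    rw [Matrix.sub_apply, key a b iha ihb, key b a ihb iha]
    show _ = if (j : ℕ) = i + (len a + len b) then
      (((as X a i * as X b (i + len a) - as X b i * as X a (i + len b)) : ℤ) : F) else 0
    rw [Nat.add_comm (len b) (len a)]
    split_ifs
    · rw [Int.cast_sub]
    · rw [sub_zero]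

/-- the value of the alternating sum of a word at superdiagonal matrices -/
theorem altS_mat (k N : ℕ) (X : ℕ → ℕ → ℤ) (w : FreeMagma ℕ) (hw : len w = N) :
    (altS k (fun l => mat F N (X l)) (wd w : FA F)).e 0 (Fin.last N) = ((alt k X w : ℤ) : F) := by
  have hadd : ∀ (s : Finset (Perm (Fin k))) (f : Perm (Fin k) → Cm (Matrix (Fin (N + 1)) (Fin (N + 1)) F)),
      (∑ σ ∈ s, f σ).e 0 (Fin.last N) = ∑ σ ∈ s, (f σ).e 0 (Fin.last N) := by
    intro s f
    classical
    induction s using Finset.induction_on with
    | empty => rfl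
    | insert a s ha ih =>
      rw [sum_insert ha, sum_insert ha, ← ih]
      rfl
  have hz : ∀ (n : ℤ) (x : Cm (Matrix (Fin (N + 1)) (Fin (N + 1)) F)),
      (n • x).e 0 (Fin.last N) = ((n : ℤ) : F) * x.e 0 (Fin.last N) := by
    intro n x
    rw [← Int.cast_smul_eq_zsmul F n x]
    rfl
  unfold altS alt
  rw [hadd, Int.cast_sum]
  refine sum_congr rfl fun σ _ => ?_
  have h1 : actE k σ (fun l => mat F N (X l)) = fun l => mat F N (act k σ X l) := by
    funext l
    unfold actE act
    split_ifs <;> rfl
  rw [hz, ev_wd, h1, evw_mat, if_pos, Int.cast_mul]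
  · rfl
  · show N = 0 + len w
    omega

variable {F}

/-- elements which vanish in all associative algebras -/
theorem altS_zero {p : FA F} (hp : FreeMalcev.mk p ∈ AZ F) (k : ℕ) (R : Type u) [Ring R] [Algebra F R]
    (x : ℕ → Cm R) : altS k x p = 0 := by
  unfold altS
  refine sum_eq_zero fun σ _ => ?_
  have h1 : ev (actE k σ x) p = 0 := by
    have h2 := hp R (actE k σ x)
    rw [FreeMalcev.lift_mk] at h2
    exact h2
  rw [h1, smul_zero]

end Asc

end Pool.Agent.MalP
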