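import Pool.Agent.MalP.X.C7R
import Pool.Agent.MalP.MalE
import Pool.Agent.MalP.Low.Alt

/-! # An integer model of C7 for the evaluation in the kernel -/

set_option autoImplicit false

namespace Pool.Agent.MalP

universe u

open Finset Equiv

/-- integer points of C7 -/
structure Z7 : Type where
  (a b c d e f g : ℤ)
deriving DecidableEq

namespace Z7

/-- the product -/
def mul (x y : Z7) : Z7 :=
  ⟨2 * (x.b * y.e + x.c * y.f + x.d * y.g - (x.e * y.b + x.f * y.c + x.g * y.d)),
    x.a * y.b - y.a * x.b - 2 * (x.f * y.g - x.g * y.f),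
    x.a * y.c - y.a * x.c - 2 * (x.g * y.e - x.e * y.g),
    x.a * y.d - y.a * x.d - 2 * (x.e * y.f - x.f * y.e),
    y.a * x.e - x.a * y.e + 2 * (x.c * y.d - x.d * y.c),
    y.a * x.f - x.a * y.f + 2 * (x.d * y.b - x.b * y.d),
    y.a * x.g - x.a * y.g + 2 * (x.b * y.c - x.c * y.b)⟩

/-- the value of a word -/
def evz (x : ℕ → Z7) : FreeMagma ℕ → Z7 :=
  fun w => FreeMagma.rec (motive := fun _ => Z7) x (fun _ _ u v => mul u v) w

/-- the basis -/
def bs (i : ℕ) : Z7 :=
  ⟨if i = 0 then 1 else 0, if i = 1 then 1 else 0, if i = 2 then 1 else 0, if i = 3 then 1 else 0,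
    if i = 4 then 1 else 0, if i = 5 then 1 else 0, if i = 6 then 1 else 0⟩

/-- the action of permutations on assignments -/
def act (k : ℕ) (σ : Perm (Fin k)) (x : ℕ → Z7) (l : ℕ) : Z7 :=
  if h : l < k then x (σ ⟨l, h⟩) else x l

/-- a coordinate of the alternating sum -/
def alt (k : ℕ) (q : Z7 → ℤ) (x : ℕ → Z7) (w : FreeMagma ℕ) : ℤ :=
  ∑ σ : Perm (Fin k), (Perm.sign σ : ℤ) * q (evz (act k σ x) w)

variable (F : Type u) [Field F] (R : Type u) [CommRing R] [Algebra F R]

/-- the point of C7 -/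
noncomputable def pt (x : Z7) : (X.C7R F R).Mal :=
  ⟨X.pnt F R (x.a : R) (x.b : R) (x.c : R) (x.d : R) (x.e : R) (x.f : R) (x.g : R)⟩

theorem pt_mul (x y : Z7) : pt F R (mul x y) = pt F R x * pt F R y := by
  apply CPA.Mal.ext
  rw [CPA.Mal.mul_e]
  unfold pt
  rw [X.mul_pnt]
  unfold mul
  exact X.pnt_congr (by push_cast; ring) (by push_cast; ring) (by push_cast; ring)
    (by push_cast; ring) (by push_cast; ring) (by push_cast; ring) (by push_cast; ring)

theorem pt_evz (x : ℕ → Z7) (w : FreeMagma ℕ) :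
    evw (fun l => pt F R (x l)) w = pt F R (evz x w) := by
  induction w with
  | ih1 i => rfl
  | ih2 a b iha ihb =>
    show evw _ a * evw _ b = pt F R (mul (evz x a) (evz x b))
    rw [iha, ihb, pt_mul]

/-- the coordinates of a point of C7 -/
def cd {R : Type u} [CommRing R] [Algebra F R] (i : Fin 7) (x : (X.C7R F R).Mal) : R :=
  let y : X.C7RE R := x.e
  match i with
  | 0 => y.1
  | 1 => y.2.1 0
  | 2 => y.2.1 1
  | 3 => y.2.1 2
  | 4 => y.2.2 0
  | 5 => y.2.2 1
  | 6 => y.2.2 2

/-- the coordinates of an integer point -/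
def cz (i : Fin 7) (x : Z7) : ℤ :=
  match i with
  | 0 => x.a
  | 1 => x.b
  | 2 => x.c
  | 3 => x.d
  | 4 => x.e
  | 5 => x.f
  | 6 => x.g

theorem cd_pt (i : Fin 7) (x : Z7) : cd F i (pt F R x) = ((cz i x : ℤ) : R) := by
  fin_cases i <;> rfl

/-- the coordinates as additive maps -/
def cdH {R : Type u} [CommRing R] [Algebra F R] (i : Fin 7) : (X.C7R F R).Mal →+ R where
  toFun := cd F i
  map_zero' := by fin_cases i <;> rfl
  map_add' := fun x y => by fin_cases i <;> rfl

theorem cdH_smul {R : Type u} [CommRing R] [Algebra F R] (i : Fin 7) (r : F)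
    (x : (X.C7R F R).Mal) : cdH F i (r • x) = algebraMap F R r * cdH F i x := by
  fin_cases i <;> rfl

/-- the coordinates of the alternating sums of a word at integer points -/
theorem cd_altS (k : ℕ) (i : Fin 7) (x : ℕ → Z7) (w : FreeMagma ℕ) :
    cdH F i (altS k (fun l => pt F R (x l)) (wd w : FA F)) = ((alt k (cz i) x w : ℤ) : R) := by
  unfold altS alt
  rw [map_sum, Int.cast_sum]
  refine sum_congr rfl fun σ _ => ?_
  have h1 : actE k σ (fun l => pt F R (x l)) = fun l => pt F R (act k σ x l) := by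
    funext l
    unfold actE act
    split_ifs <;> rfl
  rw [map_zsmul, ev_wd, h1, pt_evz]
  show _ • cd F i (pt F R _) = _
  rw [cd_pt, zsmul_eq_mul, Int.cast_mul]

end Z7

end Pool.Agent.MalP
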