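import Pool.Agent.MalP.Low.SpanE
import Pool.Agent.MalP.Low.C7Z
import Pool.Agent.MalP.Low.Asc

/-! # Degree five: the alternating sums over four letters vanish in the free Malcev algebra

Let `p` be multilinear in the letters `0, .., 4`, an identity of `C7` and zero in all associative
algebras. Then the alternating sum of `p` over the letters `0, .., 3` is zero in the free Malcev
algebra. -/

set_option autoImplicit false

namespace Pool.Agent.MalP

universe u

open Finset Equiv

namespace P5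

section Words

variable {F : Type u} [Field F] [C23 F] {A : Type u} [NonUnitalNonAssocRing A] [Module F A]
  [IsScalarTower F A A] [SMulCommClass F A A]

/-- the four words -/
def w1 : FreeMagma ℕ := .mul (.of 4) (.mul (.of 0) (.mul (.of 1) (.mul (.of 2) (.of 3))))
@[inherit_doc w1]
def w2 : FreeMagma ℕ := .mul (.of 0) (.mul (.of 4) (.mul (.of 1) (.mul (.of 2) (.of 3))))
@[inherit_doc w1]
def w3 : FreeMagma ℕ := .mul (.of 0) (.mul (.of 1) (.mul (.of 4) (.mul (.of 2) (.of 3))))
@[inherit_doc w1]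
def w4 : FreeMagma ℕ := .mul (.of 0) (.mul (.of 1) (.mul (.of 2) (.mul (.of 4) (.of 3))))

/-- the four words -/
def ws : Set (FreeMagma ℕ) := {w1, w2, w3, w4}

theorem content_ws : ∀ w ∈ ws, content w = (range 5).val := by
  rintro w (rfl | rfl | rfl | rfl) <;> decide

omit [C23 F] [IsScalarTower F A A] [SMulCommClass F A A] in
theorem odd4 (x : ℕ → A) : (∑ j : Fin 4, GrA.sgl {j} (x j)) ∈ SpE.PS F A 4 true := by
  show _ ∈ GrA.P 4 A true
  refine AddSubgroup.sum_mem _ fun j _ => ?_
  have h := GrA.sgl_mem (k := 4) {j} (x j)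
  rwa [od_single] at h

omit [C23 F] [IsScalarTower F A A] [SMulCommClass F A A] in
theorem even4 (x : ℕ → A) : (GrA.sgl ∅ (x 4) : GrA 4 A) ∈ SpE.PS F A 4 false := by
  have h := GrA.sgl_mem (k := 4) ∅ (x 4)
  rwa [od_empty] at h

theorem word_W (hA : IsMalcev A) (x : ℕ → A) (w : FreeMagma ℕ) (hw : content w ≤ (range 5).val) :
    evw (genE 4 x) w ∈ SpE.W F (∑ j : Fin 4, GrA.sgl {j} (x j)) (GrA.sgl ∅ (x 4))
      (Multiset.card ((content w).filter (fun l => l < 4)))
      (Multiset.card ((content w).filter (fun l => l = 4))) := by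
  induction w with
  | ih1 i =>
    have hi : i ∈ (range 5).val := Multiset.mem_of_le hw (Multiset.mem_singleton_self i)
    have hi5 : i < 5 := Finset.mem_range.1 hi
    by_cases h : i < 4
    · have e1 : Multiset.card ((content (FreeMagma.of i)).filter (fun l => l < 4)) = 1 := by
        show Multiset.card (({i} : Multiset ℕ).filter _) = 1
        rw [Multiset.filter_singleton, if_pos h]
        rfl
      have e2 : Multiset.card ((content (FreeMagma.of i)).filter (fun l => l = 4)) = 0 := by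
        show Multiset.card (({i} : Multiset ℕ).filter _) = 0
        rw [Multiset.filter_singleton, if_neg (by omega)]
        rfl
      rw [e1, e2]
      show genE 4 x i ∈ Submodule.span F _
      unfold genE
      rw [if_pos h]
      exact Submodule.subset_span rfl
    · have h4 : i = 4 := by omega
      subst h4
      exact Submodule.subset_span rfl
  | ih2 a b iha ihb =>
    have h0 : content a + content b ≤ (range 5).val := hw
    have e1 : content (a * b) = content a + content b := rfl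
    have h1 : ∀ (P : ℕ → Prop) [DecidablePred P],
        Multiset.card ((content a).filter P) + Multiset.card ((content b).filter P) ≤
          Multiset.card ((range 5).val.filter P) := by
      intro P _
      rw [← Multiset.card_add, ← Multiset.filter_add]
      exact Multiset.card_le_card (Multiset.filter_le_filter _ h0)
    show evw (genE 4 x) a * evw (genE 4 x) b ∈ _
    rw [e1, Multiset.filter_add, Multiset.filter_add, Multiset.card_add, Multiset.card_add]
    refine SpE.W_mul hA _ _ (odd4 x) (even4 x) _ _ _ _ ?_ ?_ _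
      (iha (le_trans (Multiset.le_add_right _ _) h0)) _ (ihb (le_trans (Multiset.le_add_left _ _) h0))
    · exact h1 _
    · exact h1 _

theorem word_span (hA : IsMalcev A) (x : ℕ → A) (w : FreeMagma ℕ) (hw : content w = (range 5).val) :
    evw (genE 4 x) w ∈ Submodule.span F (evw (genE 4 x) '' ws) := by
  have h := word_W (F := F) hA x w hw.le
  rw [hw] at h
  refine Submodule.span_mono ?_ h
  rintro _ (rfl | rfl | rfl | rfl)
  · exact ⟨w1, Or.inl rfl, rfl⟩
  · exact ⟨w2, Or.inr (Or.inl rfl), rfl⟩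
  · exact ⟨w3, Or.inr (Or.inr (Or.inl rfl)), rfl⟩
  · exact ⟨w4, Or.inr (Or.inr (Or.inr rfl)), rfl⟩

end Words

section Main

variable {F : Type u} [Field F] [C23 F]

/-- the test points in C7 -/
def xA : ℕ → Z7 := fun l => Z7.bs (if l = 0 then 0 else if l = 1 then 1 else if l = 2 then 2
  else if l = 3 then 4 else 0)
@[inherit_doc xA]
def xB : ℕ → Z7 := fun l => Z7.bs (if l = 0 then 0 else if l = 1 then 1 else if l = 2 then 2
  else if l = 3 then 3 else 0)
@[inherit_doc xA]
def xC : ℕ → Z7 := fun l => Z7.bs (if l = 0 then 1 else if l = 1 then 2 else if l = 2 then 5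
  else if l = 3 then 6 else 3)
/-- the test point in the matrices -/
def X0 : ℕ → ℕ → ℤ := fun l i => if l = i then 1 else 0

theorem rowA : Z7.alt 4 (Z7.cz 2) xA w1 = 36 ∧ Z7.alt 4 (Z7.cz 2) xA w2 = -12 ∧
    Z7.alt 4 (Z7.cz 2) xA w3 = 8 ∧ Z7.alt 4 (Z7.cz 2) xA w4 = 28 := by decide +kernel

theorem rowB : Z7.alt 4 (Z7.cz 0) xB w1 = 0 ∧ Z7.alt 4 (Z7.cz 0) xB w2 = -72 ∧
    Z7.alt 4 (Z7.cz 0) xB w3 = 24 ∧ Z7.alt 4 (Z7.cz 0) xB w4 = 48 := by decide +kernel

theorem rowC : Z7.alt 4 (Z7.cz 1) xC w1 = 0 ∧ Z7.alt 4 (Z7.cz 1) xC w2 = 24 ∧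
    Z7.alt 4 (Z7.cz 1) xC w3 = -40 ∧ Z7.alt 4 (Z7.cz 1) xC w4 = 112 := by decide +kernel

theorem rowL : Asc.alt 4 X0 w1 = 0 ∧ Asc.alt 4 X0 w2 = 0 ∧
    Asc.alt 4 X0 w3 = -2 ∧ Asc.alt 4 X0 w4 = -1 := by decide +kernel

/-- The alternating sum over four letters vanishes in the free Malcev algebra. -/
theorem altS_eq_zero {K : Type u} [CommRing K] [Nontrivial K] [Algebra F K] {p : FA F}
    (hp : p ∈ Hg F (range 5).val) (h7 : ∀ x : ℕ → (X.C7R F K).Mal, ev x p = 0)
    (hz : FreeMalcev.mk p ∈ AZ F) :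
    altS 4 (fun l => (FreeMalcev.of l : FreeMalcev F ℕ)) p = 0 := by
  set x : ℕ → FreeMalcev F ℕ := fun l => FreeMalcev.of l with hx
  have hs := altS_span (F := F) 4 x (range 5) (fun i => Finset.mem_range.2 (by omega)) ws
    content_ws (fun w hw => word_span FreeMalcev.isMalcev x w hw) hp
  unfold ws at hs
  rw [Set.image_insert_eq, Set.image_insert_eq, Set.image_insert_eq, Set.image_singleton,
    Submodule.mem_span_insert] at hs
  obtain ⟨c1, z1, hz1, e1⟩ := hs
  rw [Submodule.mem_span_insert] at hz1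
  obtain ⟨c2, z2, hz2, e2⟩ := hz1
  rw [Submodule.mem_span_insert] at hz2
  obtain ⟨c3, z3, hz3, e3⟩ := hz2
  obtain ⟨c4, e4⟩ := Submodule.mem_span_singleton.1 hz3
  rw [← e4] at e3
  rw [e3] at e2
  rw [e2] at e1
  have row7 : ∀ (y : ℕ → Z7) (i : Fin 7), ((c1 * (Z7.alt 4 (Z7.cz i) y w1 : ℤ) +
      (c2 * (Z7.alt 4 (Z7.cz i) y w2 : ℤ) + (c3 * (Z7.alt 4 (Z7.cz i) y w3 : ℤ) +
        c4 * (Z7.alt 4 (Z7.cz i) y w4 : ℤ)))) : F) = 0 := by
    intro y i
    have h1 := congrArg (FreeMalcev.lift (CPA.Mal.isMalcev (X.C7R F K)) (fun l => Z7.pt F K (y l))) e1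
    rw [map_add, map_add, map_add, map_smul, map_smul, map_smul, map_smul, hom_altS, hom_altS,
      hom_altS, hom_altS, hom_altS] at h1
    have h2 : (fun l => FreeMalcev.lift (CPA.Mal.isMalcev (X.C7R F K)) (fun l => Z7.pt F K (y l)) (x l)) =
        fun l => Z7.pt F K (y l) := by
      funext l
      exact FreeMalcev.lift_of _ _ l
    rw [h2] at h1
    have h3 : altS 4 (fun l => Z7.pt F K (y l)) p = 0 := by
      unfold altS
      exact sum_eq_zero fun σ _ => by rw [h7, smul_zero]
    rw [h3] at h1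
    have h4 := congrArg (Z7.cdH F i) h1
    rw [map_zero, map_add, map_add, map_add, Z7.cdH_smul, Z7.cdH_smul, Z7.cdH_smul, Z7.cdH_smul,
      Z7.cd_altS, Z7.cd_altS, Z7.cd_altS, Z7.cd_altS] at h4
    apply (algebraMap F K).injective
    rw [map_zero, h4, map_add, map_add, map_add, map_mul, map_mul, map_mul, map_mul, map_intCast,
      map_intCast, map_intCast, map_intCast]
  have rowM : ((c1 * (Asc.alt 4 X0 w1 : ℤ) + (c2 * (Asc.alt 4 X0 w2 : ℤ) +
      (c3 * (Asc.alt 4 X0 w3 : ℤ) + c4 * (Asc.alt 4 X0 w4 : ℤ)))) : F) = 0 := by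
    have h1 := congrArg (FreeMalcev.lift (Cm.isMalcev (R := Matrix (Fin 6) (Fin 6) F))
      (fun l => Asc.mat F 5 (X0 l))) e1
    rw [map_add, map_add, map_add, map_smul, map_smul, map_smul, map_smul, hom_altS, hom_altS,
      hom_altS, hom_altS, hom_altS] at h1
    have h2 : (fun l => FreeMalcev.lift (Cm.isMalcev (R := Matrix (Fin 6) (Fin 6) F))
        (fun l => Asc.mat F 5 (X0 l)) (x l)) = fun l => Asc.mat F 5 (X0 l) := by
      funext l
      exact FreeMalcev.lift_of _ _ l
    rw [h2, Asc.altS_zero hz] at h1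
    have h4 := congrArg (fun z : Cm (Matrix (Fin 6) (Fin 6) F) => z.e 0 (Fin.last 5)) h1
    have h5 : (0 : F) = c1 * (altS 4 (fun l => Asc.mat F 5 (X0 l)) (wd w1 : FA F)).e 0 (Fin.last 5) +
        (c2 * (altS 4 (fun l => Asc.mat F 5 (X0 l)) (wd w2 : FA F)).e 0 (Fin.last 5) +
        (c3 * (altS 4 (fun l => Asc.mat F 5 (X0 l)) (wd w3 : FA F)).e 0 (Fin.last 5) +
        c4 * (altS 4 (fun l => Asc.mat F 5 (X0 l)) (wd w4 : FA F)).e 0 (Fin.last 5))) := h4
    rw [Asc.altS_mat F 4 5 X0 w1 rfl, Asc.altS_mat F 4 5 X0 w2 rfl, Asc.altS_mat F 4 5 X0 w3 rfl,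
      Asc.altS_mat F 4 5 X0 w4 rfl] at h5
    exact h5.symm
  have rA := row7 xA 2
  have rB := row7 xB 0
  have rC := row7 xC 1
  rw [rowA.1, rowA.2.1, rowA.2.2.1, rowA.2.2.2] at rA
  rw [rowB.1, rowB.2.1, rowB.2.2.1, rowB.2.2.2] at rB
  rw [rowC.1, rowC.2.1, rowC.2.2.1, rowC.2.2.2] at rC
  rw [rowL.1, rowL.2.1, rowL.2.2.1, rowL.2.2.2] at rowM
  push_cast at rA rB rC rowM
  have n864 : (864 : F) ≠ 0 := by
    have h := C23.ne F 5 3
    norm_num at h
    exact h
  have n72 : (72 : F) ≠ 0 := by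
    have h := C23.ne F 3 2
    norm_num at h
    exact h
  have hc3 : c3 = 0 := by
    have h : (864 : F) * c3 = 0 := by
      linear_combination (-3 : F) * rC - rB - (384 : F) * rowM
    exact (mul_eq_zero.1 h).resolve_left n864
  have hc4 : c4 = 0 := by
    rw [hc3] at rowM
    linear_combination -rowM
  have hc2 : c2 = 0 := by
    rw [hc3, hc4] at rB
    have h : (72 : F) * c2 = 0 := by linear_combination -rB
    exact (mul_eq_zero.1 h).resolve_left n72
  have hc1 : c1 = 0 := by
    rw [hc2, hc3, hc4] at rA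
    have h : (36 : F) * c1 = 0 := by linear_combination rA
    exact (mul_eq_zero.1 h).resolve_left (C23.n36 F)
  rw [e1, hc1, hc2, hc3, hc4]
  simp only [zero_smul, add_zero]

/-- The alternating sum over four letters vanishes in all Malcev algebras. -/
theorem altS_all {K : Type u} [CommRing K] [Nontrivial K] [Algebra F K] {p : FA F}
    (hp : p ∈ Hg F (range 5).val) (h7 : ∀ x : ℕ → (X.C7R F K).Mal, ev x p = 0)
    (hz : FreeMalcev.mk p ∈ AZ F) {A : Type u} [NonUnitalNonAssocRing A] [Module F A]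
    [IsScalarTower F A A] [SMulCommClass F A A] (hA : IsMalcev A) (x : ℕ → A) :
    ∑ σ : Perm (Fin 4), (Perm.sign σ : ℤ) • ev (actE 4 σ x) p = 0 := by
  have h1 := congrArg (FreeMalcev.lift hA x) (altS_eq_zero hp h7 hz)
  rw [hom_altS, map_zero] at h1
  have h2 : (fun l => FreeMalcev.lift hA x (FreeMalcev.of l : FreeMalcev F ℕ)) = x := by
    funext l
    exact FreeMalcev.lift_of _ _ l
  rw [h2] at h1
  exact h1

end Main

end P5

end Pool.Agent.MalP
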