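import Pool.Agent.MalP.BhE2
import Pool.Agent.MalP.Low.Alt

/-! # An integer model for the `W`-part of the words in the letters of the model algebra -/

set_option autoImplicit false

namespace Pool.Agent.MalP

universe u

open Finset Equiv

namespace Low

/-- sorted insertion with sign -/
def ins (x : ℕ) : List ℕ → ℤ × List ℕ :=
  fun l => List.rec (motive := fun _ => ℤ × List ℕ) (1, [x])
    (fun y l r => if x ≤ y then (1, x :: y :: l) else (-r.1, y :: r.2)) l

/-- sorting with sign -/
def srt : List ℕ → ℤ × List ℕ :=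
  fun l => List.rec (motive := fun _ => ℤ × List ℕ) (1, [])
    (fun x _ r => (r.1 * (ins x r.2).1, (ins x r.2).2)) l

section

variable (F : Type u) [Field F]

theorem px_ins (x : ℕ) (l : List ℕ) : px F (x :: l) = (ins x l).1 • px F (ins x l).2 := by
  induction l with
  | nil => exact (one_smul ℤ _).symm
  | cons y l ih =>
    have e : ins x (y :: l) = if x ≤ y then (1, x :: y :: l) else (-(ins x l).1, y :: (ins x l).2) :=
      rfl
    rw [e]
    split_ifs
    · exact (one_smul ℤ _).symm
    · show px F (x :: y :: l) = -(ins x l).1 • px F (y :: (ins x l).2)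
      rw [px_cons, px_cons, ← mul_assoc, xe_anti, neg_mul, mul_assoc, ← px_cons, ih,
        px_cons F y, mul_smul_comm, neg_smul]

theorem px_srt (l : List ℕ) : px F l = (srt l).1 • px F (srt l).2 := by
  induction l with
  | nil => exact (one_smul ℤ _).symm
  | cons x l ih =>
    show px F (x :: l) = ((srt l).1 * (ins x (srt l).2).1) • px F (ins x (srt l).2).2
    rw [mul_smul, ← px_ins, px_cons, px_cons, ih]
    rw [mul_smul_comm]

/-- the integer model: a letter, or a multiple of a product of letters -/
inductive WV : Type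
  | l (a : ℕ) : WV
  | w (c : ℤ) (ls : List ℕ) : WV

/-- the product, for the place `i` -/
def WV.mul (i : ℕ) (x y : WV) : WV :=
  match x, y with
  | .l a, .l b => if a = b then .w 0 [] else if b = i then .w 1 [a] else
      if a = i then .w (-1) [b] else .w 0 []
  | .w c ls, .l b => .w c (ls ++ [b])
  | .l a, .w c ls => .w (-c) (ls ++ [a])
  | .w _ _, .w _ _ => .w 0 []

/-- the value of a word -/
def evWV (i : ℕ) (x : ℕ → ℕ) : FreeMagma ℕ → WV :=
  fun w => FreeMagma.rec (motive := fun _ => WV) (fun l => .l (x l)) (fun _ _ u v => WV.mul i u v) w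

/-- the value of the model -/
def RelW (i : ℕ) (m : WV) (x : Bh F) : Prop :=
  match m with
  | .l a => x = Bh.lt F a
  | .w c ls => x.v = 0 ∧ x.w i = c • px F ls

theorem rel_mul (i : ℕ) (m n : WV) (x y : Bh F) (hx : RelW F i m x) (hy : RelW F i n y) :
    RelW F i (WV.mul i m n) (x * y) := by
  cases m with
  | l a =>
    have hx' : x = Bh.lt F a := hx
    cases n with
    | l b =>
      have hy' : y = Bh.lt F b := hy
      have h1 : (x * y).w i = (Finsupp.single b (1 : F)) i • xe F a - (Finsupp.single a (1 : F)) i • xe F b := by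
        rw [hx', hy']
        exact BhE2Aux.vlvl_w _ _ _
      show RelW F i (if a = b then .w 0 [] else if b = i then .w 1 [a] else
        if a = i then .w (-1) [b] else .w 0 []) (x * y)
      by_cases hab : a = b
      · rw [if_pos hab]
        refine ⟨rfl, ?_⟩
        rw [h1, hab, sub_self, zero_smul]
      · rw [if_neg hab]
        by_cases hb : b = i
        · rw [if_pos hb]
          have ha : a ≠ i := fun e => hab (e.trans hb.symm)
          refine ⟨rfl, ?_⟩
          rw [h1, hb, Finsupp.single_eq_same, Finsupp.single_eq_of_ne ha.symm, one_smul, zero_smul,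
            sub_zero, one_smul, px_singleton]
        · rw [if_neg hb]
          by_cases ha : a = i
          · rw [if_pos ha]
            refine ⟨rfl, ?_⟩
            rw [h1, ha, Finsupp.single_eq_same, Finsupp.single_eq_of_ne (Ne.symm hb), one_smul,
              zero_smul, zero_sub, neg_smul, one_smul, px_singleton]
          · rw [if_neg ha]
            refine ⟨rfl, ?_⟩
            rw [h1, Finsupp.single_eq_of_ne (Ne.symm hb), Finsupp.single_eq_of_ne (Ne.symm ha),
              zero_smul, zero_smul, sub_zero, zero_smul]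
    | w c ls =>
      obtain ⟨h1, h2⟩ := (show y.v = 0 ∧ y.w i = c • px F ls from hy)
      refine ⟨rfl, ?_⟩
      rw [hx']
      show (Bh.vl _ * y).w i = _
      rw [BhE2Aux.vl_mul_w h1, h2, px_append, px_singleton, smul_mul_assoc, neg_smul]
      rfl
  | w c ls =>
    obtain ⟨h1, h2⟩ := (show x.v = 0 ∧ x.w i = c • px F ls from hx)
    cases n with
    | l b =>
      have hy' : y = Bh.lt F b := hy
      refine ⟨rfl, ?_⟩
      rw [hy']
      show (x * Bh.vl _).w i = _
      rw [Bh.mul_vl_w h1, h2, px_append, px_singleton, smul_mul_assoc]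
      rfl
    | w d ms =>
      obtain ⟨h3, h4⟩ := (show y.v = 0 ∧ y.w i = d • px F ms from hy)
      refine ⟨rfl, ?_⟩
      rw [BhE2Aux.mul0_w h1 h3, zero_smul]

theorem rel_ev (i : ℕ) (x : ℕ → ℕ) (w : FreeMagma ℕ) :
    RelW F i (evWV i x w) (evw (fun l => Bh.lt F (x l)) w) := by
  induction w with
  | ih1 l => exact rfl
  | ih2 a b iha ihb => exact rel_mul F i _ _ _ _ iha ihb

/-- the coefficient of the sorted product -/
def WV.cf (m : WV) : ℤ :=
  match m with
  | .l _ => 0
  | .w c ls => c * (srt ls).1

/-- the sorted product is `px T` -/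
def WV.ok (T : List ℕ) (m : WV) : Bool :=
  match m with
  | .l _ => false
  | .w c ls => decide (c = 0) || decide ((srt ls).2 = T)

theorem cf_ok (i : ℕ) (T : List ℕ) (m : WV) (x : Bh F) (h : RelW F i m x) (hm : m.ok T = true) :
    x.w i = m.cf • px F T := by
  cases m with
  | l a => exact absurd hm Bool.false_ne_true
  | w c ls =>
    obtain ⟨h1, h2⟩ := (show x.v = 0 ∧ x.w i = c • px F ls from h)
    have h3 : (decide (c = 0) || decide ((srt ls).2 = T)) = true := hm
    rw [Bool.or_eq_true, decide_eq_true_eq, decide_eq_true_eq] at h3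
    show x.w i = (c * (srt ls).1) • px F T
    rcases h3 with h3 | h3
    · rw [h2, h3, zero_smul, zero_mul, zero_smul]
    · rw [h2, ← h3, mul_smul, ← px_srt]

/-- the action of permutations on the letters -/
def actN (k : ℕ) (σ : Perm (Fin k)) (l : ℕ) : ℕ := if h : l < k then (σ ⟨l, h⟩ : ℕ) else l

theorem actN_inj (k : ℕ) (σ : Perm (Fin k)) : Function.Injective (actN k σ) := by
  intro a b h
  unfold actN at h
  split_ifs at h with h1 h2 h2
  · have := σ.injective (Fin.ext h)
    exact congrArg Fin.val this
  · have := (σ ⟨a, h1⟩).2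
    omega
  · have := (σ ⟨b, h2⟩).2
    omega
  · exact h

theorem actE_lt (k : ℕ) (σ : Perm (Fin k)) : actE k σ (fun l => Bh.lt F l) =
    fun l => Bh.lt F (actN k σ l) := by
  funext l
  unfold actE actN
  split_ifs <;> rfl

/-- the alternating sum -/
def altW (k i : ℕ) (w : FreeMagma ℕ) : ℤ :=
  ∑ σ : Perm (Fin k), (Perm.sign σ : ℤ) * (evWV i (actN k σ) w).cf

theorem altS_w (k i : ℕ) (T : List ℕ) (w : FreeMagma ℕ)
    (h : ∀ σ : Perm (Fin k), (evWV i (actN k σ) w).ok T = true) :
    (altS k (fun l => Bh.lt F l) (wd w : FA F)).w i = (altW k i w : ℤ) • px F T := by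
  unfold altS altW
  rw [BhEAux.w_sum, sum_smul]
  refine sum_congr rfl fun σ _ => ?_
  rw [BhEAux.w_zsmul, ev_wd, actE_lt, cf_ok F i T _ _ (rel_ev F i (actN k σ) w) (h σ), smul_smul]

/-- elements without `W`-part -/
theorem altS_w_zero {p : FA F} (hw : ∀ σ : ℕ → ℕ, Function.Injective σ → ∀ i,
    (ev (fun k => Bh.lt F (σ k)) p).w i = 0) (k i : ℕ) :
    (altS k (fun l => Bh.lt F l) p).w i = 0 := by
  unfold altS
  rw [BhEAux.w_sum]
  refine sum_eq_zero fun σ _ => ?_
  rw [BhEAux.w_zsmul, actE_lt, hw _ (actN_inj k σ), smul_zero]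

end

end Low

end Pool.Agent.MalP
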