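import Pool.Agent.MalP.Low.P6a
import Pool.Agent.MalP.Low.C7Z
import Pool.Agent.MalP.Low.Asc
import Pool.Agent.MalP.Low.W6

/-! # Elements of degree six which vanish in C7, in all associative algebras and in the `W`-part of the
model algebra have vanishing alternating sums over four letters -/

set_option autoImplicit false
set_option maxRecDepth 100000

namespace Pool.Agent.MalP

universe u

open Finset Equiv

namespace Low

/-- the values of the sixteen words at sixteen points -/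
def Ems : List (List ℤ) := [
  [0, 0, 0, 0, 0, 0, 2, 0, -2, 0, 0, 0, 0, 0, -1, 0],
  [0, 0, 0, -1, -2, -1, -2, 0, 0, 0, -4, 0, 0, -4, -1, 0],
  [1, 1, 0, 1, 2, 0, 2, 0, 0, 2, 2, 0, 0, 4, 0, 0],
  [0, 0, 0, 0, 0, 0, 0, 0, 0, 0, 2, -2, 0, 0, 1, 0],
  [0, -1, -1, 0, 0, 0, -2, 0, 0, 0, 0, 0, 0, 0, 1, 0],
  [24, -24, 0, 24, 0, 0, 0, 0, 0, 0, 0, 0, 0, 0, 0, 0],
  [-24, 0, -24, 0, 0, 24, 0, 0, 0, 0, 0, 0, 0, 0, 0, 0],
  [0, -6, 6, 6, -12, -6, 12, -12, -12, 0, -12, 12, -12, 0, 0, 0],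
  [0, -48, -48, 0, -72, 0, 24, -72, 24, 0, 0, 0, 0, 0, -48, 72],
  [-112, 16, -64, 0, 0, 112, 16, -96, 0, 16, -112, 0, 0, 0, -64, -96],
  [56, -24, 16, 0, 48, 16, 0, -48, 8, -8, -16, 0, 0, 0, 16, -72],
  [0, 32, 32, -80, -16, -80, 0, -48, 0, 0, 80, 80, -48, 64, 64, 0],
  [0, -16, 8, 24, -24, 0, -8, 48, 0, 0, 32, -56, 48, 0, -40, 48],
  [0, 16, -32, 64, -16, -32, 16, 144, 0, 0, -32, 0, 0, -32, 192, -96],
  [0, -64, 32, 88, -88, -8, 56, -48, -56, 0, -80, 0, 0, 64, -128, -48],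
  [8, 0, -8, 0, 24, 16, 16, 24, -8, 40, -24, 8, -48, -48, 88, -96]]

/-- a left inverse, times 8640 -/
def Lms : List (List ℤ) := [
  [-3456, 8352, 5184, 2880, -6048, -72, 1512, 432, -80, -210, 336, 60, 60, 6, 60, -108],
  [-2304, 8928, 4896, 5760, -8352, 432, 1188, 288, -160, -60, 144, 120, 0, 24, 0, -192],
  [-3168, -864, -288, -1440, -864, -216, 36, 576, -40, -10, 88, 0, 180, -22, -20, 36],
  [1152, 576, -288, 2880, -2304, 864, -324, -144, -80, 150, -192, 60, -60, 18, -60, -84],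
  [4608, -7776, -4032, -2880, 6624, 36, -1476, -576, 80, 150, -288, -120, -180, -18, -60, 84],
  [-6624, 7488, 4896, 1440, -6912, -288, 1908, 1008, -120, -220, 424, 60, 240, -16, 40, -72],
  [1872, -3744, -1728, -2160, 576, -216, -504, -144, 100, 25, -52, -60, -30, 13, -10, 66],
  [-1008, -864, -288, -2160, 576, -396, 216, -144, 20, -115, 28, -60, -30, -7, 70, 66],
  [-1584, -4032, -2304, -2160, 288, -108, -612, -432, 100, 35, -116, -60, -90, -1, 10, 78],
  [288, 864, 1728, -1440, 864, 216, -216, 144, 0, 90, -48, 60, 180, -18, -60, 84],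
  [1584, 1152, -576, 2160, -3168, 648, 72, -288, -60, 75, -84, 120, 30, -9, -30, -18],
  [720, 1440, 0, -2160, -2880, 540, 180, 0, -60, 65, -20, 120, 90, 5, -50, -30],
  [2448, 864, 288, -2160, -576, 396, -216, 144, -20, 155, 52, 120, 270, 47, -110, -66],
  [-3024, 288, 2016, -720, 1728, -648, 468, 288, 20, -140, 164, -60, 0, 4, 80, -12],
  [-1728, 576, 1152, 0, 576, -216, 216, 576, 0, -20, 128, 0, 120, 28, -40, -24],
  [-1296, -288, 864, -720, 1152, -252, 72, 432, 20, -45, 36, -60, 30, -9, -30, -18]]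

def Em (t j : ℕ) : ℤ := (Ems.getD t []).getD j 0

def Lm (t j : ℕ) : ℤ := (Lms.getD t []).getD j 0

theorem LE : ∀ k < 16, ∀ j < 16, ∑ t ∈ range 16, Lm k t * Em t j = if k = j then 8640 else 0 := by
  decide +kernel

/-- the places of the letters in the associative monomials -/
def Ap : List (List ℕ) := [[1, 2, 3, 5, 0, 4], [1, 2, 4, 5, 0, 3], [2, 3, 4, 5, 0, 1], [1, 2, 3, 4, 0, 5], [1, 3, 4, 5, 0, 2]]

/-- the superdiagonal matrices -/
def Xa (t l i : ℕ) : ℤ := if (Ap.getD t []).getD l 9 = i then 1 else 0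

theorem rowA : ∀ t < 5, ∀ j < 16, Asc.alt 4 (Xa t) (nw j) = Em t j ∧ Asc.len (nw j) = 6 := by
  decide +kernel

/-- the letters of the `W`-parts -/
def Wp : List (ℕ × List ℕ) := [(5, [0, 1, 2, 3, 4]), (4, [0, 1, 2, 3, 5]), (3, [0, 1, 2, 4, 5])]

def Wi (t : ℕ) : ℕ := (Wp.getD t (0, [])).1
def WT (t : ℕ) : List ℕ := (Wp.getD t (0, [])).2

theorem rowW : ∀ t < 3, ∀ j < 16, altW 4 (Wi t) (nw j) = Em (5 + t) j ∧
    ∀ σ : Perm (Fin 4), (evWV (Wi t) (actN 4 σ) (nw j)).ok (WT t) = true := by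
  decide +kernel

theorem WT_nodup : ∀ t < 3, (WT t).Nodup := by
  decide +kernel

/-- the points of C7 -/
def Cp : List (List ℕ × Fin 7) := [([0, 1, 2, 3, 0, 0], 0), ([1, 2, 3, 6, 3, 0], 0), ([0, 2, 5, 6, 3, 0], 0), ([1, 2, 4, 6, 3, 3], 4), ([0, 3, 4, 6, 1, 6], 6), ([3, 4, 5, 6, 5, 6], 5), ([0, 2, 3, 4, 6, 1], 2), ([0, 4, 5, 6, 4, 0], 4)]

def Cx (t l : ℕ) : Z7 := Z7.bs (((Cp.getD t ([], 0)).1).getD l 9)
def Ci (t : ℕ) : Fin 7 := (Cp.getD t ([], 0)).2

theorem rowC : ∀ t < 8, ∀ j < 16, Z7.alt 4 (Z7.cz (Ci t)) (Cx t) (nw j) = Em (8 + t) j := by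
  decide +kernel

section

variable {F : Type u} [Field F]

theorem C_zero (h : (8640 : F) ≠ 0) {C : ℕ → F}
    (hC : ∀ t < 16, ∑ j ∈ range 16, C j * ((Em t j : ℤ) : F) = 0) : ∀ k < 16, C k = 0 := by
  intro k hk
  have h1 : ∑ t ∈ range 16, ((Lm k t : ℤ) : F) * ∑ j ∈ range 16, C j * ((Em t j : ℤ) : F) = 0 := by
    refine sum_eq_zero fun t ht => ?_
    rw [hC t (mem_range.1 ht), mul_zero]
  have h2 : ∑ t ∈ range 16, ((Lm k t : ℤ) : F) * ∑ j ∈ range 16, C j * ((Em t j : ℤ) : F) =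
      ∑ j ∈ range 16, C j * ((∑ t ∈ range 16, Lm k t * Em t j : ℤ) : F) := by
    simp_rw [mul_sum]
    rw [sum_comm]
    refine sum_congr rfl fun j _ => ?_
    rw [Int.cast_sum, mul_sum]
    refine sum_congr rfl fun t _ => ?_
    rw [Int.cast_mul]
    ring
  rw [h2, sum_eq_single k] at h1
  · rw [LE k hk k hk, if_pos rfl] at h1
    have h3 : C k * (8640 : F) = 0 := by
      rw [← h1]
      norm_num
    exact (mul_eq_zero.1 h3).resolve_right h
  · intro j hj hjk
    rw [LE k hk j (mem_range.1 hj), if_neg (Ne.symm hjk), Int.cast_zero, mul_zero]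
  · intro hk'
    exact absurd (mem_range.2 hk) hk'

variable [C23 F]

/-- **(P6).** -/
theorem P6 (h5 : (5 : F) ≠ 0) {K : Type u} [Field K] [Algebra F K] {p : FA F}
    (hp : p ∈ Hg F (Finset.range 6).val) (h7 : ∀ x : ℕ → (X.C7R F K).Mal, ev x p = 0)
    (haz : FreeMalcev.mk p ∈ AZ F) (hw : ∀ σ : ℕ → ℕ, Function.Injective σ → ∀ i,
      (ev (fun k => Bh.lt F (σ k)) p).w i = 0)
    {A : Type u} [NonUnitalNonAssocRing A] [Module F A] [IsScalarTower F A A] [SMulCommClass F A A]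
    (hA : IsMalcev A) (x : ℕ → A) : altS 4 x p = 0 := by
  obtain ⟨C, hC⟩ := alt_words hp
  have hd : (8640 : F) ≠ 0 := by
    have h1 := C23.ne F 6 3
    have h2 : (8640 : F) = ((2 ^ 6 * 3 ^ 3 : ℕ) : F) * 5 ^ 1 := by norm_num
    rw [h2]
    exact mul_ne_zero h1 (pow_ne_zero _ h5)
  have key : ∀ t < 16, ∑ j ∈ range 16, C j * ((Em t j : ℤ) : F) = 0 := by
    intro t ht
    by_cases h1 : t < 5
    · -- associative algebras
      have e1 := hC (Cm (Matrix (Fin (6 + 1)) (Fin (6 + 1)) F)) Cm.isMalcev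
        (fun l => Asc.mat F 6 (Xa t l))
      rw [Asc.altS_zero haz] at e1
      have e2 := congrArg (fun y => y.e 0 (Fin.last 6)) e1
      have e3 : ∀ (s : Finset ℕ) (f : ℕ → Cm (Matrix (Fin (6 + 1)) (Fin (6 + 1)) F)),
          (∑ j ∈ s, f j).e 0 (Fin.last 6) = ∑ j ∈ s, (f j).e 0 (Fin.last 6) := by
        intro s f
        classical
        induction s using Finset.induction_on with
        | empty => rfl
        | insert a s ha ih =>
          rw [sum_insert ha, sum_insert ha, ← ih]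
          rfl
      simp only [e3] at e2
      refine Eq.trans (sum_congr rfl fun j hj => ?_) (show _ = (0 : F) from e2.symm)
      have e4 := rowA t h1 j (mem_range.1 hj)
      rw [← e4.1, ← Asc.altS_mat F 4 6 (Xa t) (nw j) e4.2]
      rfl
    by_cases h2 : t < 8
    · -- the model algebra
      obtain ⟨s, rfl⟩ : ∃ s, t = 5 + s := ⟨t - 5, by omega⟩
      have hs : s < 3 := by omega
      have e1 := hC (Bh F) Bh.isMalcev (fun l => Bh.lt F l)
      have e2 := congrArg (fun y : Bh F => y.w (Wi s)) e1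
      have e3 : (altS 4 (fun l => Bh.lt F l) p).w (Wi s) = 0 := altS_w_zero F hw 4 (Wi s)
      have e4 : (∑ j ∈ range 16, C j • altS 4 (fun l => Bh.lt F l) (wd (nw j) : FA F)).w (Wi s) =
          ∑ j ∈ range 16, (C j * ((Em (5 + s) j : ℤ) : F)) • px F (WT s) := by
        rw [BhEAux.w_sum]
        refine sum_congr rfl fun j hj => ?_
        have e5 := rowW s hs j (mem_range.1 hj)
        rw [Bh.w_smul, altS_w F 4 (Wi s) (WT s) (nw j) e5.2, e5.1, ← Int.cast_smul_eq_zsmul F,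
          smul_smul]
      have e6 : (0 : Ex F) = ∑ j ∈ range 16, (C j * ((Em (5 + s) j : ℤ) : F)) • px F (WT s) := by
        rw [← e4, ← e3]
        exact e2
      rw [← sum_smul] at e6
      exact (smul_eq_zero.1 e6.symm).resolve_right (px_ne_zero F (WT_nodup s hs))
    · -- C7
      obtain ⟨s, rfl⟩ : ∃ s, t = 8 + s := ⟨t - 8, by omega⟩
      have hs : s < 8 := by omega
      have e1 := hC (X.C7R F K).Mal (CPA.Mal.isMalcev _) (fun l => Z7.pt F K (Cx s l))
      have e0 : altS 4 (fun l => Z7.pt F K (Cx s l)) p = 0 := by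
        unfold altS
        refine sum_eq_zero fun σ _ => ?_
        rw [h7, smul_zero]
      rw [e0] at e1
      have e2 := congrArg (Z7.cdH F (Ci s)) e1
      rw [map_zero, map_sum] at e2
      have e3 : algebraMap F K (∑ j ∈ range 16, C j * ((Em (8 + s) j : ℤ) : F)) = 0 := by
        rw [map_sum, e2]
        refine sum_congr rfl fun j hj => ?_
        rw [Z7.cdH_smul, Z7.cd_altS, rowC s hs j (mem_range.1 hj), map_mul, map_intCast]
      exact (map_eq_zero _).1 e3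
  have hz := C_zero hd key
  rw [hC A hA x]
  refine sum_eq_zero fun j hj => ?_
  rw [hz j (mem_range.1 hj), zero_smul]

end

end Low

end Pool.Agent.MalP
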