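import Pool.Agent.MalP.Low.Span
import Pool.Agent.MalP.Low.Alt

/-! # The alternating sums of the elements of degree six are combinations of sixteen words -/

set_option autoImplicit false
set_option maxRecDepth 100000

namespace Pool.Agent.MalP

universe u

open Finset Equiv

namespace Low

open Chk

/-- sign of a word -/
def sgw (p : ℕ → Bool) : FreeMagma ℕ → ℤ :=
  fun w => FreeMagma.rec (motive := fun _ => ℤ) (fun _ => 1)
    (fun a b sa sb => sg (linv p (PEx.ofW a).lts (PEx.ofW b).lts) * (sa * sb)) w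

theorem ofW_sev' {S : Type u} [NonUnitalNonAssocRing S] (p : ℕ → Bool) (z : ℕ → S)
    (w : FreeMagma ℕ) : (PEx.ofW w).sev p z = sgw p w • evw z w := by
  induction w with
  | ih1 i => exact (one_smul ℤ _).symm
  | ih2 a b iha ihb =>
    show sg _ • ((PEx.ofW a).sev p z * (PEx.ofW b).sev p z) = (sg _ * (sgw p a * sgw p b)) •
      (evw z a * evw z b)
    rw [iha, ihb, zz_mul, smul_smul]

theorem evw_congr' {S : Type u} [NonUnitalNonAssocRing S] {x y : ℕ → S} (w : FreeMagma ℕ) :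
    (∀ l ∈ content w, x l = y l) → evw x w = evw y w := by
  induction w with
  | ih1 i => exact fun h => h i (Multiset.mem_singleton_self i)
  | ih2 a b iha ihb =>
    intro h
    show evw x a * evw x b = evw y a * evw y b
    rw [iha fun l hl => h l (Multiset.mem_add.2 (Or.inl hl)),
      ihb fun l hl => h l (Multiset.mem_add.2 (Or.inr hl))]

section

variable {A : Type u} [NonUnitalNonAssocRing A]

/-- values of the generators -/
def vE (x : ℕ → A) (g : ℕ) : GrA 4 A :=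
  if g = 0 then genE 4 x 0 else if g = 1 then genE 4 x 4 else genE 4 x 5

theorem vE_cl6 (x : ℕ → A) {l : ℕ} (hl : l < 6) : genE 4 x l = vE x (cl6 l) := by
  unfold vE cl6 genE
  by_cases h : l < 4
  · simp [h]
  · have : l = 4 ∨ l = 5 := by omega
    rcases this with rfl | rfl <;> simp

theorem vE_mem (x : ℕ → A) (g : ℕ) : vE x g ∈ GrA.P 4 A (par1 g) := by
  unfold vE
  split_ifs with h h'
  · subst h
    unfold genE
    rw [if_pos (by norm_num)]
    refine AddSubgroup.sum_mem _ fun i _ => ?_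
    have := GrA.sgl_mem {i} (x i)
    rw [od_single] at this
    exact this
  · subst h'
    have := GrA.sgl_mem (k := 4) ∅ (x 4)
    rw [od_empty] at this
    exact this
  · have h1 : par1 g = false := by
      unfold par1
      cases e : Nat.beq g 0
      · rfl
      · exact absurd (Nat.eq_of_beq_eq_true e) h
    rw [h1]
    have := GrA.sgl_mem (k := 4) ∅ (x 5)
    rw [od_empty] at this
    exact this

end

theorem top_of_code : ∀ k < 63, dg k = 276 → 47 ≤ k := by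
  decide +kernel

section

variable {F : Type u} [Field F]

/-- the alternating sum of a word as a super value -/
theorem altS_word {A : Type u} [NonUnitalNonAssocRing A] [Module F A] [IsScalarTower F A A]
    [SMulCommClass F A A] (x : ℕ → A) (w : FreeMagma ℕ) (hw : content w = Multiset.range 6) :
    altS 4 x (wd w : FA F) = sgw (parE 4) w • (evw (fun l => vE x (cl6 l)) w) univ := by
  have hnd : (content w).Nodup := by
    rw [hw]
    exact Multiset.nodup_range 6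
  have hk : ∀ i : Fin 4, (i : ℕ) ∈ content w := by
    intro i
    rw [hw, Multiset.mem_range]
    have := i.2
    omega
  have h1 := alt_eq 4 (PEx.ofW w) (PEx.ofW_ml w hnd) (fun i => (PEx.ofW_ls w i).2 (hk i)) x
  have h2 : altS 4 x (wd w : FA F) =
      ∑ σ : Perm (Fin 4), (Perm.sign σ : ℤ) • (PEx.ofW w).ev (actE 4 σ x) := by
    unfold altS
    refine sum_congr rfl fun σ _ => ?_
    rw [PEx.ofW_ev, ev_wd]
  rw [h2, ← h1, ofW_sev']
  have h3 : evw (genE 4 x) w = evw (fun l => vE x (cl6 l)) w := by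
    apply evw_congr'
    intro l hl
    rw [hw, Multiset.mem_range] at hl
    exact vE_cl6 x hl
  rw [h3]
  rfl

/-- the alternating sums are combinations of the top components of the nodes -/
theorem alt_nodes [C23 F] {p : FA F} (hp : p ∈ Hg F (Finset.range 6).val) :
    ∃ C : ℕ → F, (∀ k, C k ≠ 0 → 47 ≤ k ∧ k < 63) ∧
      ∀ (A : Type u) [NonUnitalNonAssocRing A] [Module F A] [IsScalarTower F A A]
        [SMulCommClass F A A], IsMalcev A → ∀ x : ℕ → A,
        altS 4 x p = ∑ k ∈ range 63, C k • (W d6_D (vE x) k) univ := by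
  unfold Hg at hp
  induction hp using Submodule.span_induction with
  | mem p hp =>
    obtain ⟨w, hw, rfl⟩ := hp
    have hw' : content w = Multiset.range 6 := hw
    obtain ⟨c, c1, c2⟩ := word_span (F := F) w hw'.le
    refine ⟨fun k => (sgw (parE 4) w : F) * c k, fun k hk => ?_, fun A _ _ _ _ hA x => ?_⟩
    · have h1 : c k ≠ 0 := fun e => hk (by
        show (sgw (parE 4) w : F) * c k = 0
        rw [e, mul_zero])
      obtain ⟨h2, h3⟩ := c1 k h1
      have h4 : dc w = 276 := by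
        unfold dc
        rw [hw']
        decide +kernel
      exact ⟨top_of_code k h2 (h3.trans h4), h2⟩
    · rw [altS_word x w hw', c2 (GrA 4 A) (GrA.sm 4 idsM_ml (hA.algM 1 F)) (vE x) (vE_mem x)]
      have h5 : (∑ k ∈ range 63, c k • W d6_D (vE x) k) univ =
          ∑ k ∈ range 63, c k • (W d6_D (vE x) k) univ := by
        rw [GrA.sum_ap]
        rfl
      rw [h5, smul_sum]
      refine sum_congr rfl fun k _ => ?_
      rw [mul_smul, Int.cast_smul_eq_zsmul]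
  | zero =>
    refine ⟨fun _ => 0, fun k hk => absurd rfl hk, fun A _ _ _ _ hA x => ?_⟩
    unfold altS
    simp
  | add p q _ _ h1 h2 =>
    obtain ⟨c, c1, c2⟩ := h1
    obtain ⟨d, d1, d2⟩ := h2
    refine ⟨fun k => c k + d k, fun k hk => ?_, fun A _ _ _ _ hA x => ?_⟩
    · by_cases h : c k = 0
      · exact d1 k fun e => hk (by
          show c k + d k = 0
          rw [h, e, add_zero])
      · exact c1 k h
    · have h3 : altS 4 x (p + q) = altS 4 x p + altS 4 x q := by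
        unfold altS
        rw [← sum_add_distrib]
        refine sum_congr rfl fun σ _ => ?_
        rw [map_add, smul_add]
      rw [h3, c2 A hA x, d2 A hA x, ← sum_add_distrib]
      refine sum_congr rfl fun k _ => ?_
      rw [add_smul]
  | smul r p _ h1 =>
    obtain ⟨c, c1, c2⟩ := h1
    refine ⟨fun k => r * c k, fun k hk => c1 k fun e => hk (by
      show r * c k = 0
      rw [e, mul_zero]), fun A _ _ _ _ hA x => ?_⟩
    have h3 : altS 4 x (r • p) = r • altS 4 x p := by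
      unfold altS
      rw [smul_sum]
      refine sum_congr rfl fun σ _ => ?_
      rw [map_smul, smul_comm]
    rw [h3, c2 A hA x, smul_sum]
    refine sum_congr rfl fun k _ => ?_
    rw [mul_smul]

/-- the words of the nodes in the generators -/
def cws : List (FreeMagma ℕ) := [(.of 2),
  (.of 1),
  (.of 0),
  (.mul (.of 1) (.of 2)),
  (.mul (.of 0) (.of 2)),
  (.mul (.of 0) (.of 1)),
  (.mul (.of 0) (.of 0)),
  (.mul (.mul (.of 1) (.of 2)) (.of 0)),
  (.mul (.mul (.of 0) (.of 2)) (.of 1)),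
  (.mul (.mul (.of 0) (.of 1)) (.of 2)),
  (.mul (.mul (.of 0) (.of 2)) (.of 0)),
  (.mul (.mul (.of 0) (.of 0)) (.of 2)),
  (.mul (.mul (.of 0) (.of 1)) (.of 0)),
  (.mul (.mul (.of 0) (.of 0)) (.of 1)),
  (.mul (.mul (.of 0) (.of 0)) (.of 0)),
  (.mul (.mul (.mul (.of 1) (.of 2)) (.of 0)) (.of 0)),
  (.mul (.mul (.mul (.of 0) (.of 2)) (.of 1)) (.of 0)),
  (.mul (.mul (.mul (.of 0) (.of 1)) (.of 2)) (.of 0)),
  (.mul (.mul (.mul (.of 0) (.of 2)) (.of 0)) (.of 1)),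
  (.mul (.mul (.mul (.of 0) (.of 0)) (.of 2)) (.of 1)),
  (.mul (.mul (.mul (.of 0) (.of 1)) (.of 0)) (.of 2)),
  (.mul (.mul (.mul (.of 0) (.of 2)) (.of 0)) (.of 0)),
  (.mul (.mul (.mul (.of 0) (.of 0)) (.of 2)) (.of 0)),
  (.mul (.mul (.mul (.of 0) (.of 0)) (.of 0)) (.of 2)),
  (.mul (.mul (.mul (.of 0) (.of 1)) (.of 0)) (.of 0)),
  (.mul (.mul (.mul (.of 0) (.of 0)) (.of 1)) (.of 0)),
  (.mul (.mul (.mul (.of 0) (.of 0)) (.of 0)) (.of 1)),
  (.mul (.mul (.mul (.of 0) (.of 0)) (.of 0)) (.of 0)),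
  (.mul (.mul (.mul (.mul (.of 1) (.of 2)) (.of 0)) (.of 0)) (.of 0)),
  (.mul (.mul (.mul (.mul (.of 0) (.of 2)) (.of 1)) (.of 0)) (.of 0)),
  (.mul (.mul (.mul (.mul (.of 0) (.of 1)) (.of 2)) (.of 0)) (.of 0)),
  (.mul (.mul (.mul (.mul (.of 0) (.of 2)) (.of 0)) (.of 1)) (.of 0)),
  (.mul (.mul (.mul (.mul (.of 0) (.of 0)) (.of 2)) (.of 1)) (.of 0)),
  (.mul (.mul (.mul (.mul (.of 0) (.of 1)) (.of 0)) (.of 2)) (.of 0)),
  (.mul (.mul (.mul (.mul (.of 0) (.of 0)) (.of 2)) (.of 0)) (.of 1)),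
  (.mul (.mul (.mul (.mul (.of 0) (.of 0)) (.of 0)) (.of 2)) (.of 1)),
  (.mul (.mul (.mul (.mul (.of 0) (.of 0)) (.of 1)) (.of 0)) (.of 2)),
  (.mul (.mul (.mul (.of 1) (.of 2)) (.of 0)) (.mul (.of 0) (.of 0))),
  (.mul (.mul (.mul (.of 0) (.of 2)) (.of 0)) (.mul (.of 0) (.of 1))),
  (.mul (.mul (.mul (.mul (.of 0) (.of 2)) (.of 0)) (.of 0)) (.of 0)),
  (.mul (.mul (.mul (.mul (.of 0) (.of 0)) (.of 2)) (.of 0)) (.of 0)),
  (.mul (.mul (.mul (.mul (.of 0) (.of 0)) (.of 0)) (.of 2)) (.of 0)),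
  (.mul (.mul (.mul (.mul (.of 0) (.of 0)) (.of 0)) (.of 0)) (.of 2)),
  (.mul (.mul (.mul (.mul (.of 0) (.of 1)) (.of 0)) (.of 0)) (.of 0)),
  (.mul (.mul (.mul (.mul (.of 0) (.of 0)) (.of 1)) (.of 0)) (.of 0)),
  (.mul (.mul (.mul (.mul (.of 0) (.of 0)) (.of 0)) (.of 1)) (.of 0)),
  (.mul (.mul (.mul (.mul (.of 0) (.of 0)) (.of 0)) (.of 0)) (.of 1)),
  (.mul (.mul (.mul (.mul (.mul (.of 1) (.of 2)) (.of 0)) (.of 0)) (.of 0)) (.of 0)),
  (.mul (.mul (.mul (.mul (.mul (.of 0) (.of 2)) (.of 1)) (.of 0)) (.of 0)) (.of 0)),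
  (.mul (.mul (.mul (.mul (.mul (.of 0) (.of 1)) (.of 2)) (.of 0)) (.of 0)) (.of 0)),
  (.mul (.mul (.mul (.mul (.mul (.of 0) (.of 2)) (.of 0)) (.of 1)) (.of 0)) (.of 0)),
  (.mul (.mul (.mul (.mul (.mul (.of 0) (.of 0)) (.of 2)) (.of 1)) (.of 0)) (.of 0)),
  (.mul (.mul (.mul (.mul (.mul (.of 0) (.of 1)) (.of 0)) (.of 2)) (.of 0)) (.of 0)),
  (.mul (.mul (.mul (.mul (.mul (.of 0) (.of 0)) (.of 2)) (.of 0)) (.of 1)) (.of 0)),
  (.mul (.mul (.mul (.mul (.mul (.of 0) (.of 0)) (.of 0)) (.of 2)) (.of 1)) (.of 0)),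
  (.mul (.mul (.mul (.mul (.mul (.of 0) (.of 0)) (.of 1)) (.of 0)) (.of 2)) (.of 0)),
  (.mul (.mul (.mul (.mul (.of 1) (.of 2)) (.of 0)) (.mul (.of 0) (.of 0))) (.of 0)),
  (.mul (.mul (.mul (.mul (.mul (.of 0) (.of 0)) (.of 2)) (.of 0)) (.of 0)) (.of 1)),
  (.mul (.mul (.mul (.mul (.mul (.of 0) (.of 0)) (.of 1)) (.of 0)) (.of 0)) (.of 2)),
  (.mul (.mul (.mul (.mul (.mul (.of 0) (.of 0)) (.of 0)) (.of 1)) (.of 0)) (.of 2)),
  (.mul (.mul (.mul (.mul (.of 0) (.of 0)) (.of 2)) (.of 1)) (.mul (.of 0) (.of 0))),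
  (.mul (.mul (.mul (.mul (.of 0) (.of 2)) (.of 0)) (.of 0)) (.mul (.of 0) (.of 1))),
  (.mul (.mul (.mul (.mul (.of 0) (.of 0)) (.of 0)) (.of 2)) (.mul (.of 0) (.of 1)))]

def cw (k : ℕ) : FreeMagma ℕ := cws.getD k (.of 0)

/-- the words of the sixteen nodes of the top component in the letters `0, .., 5` -/
def nws : List (FreeMagma ℕ) := [(.mul (.mul (.mul (.mul (.mul (.of 4) (.of 5)) (.of 0)) (.of 1)) (.of 2)) (.of 3)),
  (.mul (.mul (.mul (.mul (.mul (.of 0) (.of 5)) (.of 4)) (.of 1)) (.of 2)) (.of 3)),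
  (.mul (.mul (.mul (.mul (.mul (.of 0) (.of 4)) (.of 5)) (.of 1)) (.of 2)) (.of 3)),
  (.mul (.mul (.mul (.mul (.mul (.of 0) (.of 5)) (.of 1)) (.of 4)) (.of 2)) (.of 3)),
  (.mul (.mul (.mul (.mul (.mul (.of 0) (.of 1)) (.of 5)) (.of 4)) (.of 2)) (.of 3)),
  (.mul (.mul (.mul (.mul (.mul (.of 0) (.of 4)) (.of 1)) (.of 5)) (.of 2)) (.of 3)),
  (.mul (.mul (.mul (.mul (.mul (.of 0) (.of 1)) (.of 5)) (.of 2)) (.of 4)) (.of 3)),
  (.mul (.mul (.mul (.mul (.mul (.of 0) (.of 1)) (.of 2)) (.of 5)) (.of 4)) (.of 3)),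
  (.mul (.mul (.mul (.mul (.mul (.of 0) (.of 1)) (.of 4)) (.of 2)) (.of 5)) (.of 3)),
  (.mul (.mul (.mul (.mul (.of 4) (.of 5)) (.of 0)) (.mul (.of 1) (.of 2))) (.of 3)),
  (.mul (.mul (.mul (.mul (.mul (.of 0) (.of 1)) (.of 5)) (.of 2)) (.of 3)) (.of 4)),
  (.mul (.mul (.mul (.mul (.mul (.of 0) (.of 1)) (.of 4)) (.of 2)) (.of 3)) (.of 5)),
  (.mul (.mul (.mul (.mul (.mul (.of 0) (.of 1)) (.of 2)) (.of 4)) (.of 3)) (.of 5)),
  (.mul (.mul (.mul (.mul (.of 0) (.of 1)) (.of 5)) (.of 4)) (.mul (.of 2) (.of 3))),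
  (.mul (.mul (.mul (.mul (.of 0) (.of 5)) (.of 1)) (.of 2)) (.mul (.of 3) (.of 4))),
  (.mul (.mul (.mul (.mul (.of 0) (.of 1)) (.of 2)) (.of 5)) (.mul (.of 3) (.of 4)))]

def nw (j : ℕ) : FreeMagma ℕ := nws.getD j (.of 0)

/-- renaming of the letters -/
def mapW (f : ℕ → ℕ) : FreeMagma ℕ → FreeMagma ℕ :=
  fun w => FreeMagma.rec (motive := fun _ => FreeMagma ℕ) (fun i => .of (f i)) (fun _ _ a b => .mul a b) w

theorem evw_mapW {S : Type u} [NonUnitalNonAssocRing S] (f : ℕ → ℕ) (v : ℕ → S) (w : FreeMagma ℕ) :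
    evw v (mapW f w) = evw (fun l => v (f l)) w := by
  induction w with
  | ih1 i => rfl
  | ih2 a b iha ihb =>
    show evw v (mapW f a) * evw v (mapW f b) = _ * _
    rw [iha, ihb]

theorem cw_ok : ∀ k < 63, (nc d6_D k % 2 = 1 → cw k = .of (nc d6_D k / 2)) ∧
    (nc d6_D k % 2 ≠ 1 → cw k = .mul (cw (nc d6_D k / 2 / 1024)) (cw (nc d6_D k / 2 % 1024))) := by
  decide +kernel

theorem nw_ok : ∀ j < 16, mapW cl6 (nw j) = cw (47 + j) ∧ content (nw j) = Multiset.range 6 ∧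
    sgw (parE 4) (nw j) = 1 := by
  decide +kernel

theorem W_cw {S : Type u} [NonUnitalNonAssocRing S] (v : ℕ → S) (k : ℕ) (hk : k < 63) :
    W d6_D v k = evw v (cw k) := by
  have hN := chkN_ok d6_D par1 d6_D.N d6_N
  have e63 : d6_D.N = 63 := by decide +kernel
  induction k using Nat.strong_induction_on with
  | _ k ih =>
    have hk' : k < d6_D.N := by rwa [e63]
    by_cases h : nc d6_D k % 2 = 1
    · rw [(cw_ok k hk).1 h, W_gen v k hk' (nc d6_D k / 2) (by omega)]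
      rfl
    · rcases hN k hk' with ⟨h1, _⟩ | ⟨_, h2, h3, _⟩
      · exact absurd h1 h
      · rw [(cw_ok k hk).2 h, W_prod v hN k hk' h, ih _ h2 (h2.trans hk), ih _ h3 (h3.trans hk)]
        rfl

theorem W_nw {A : Type u} [NonUnitalNonAssocRing A] [Module F A] [IsScalarTower F A A]
    [SMulCommClass F A A] (x : ℕ → A) (j : ℕ) (hj : j < 16) :
    (W d6_D (vE x) (47 + j)) univ = altS 4 x (wd (nw j) : FA F) := by
  obtain ⟨h1, h2, h3⟩ := nw_ok j hj
  rw [altS_word x (nw j) h2, h3, one_smul, W_cw _ _ (by omega), ← h1, evw_mapW]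

/-- The alternating sums over four letters of the elements of degree six are combinations of the
alternating sums of sixteen words, with coefficients which do not depend on the algebra. -/
theorem alt_words [C23 F] {p : FA F} (hp : p ∈ Hg F (Finset.range 6).val) :
    ∃ C : ℕ → F, ∀ (A : Type u) [NonUnitalNonAssocRing A] [Module F A] [IsScalarTower F A A]
      [SMulCommClass F A A], IsMalcev A → ∀ x : ℕ → A,
      altS 4 x p = ∑ j ∈ range 16, C j • altS 4 x (wd (nw j) : FA F) := by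
  obtain ⟨c, c1, c2⟩ := alt_nodes hp
  refine ⟨fun j => c (47 + j), fun A _ _ _ _ hA x => ?_⟩
  rw [c2 A hA x, show (63 : ℕ) = 47 + 16 from rfl, sum_range_add]
  have h1 : ∑ k ∈ range 47, c k • (W d6_D (vE x) k) univ = 0 := by
    refine sum_eq_zero fun k hk => ?_
    have h2 : c k = 0 := by
      by_contra h
      have h3 := (c1 k h).1
      rw [mem_range] at hk
      omega
    rw [h2, zero_smul]
  rw [h1, zero_add]
  refine sum_congr rfl fun j hj => ?_
  rw [W_nw (F := F) x j (mem_range.1 hj)]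

end

end Low

end Pool.Agent.MalP
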