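import Pool.Agent.MalP.Low.Tab
import Pool.Agent.MalP.Words

/-! # Every word is in the span of the nodes -/

set_option autoImplicit false
set_option maxRecDepth 100000

namespace Pool.Agent.MalP

universe u v

open Finset

namespace Low

open Chk

/-- codes of the degrees of the nodes -/
def dgs : List ℕ := [256, 16, 1, 272, 257, 17, 2, 273, 273, 273, 258, 258, 18, 18, 3, 274, 274, 274, 274,
  274, 274, 259, 259, 259, 19, 19, 19, 4, 275, 275, 275, 275, 275, 275, 275, 275, 275, 275, 275, 260, 260,
  260, 260, 20, 20, 20, 20, 276, 276, 276, 276, 276, 276, 276, 276, 276, 276, 276, 276, 276, 276, 276, 276]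

/-- code of the degree of the node `k` -/
def dg (k : ℕ) : ℕ := dgs.getD k 0

/-- the code is below the top code -/
def fits (c : ℕ) : Bool := Nat.ble (c % 16) 4 && Nat.ble (c / 16 % 16) 1 && Nat.ble (c / 256) 1

/-- all nodes of the sum have the degree `n` -/
noncomputable def svok (n : ℕ) (v : SV) : Bool :=
  SV.rec (motive := fun _ => Bool) true false
    (fun k _ _ ih => (Nat.blt k 63 && Nat.beq (dg k) n) && ih)
    (fun k _ _ ih => (Nat.blt k 63 && Nat.beq (dg k) n) && ih) v

/-- bound for the ranks -/
def R6 : ℕ := 1000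

noncomputable def cmpl : Bool :=
  (List.range 63).all fun i => (List.range 63).all fun j =>
    bi (fits (dg i + dg j)) (svok (dg i + dg j) (lk d6_D R6 i j)) true

theorem cmpl_true : cmpl = true := by
  decide +kernel

theorem cmpl_ok {i j : ℕ} (hi : i < 63) (hj : j < 63) (h : fits (dg i + dg j) = true) :
    svok (dg i + dg j) (lk d6_D R6 i j) = true := by
  have h1 := cmpl_true
  unfold cmpl at h1
  rw [List.all_eq_true] at h1
  have h2 := h1 i (List.mem_range.2 hi)
  rw [List.all_eq_true] at h2
  have h3 := h2 j (List.mem_range.2 hj)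
  rw [h] at h3
  exact h3

theorem svok_nobad {n : ℕ} {v : SV} (h : svok n v = true) : nobad v := by
  induction v with
  | z => exact trivial
  | bad => exact absurd h Bool.false_ne_true
  | p k m t ih => exact ih (Bool.and_elim_right (show (_ && svok n t) = true from h))
  | n k m t ih => exact ih (Bool.and_elim_right (show (_ && svok n t) = true from h))

section

variable {F : Type u} [Field F]

/-- coefficients of a sum -/
noncomputable def cfF (F : Type u) [Field F] (v : SV) (k : ℕ) : F :=
  SV.rec (motive := fun _ => F) 0 0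
    (fun k' m _ ih => (if k' = k then (m : F) else 0) + ih)
    (fun k' m _ ih => -(if k' = k then (m : F) else 0) + ih) v

theorem cfF_supp {n : ℕ} {v : SV} (h : svok n v = true) {k : ℕ} (hk : cfF F v k ≠ 0) :
    k < 63 ∧ dg k = n := by
  induction v with
  | z => exact absurd rfl hk
  | bad => exact absurd rfl hk
  | p k' m t ih =>
    have h1 : ((Nat.blt k' 63 && Nat.beq (dg k') n) && svok n t) = true := h
    rw [Bool.and_eq_true, Bool.and_eq_true, Nat.blt_eq, Nat.beq_eq] at h1
    have h2 : (if k' = k then (m : F) else 0) + cfF F t k ≠ 0 := hk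
    by_cases e : k' = k
    · subst e
      exact h1.1
    · rw [if_neg e, zero_add] at h2
      exact ih h1.2 h2
  | n k' m t ih =>
    have h1 : ((Nat.blt k' 63 && Nat.beq (dg k') n) && svok n t) = true := h
    rw [Bool.and_eq_true, Bool.and_eq_true, Nat.blt_eq, Nat.beq_eq] at h1
    have h2 : -(if k' = k then (m : F) else 0) + cfF F t k ≠ 0 := hk
    by_cases e : k' = k
    · subst e
      exact h1.1
    · rw [if_neg e, neg_zero, zero_add] at h2
      exact ih h1.2 h2

theorem svG_sum {S : Type v} [AddCommGroup S] [Module F S] (g : ℕ → S) {n : ℕ} {w : SV}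
    (h : svok n w = true) : svG g w = ∑ k ∈ range 63, cfF F w k • g k := by
  induction w with
  | z =>
    refine (Finset.sum_eq_zero fun k _ => ?_).symm
    show (0 : F) • g k = 0
    exact zero_smul _ _
  | bad => exact absurd h Bool.false_ne_true
  | p k' m t ih =>
    have h1 : ((Nat.blt k' 63 && Nat.beq (dg k') n) && svok n t) = true := h
    rw [Bool.and_eq_true, Bool.and_eq_true, Nat.blt_eq, Nat.beq_eq] at h1
    have e : ∀ k, cfF F (.p k' m t) k = (if k' = k then (m : F) else 0) + cfF F t k := fun _ => rfl
    have e2 : ∑ k ∈ range 63, (if k' = k then (m : F) else 0) • g k = m • g k' := by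
      rw [sum_eq_single k']
      · rw [if_pos rfl, Nat.cast_smul_eq_nsmul]
      · intro b _ hb
        rw [if_neg (Ne.symm hb), zero_smul]
      · intro hb
        exact absurd (mem_range.2 h1.1.1) hb
    show m • g k' + svG g t = _
    simp_rw [e, add_smul, sum_add_distrib]
    rw [ih h1.2, e2]
  | n k' m t ih =>
    have h1 : ((Nat.blt k' 63 && Nat.beq (dg k') n) && svok n t) = true := h
    rw [Bool.and_eq_true, Bool.and_eq_true, Nat.blt_eq, Nat.beq_eq] at h1
    have e : ∀ k, cfF F (.n k' m t) k = -(if k' = k then (m : F) else 0) + cfF F t k := fun _ => rfl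
    have e2 : ∑ k ∈ range 63, (-if k' = k then (m : F) else 0) • g k = -(m • g k') := by
      rw [sum_eq_single k']
      · rw [if_pos rfl, neg_smul, Nat.cast_smul_eq_nsmul]
      · intro b _ hb
        rw [if_neg (Ne.symm hb), neg_zero, zero_smul]
      · intro hb
        exact absurd (mem_range.2 h1.1.1) hb
    show -(m • g k') + svG g t = _
    simp_rw [e, add_smul, sum_add_distrib]
    rw [ih h1.2, e2]

/-- the code of a letter -/
def lc (l : ℕ) : ℕ := if l < 4 then 1 else if l = 4 then 16 else 256

/-- the code of a word -/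
def dc (u : FreeMagma ℕ) : ℕ := ((content u).map lc).sum

theorem dc_mul (a b : FreeMagma ℕ) : dc (a * b) = dc a + dc b := by
  unfold dc
  rw [show content (a * b) = content a + content b from rfl, Multiset.map_add, Multiset.sum_add]

theorem fits_all : ∀ s ∈ (Multiset.range 6).powerset, fits ((s.map lc).sum) = true := by
  decide +kernel

theorem fits_dc {u : FreeMagma ℕ} (h : content u ≤ Multiset.range 6) : fits (dc u) = true :=
  fits_all _ (Multiset.mem_powerset.2 h)

/-- the letters `0, .., 3` are the odd generator 0, `4` is the generator 1, the others 2 -/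
def cl6 (l : ℕ) : ℕ := if l < 4 then 0 else if l = 4 then 1 else 2

/-- nodes of the letters -/
def ln (l : ℕ) : ℕ := if l < 4 then 2 else if l = 4 then 1 else 0

theorem letters {S : Type v} [NonUnitalNonAssocRing S] (v : ℕ → S) (l : ℕ) :
    v (cl6 l) = W d6_D v (ln l) := by
  have h0 : nc d6_D 0 = 2 * 2 + 1 := by decide +kernel
  have h1 : nc d6_D 1 = 2 * 1 + 1 := by decide +kernel
  have h2 : nc d6_D 2 = 2 * 0 + 1 := by decide +kernel
  have hN : d6_D.N = 63 := by decide +kernel
  unfold cl6 ln
  split_ifs
  · exact (W_gen v 2 (by rw [hN]; norm_num) 0 h2).symm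
  · exact (W_gen v 1 (by rw [hN]; norm_num) 1 h1).symm
  · exact (W_gen v 0 (by rw [hN]; norm_num) 2 h0).symm

/-- Every word of content at most `{0,..,5}` is in the span of the nodes of its multidegree; the coefficients do
not depend on the superalgebra. -/
theorem word_span [C23 F] (u : FreeMagma ℕ) : content u ≤ Multiset.range 6 →
    ∃ c : ℕ → F, (∀ k, c k ≠ 0 → k < 63 ∧ dg k = dc u) ∧
      ∀ (S : Type v) [NonUnitalNonAssocRing S] [Module F S] [IsScalarTower F S S]
        [SMulCommClass F S S] (h : SM 1 idsM S) (v : ℕ → S), (∀ g, v g ∈ h.P (par1 g)) →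
        evw (fun l => v (cl6 l)) u = ∑ k ∈ range 63, c k • W d6_D v k := by
  induction u with
  | ih1 l =>
    intro hu
    have hl : l ∈ Multiset.range 6 := Multiset.singleton_le.1 hu
    rw [Multiset.mem_range] at hl
    refine ⟨fun k => if k = ln l then 1 else 0, fun k hk => ?_, fun S _ _ _ _ h v hv => ?_⟩
    · have hk' : k = ln l := by
        by_contra h
        exact hk (if_neg h)
      subst hk'
      have e : dc (FreeMagma.of l) = lc l := by
        unfold dc
        rw [show content (FreeMagma.of l) = {l} from rfl, Multiset.map_singleton,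
          Multiset.sum_singleton]
      rw [e]
      unfold ln lc
      split_ifs
      · exact ⟨by norm_num, rfl⟩
      · exact ⟨by norm_num, rfl⟩
      · exact ⟨by norm_num, rfl⟩
    · show v (cl6 l) = _
      rw [letters v l, sum_eq_single (ln l)]
      · show _ = (if ln l = ln l then (1 : F) else 0) • _
        rw [if_pos rfl, one_smul]
      · intro b _ hb
        show (if b = ln l then (1 : F) else 0) • _ = _
        rw [if_neg hb, zero_smul]
      · intro hb
        exfalso
        apply hb
        rw [mem_range]
        unfold ln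
        split_ifs <;> norm_num
  | ih2 a b iha ihb =>
    intro hu
    have hc : content (a * b) = content a + content b := rfl
    have ha : content a ≤ Multiset.range 6 := (Multiset.le_add_right _ _).trans (hc ▸ hu)
    have hb : content b ≤ Multiset.range 6 := (Multiset.le_add_left _ _).trans (hc ▸ hu)
    obtain ⟨ca, ca1, ca2⟩ := iha ha
    obtain ⟨cb, cb1, cb2⟩ := ihb hb
    have hfit : fits (dc a + dc b) = true := by
      rw [← dc_mul]
      exact fits_dc hu
    have hsc : d6_D.sc = 4 := by decide +kernel
    have h4 : (4 : F) ≠ 0 := C23.n4 F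
    have hlk : ∀ i j, ca i ≠ 0 → cb j ≠ 0 → svok (dc a + dc b) (lk d6_D R6 i j) = true := by
      intro i j hi hj
      have hi' := ca1 i hi
      have hj' := cb1 j hj
      have := cmpl_ok hi'.1 hj'.1 (by rw [hi'.2, hj'.2]; exact hfit)
      rwa [hi'.2, hj'.2] at this
    refine ⟨fun k => ∑ i ∈ range 63, ∑ j ∈ range 63, ca i * cb j * ((4 : F)⁻¹ * cfF F (lk d6_D R6 i j) k),
      fun k hk => ?_, fun S _ _ _ _ h v hv => ?_⟩
    · obtain ⟨i, _, hi⟩ := exists_ne_zero_of_sum_ne_zero hk
      obtain ⟨j, _, hj⟩ := exists_ne_zero_of_sum_ne_zero hi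
      have h1 : ca i ≠ 0 := fun e => hj (by rw [e]; ring)
      have h2 : cb j ≠ 0 := fun e => hj (by rw [e]; ring)
      have h3 : cfF F (lk d6_D R6 i j) k ≠ 0 := fun e => hj (by rw [e]; ring)
      rw [dc_mul]
      exact cfF_supp (hlk i j h1 h2) h3
    · have hN := chkN_ok d6_D par1 d6_D.N d6_N
      have hw : ∀ k, W d6_D v k ∈ h.P (pr d6_D k) := W_mem h v hv hN
      have hA : antiEx ∈ idsM := by simp [idsM]
      have hS : sagleEx ∈ idsM := by simp [idsM]
      have hV := VAL_all h hA hS hw (D := d6_D) (by decide +kernel) (by decide +kernel) v par1 hN rfl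
        d6_T R6
      show evw (fun l => v (cl6 l)) a * evw (fun l => v (cl6 l)) b = _
      have key : ∀ i j, (ca i • W d6_D v i) * (cb j • W d6_D v j) = ∑ k ∈ range 63,
          (ca i * cb j * ((4 : F)⁻¹ * cfF F (lk d6_D R6 i j) k)) • W d6_D v k := by
        intro i j
        by_cases hi : ca i = 0
        · simp [hi]
        by_cases hj : cb j = 0
        · simp [hj]
        have h5 := hlk i j hi hj
        have h6 := lk_ok h hA hw hV i j (svok_nobad h5)
        rw [svG_sum (F := F) _ h5, hsc, ← Nat.cast_smul_eq_nsmul F] at h6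
        have h7 : W d6_D v i * W d6_D v j = (4 : F)⁻¹ • ∑ k ∈ range 63,
            cfF F (lk d6_D R6 i j) k • W d6_D v k := by
          rw [← h6, smul_smul, Nat.cast_ofNat, inv_mul_cancel₀ h4, one_smul]
        rw [smul_mul_assoc, mul_smul_comm, h7, smul_smul, smul_smul, smul_sum]
        refine sum_congr rfl fun k _ => ?_
        rw [smul_smul, mul_assoc (ca i * cb j)]
      rw [ca2 S h v hv, cb2 S h v hv, sum_mul_sum]
      simp_rw [key, sum_smul]
      symm
      rw [sum_comm]
      refine sum_congr rfl fun i _ => ?_
      rw [sum_comm]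

end

end Low

end Pool.Agent.MalP
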