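import Pool.Agent.MalP.Low.Alt
import Pool.Agent.MalP.Check3

/-! # The component with four equal odd letters and one even letter of the free Malcev superalgebra -/

set_option autoImplicit false
set_option linter.unusedSimpArgs false
set_option linter.unusedSectionVars false

namespace Pool.Agent.MalP

universe u

open Finset Equiv

namespace SpE

open Chk

variable {F : Type u} [Field F] [C23 F] {A : Type u} [NonUnitalNonAssocRing A] [Module F A]
  [IsScalarTower F A A] [SMulCommClass F A A] {k : ℕ}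

theorem hids : ∀ e ∈ [antiEx, sagleEx], e.ml = true := by decide

/-- the elements of parity `b` as a subspace -/
def PS (F : Type u) [Field F] (A : Type u) [NonUnitalNonAssocRing A] [Module F A] (k : ℕ) (b : Bool) :
    Submodule F (GrA k A) where
  carrier := {f | f ∈ GrA.P k A b}
  zero_mem' := (GrA.P k A b).zero_mem
  add_mem' := fun {f g} hf hg => (GrA.P k A b).add_mem hf hg
  smul_mem' := fun r f hf U hU => by
    rw [GrA.smul_ap, hf U hU, smul_zero]

section AC

variable (F) (hA : IsMalcev A)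

include F hA

omit [IsScalarTower F A A] [SMulCommClass F A A] in
theorem ac (pa pb : Bool) (a b : GrA k A) (ha : a ∈ PS F A k pa) (hb : b ∈ PS F A k pb) :
    a * b = - (sg (and pa pb) • (b * a)) := by
  have h1 := (GrA.sm k hids (hA.alg 1 F)).ids antiEx (by simp) (four pa pb pa pb) (four a b a b)
    (fun l => by
      rcases l with _ | _ | _ | l
      · exact ha
      · exact hb
      · exact ha
      · exact hb)
  simp only [antiEx, PEx.sev, PEx.lts, linv, oinv, four0, four1] at h1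
  cases pa <;> cases pb <;> simp [Pool.Agent.MalP.sg, Nat.blt, Nat.ble] at h1 ⊢
  · exact eq_neg_of_add_eq_zero_left h1
  · exact eq_neg_of_add_eq_zero_left h1
  · exact eq_neg_of_add_eq_zero_left h1
  · have h2 := eq_neg_of_add_eq_zero_left h1
    rw [h2, neg_neg]

omit [IsScalarTower F A A] [SMulCommClass F A A] in
theorem acff (a b : GrA k A) (ha : a ∈ PS F A k false) (hb : b ∈ PS F A k false) :
    a * b = - (b * a) := by
  rw [ac F hA false false a b ha hb]
  simp [Pool.Agent.MalP.sg]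

omit [IsScalarTower F A A] [SMulCommClass F A A] in
theorem acft (a b : GrA k A) (ha : a ∈ PS F A k false) (hb : b ∈ PS F A k true) :
    a * b = - (b * a) := by
  rw [ac F hA false true a b ha hb]
  simp [Pool.Agent.MalP.sg]

omit [IsScalarTower F A A] [SMulCommClass F A A] in
theorem actf (a b : GrA k A) (ha : a ∈ PS F A k true) (hb : b ∈ PS F A k false) :
    a * b = - (b * a) := by
  rw [ac F hA true false a b ha hb]
  simp [Pool.Agent.MalP.sg]

omit [IsScalarTower F A A] [SMulCommClass F A A] in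
theorem actt (a b : GrA k A) (ha : a ∈ PS F A k true) (hb : b ∈ PS F A k true) :
    a * b = b * a := by
  rw [ac F hA true true a b ha hb]
  simp [Pool.Agent.MalP.sg]

omit [IsScalarTower F A A] [SMulCommClass F A A] in
/-- the super form of Sagle's identity -/
theorem sag (pa pb pc pd : Bool) (a b c d : GrA k A) (ha : a ∈ PS F A k pa)
    (hb : b ∈ PS F A k pb) (hc : c ∈ PS F A k pc) (hd : d ∈ PS F A k pd) :
    Pool.Agent.MalP.sg (and pb pc) • ((a * c) * (b * d)) +
    (Pool.Agent.MalP.sg true • (((a * b) * c) * d) +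
    (Pool.Agent.MalP.sg (not (and pa (xor pb (xor pc pd)))) • (((b * c) * d) * a) +
    (Pool.Agent.MalP.sg (not (and (xor pa pb) (xor pc pd))) • (((c * d) * a) * b) +
    Pool.Agent.MalP.sg (not (and pd (xor pa (xor pb pc)))) • (((d * a) * b) * c)))) = 0 :=
  sagle_sm (GrA.sm k hids (hA.alg 1 F)) (by simp) pa pb pc pd a b c d ha hb hc hd

end AC

omit [C23 F] [IsScalarTower F A A] [SMulCommClass F A A] in
theorem mulP (pa pb : Bool) {a b : GrA k A} (ha : a ∈ PS F A k pa) (hb : b ∈ PS F A k pb) :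
    a * b ∈ PS F A k (xor pa pb) := GrA.mul_mem pa pb a b ha hb

section Rel

variable (F) (hA : IsMalcev A) (ξ η : GrA k A) (hξ : ξ ∈ PS F A k true) (hη : η ∈ PS F A k false)

include F hA hξ hη

/-- the products in the components of degree at most 5 -/
theorem rels : (ξ * ξ) * (ξ * ξ) = 0 ∧
    (η * ξ) * (ξ * ξ) = - (η * (ξ * (ξ * ξ))) - ξ * (η * (ξ * ξ)) ∧
    (η * ξ) * (ξ * (ξ * ξ)) = - (η * (ξ * (ξ * (ξ * ξ)))) - ξ * (η * (ξ * (ξ * ξ))) ∧
    (ξ * ξ) * (η * (ξ * ξ)) = (2 : F) • (ξ * (η * (ξ * (ξ * ξ)))) + (2 : F) • (ξ * (ξ * (η * (ξ * ξ)))) ∧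
    (ξ * ξ) * (ξ * (η * ξ)) = ξ * (ξ * (η * (ξ * ξ))) - η * (ξ * (ξ * (ξ * ξ))) := by
  have two : ∀ x : GrA k A, (2 : F) • x = 0 → x = 0 := fun x hx =>
    (smul_eq_zero.1 hx).resolve_left C23.two
  set e := ξ * ξ with he
  set b := η * ξ with hb
  set t := ξ * e with ht
  set a1 := η * e with ha1
  set a2 := ξ * b with ha2
  set q := ξ * t with hq
  set c1 := η * t with hc1
  set c2 := ξ * a1 with hc2
  have pe : e ∈ PS F A k false := mulP true true hξ hξ
  have pb : b ∈ PS F A k true := mulP false true hη hξ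
  have pt : t ∈ PS F A k true := mulP true false hξ pe
  have pa1 : a1 ∈ PS F A k false := mulP false false hη pe
  have pa2 : a2 ∈ PS F A k false := mulP true true hξ pb
  have pq : q ∈ PS F A k false := mulP true true hξ pt
  have pc1 : c1 ∈ PS F A k true := mulP false true hη pt
  have pc2 : c2 ∈ PS F A k true := mulP true false hξ pa1
  have h1 : ξ * η = -b := actf F hA ξ η hξ hη
  have h2 : e * ξ = -t := acft F hA e ξ pe hξ
  have h3 : e * η = -a1 := acff F hA e η pe hη
  have h4 : b * ξ = a2 := actt F hA b ξ pb hξ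
  have h5 : t * ξ = q := actt F hA t ξ pt hξ
  have h6 : t * η = -c1 := actf F hA t η pt hη
  have h7 : a1 * ξ = -c2 := acft F hA a1 ξ pa1 hξ
  have h8 : a2 * ξ = -(ξ * a2) := acft F hA a2 ξ pa2 hξ
  have h9 : q * η = -(η * q) := acff F hA q η pq hη
  have h10 : c1 * ξ = ξ * c1 := actt F hA c1 ξ pc1 hξ
  have h11 : c2 * ξ = ξ * c2 := actt F hA c2 ξ pc2 hξ
  have h12 : t * b = b * t := actt F hA t b pt pb
  have h13 : a1 * e = -(e * a1) := acff F hA a1 e pa1 pe
  have h14 : a2 * e = -(e * a2) := acff F hA a2 e pa2 pe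
  have h15 : e * b = -(b * e) := acft F hA e b pe pb
  have h16 : e * t = -(t * e) := acft F hA e t pe pt
  have ree : e * e = 0 := by
    apply two
    have h := acff F hA e e pe pe
    rw [two_smul]
    nth_rw 1 [h]
    rw [neg_add_cancel]
  have s0 := sag F hA false true true true η ξ ξ ξ hη hξ hξ hξ
  have r31 : b * e = - c1 - c2 := by
    simp only [Pool.Agent.MalP.sg, Bool.and_true, Bool.true_and, Bool.and_false, Bool.false_and,
      Bool.xor_false, Bool.xor_true, Bool.false_xor, Bool.true_xor, Bool.not_true, Bool.not_false,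
      ← he, ← hb, h1, h2, h3, h4, neg_mul, mul_neg, h6, h7, one_smul, neg_smul, neg_neg] at s0
    linear_combination (norm := module) -s0
  have s1 := sag F hA false true true false η ξ ξ e hη hξ hξ pe
  have s2 := sag F hA false true false true η ξ e ξ hη hξ pe hξ
  have s3 := sag F hA false false true true η e ξ ξ hη pe hξ hξ
  simp only [Pool.Agent.MalP.sg, Bool.and_true, Bool.true_and, Bool.and_false, Bool.false_and,
    Bool.xor_false, Bool.xor_true, Bool.false_xor, Bool.true_xor, Bool.not_true, Bool.not_false,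
    ← he, ← hb, ← ha1, ← ht, h1, h2, h3, h4, h5, h6, h7, h8, h9, h10, h11, h12, h13, h14, h15, h16, ree,
    r31, neg_mul, mul_neg, sub_mul, mul_sub, zero_mul, mul_zero, one_smul, neg_smul, neg_neg] at s1 s2 s3
  have r1 : b * t = - (η * q) - ξ * c1 := by
    rw [← sub_eq_zero]
    apply two
    linear_combination (norm := module) -s1 + s2 - s3
  have r3 : e * a2 = ξ * c2 - η * q := by
    linear_combination (norm := module) s1 + r1
  refine ⟨ree, r31, r1, ?_, r3⟩
  linear_combination (norm := module) -s2 + r3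

end Rel

/-- products of two subspaces -/
def Cl (X Y Z : Submodule F (GrA k A)) : Prop := ∀ x ∈ X, ∀ y ∈ Y, x * y ∈ Z

theorem Cl.botl (Y Z : Submodule F (GrA k A)) : Cl ⊥ Y Z := by
  intro x hx y _
  rw [(Submodule.mem_bot F).1 hx, zero_mul]
  exact Z.zero_mem

theorem Cl.botr (X Z : Submodule F (GrA k A)) : Cl X ⊥ Z := by
  intro x _ y hy
  rw [(Submodule.mem_bot F).1 hy, mul_zero]
  exact Z.zero_mem

theorem cl_span {s t : Set (GrA k A)} {Z : Submodule F (GrA k A)}
    (h : ∀ x ∈ s, ∀ y ∈ t, x * y ∈ Z) : Cl (Submodule.span F s) (Submodule.span F t) Z := by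
  intro x hx y hy
  induction hx using Submodule.span_induction with
  | mem x hx =>
    induction hy using Submodule.span_induction with
    | mem y hy => exact h x hx y hy
    | zero => rw [mul_zero]; exact Z.zero_mem
    | add y z _ _ h1 h2 => rw [mul_add]; exact Z.add_mem h1 h2
    | smul c y _ h1 => rw [mul_smul_comm]; exact Z.smul_mem _ h1
  | zero => rw [zero_mul]; exact Z.zero_mem
  | add x z _ _ h1 h2 => rw [add_mul]; exact Z.add_mem h1 h2
  | smul c x _ h1 => rw [smul_mul_assoc]; exact Z.smul_mem _ h1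

theorem Cl.swap (hA : IsMalcev A) {X Y Z : Submodule F (GrA k A)} (pa pb : Bool)
    (hX : X ≤ PS F A k pa) (hY : Y ≤ PS F A k pb) (h : Cl X Y Z) : Cl Y X Z := by
  intro y hy x hx
  rw [ac F hA pb pa y x (hY hy) (hX hx)]
  have h1 := h x hx y hy
  cases pa <;> cases pb <;> simp [Pool.Agent.MalP.sg] <;> exact h1

/-- the components -/
def W (F : Type u) [Field F] {A : Type u} [NonUnitalNonAssocRing A] [Module F A] {k : ℕ}
    (ξ η : GrA k A) : ℕ → ℕ → Submodule F (GrA k A)
  | 0, 0 => ⊥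
  | 1, 0 => Submodule.span F {ξ}
  | 0, 1 => Submodule.span F {η}
  | 2, 0 => Submodule.span F {ξ * ξ}
  | 1, 1 => Submodule.span F {η * ξ}
  | 3, 0 => Submodule.span F {ξ * (ξ * ξ)}
  | 2, 1 => Submodule.span F {η * (ξ * ξ), ξ * (η * ξ)}
  | 4, 0 => Submodule.span F {ξ * (ξ * (ξ * ξ))}
  | 3, 1 => Submodule.span F {η * (ξ * (ξ * ξ)), ξ * (η * (ξ * ξ)), ξ * (ξ * (η * ξ))}
  | 4, 1 => Submodule.span F {η * (ξ * (ξ * (ξ * ξ))), ξ * (η * (ξ * (ξ * ξ))),
      ξ * (ξ * (η * (ξ * ξ))), ξ * (ξ * (ξ * (η * ξ)))}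
  | _, _ => ⊤

theorem W_par (ξ η : GrA k A) (hξ : ξ ∈ PS F A k true) (hη : η ∈ PS F A k false) (a b : ℕ)
    (ha : a ≤ 4) (hb : b ≤ 1) : W F ξ η a b ≤ PS F A k (Nat.bodd a) := by
  have pe : ξ * ξ ∈ PS F A k false := mulP true true hξ hξ
  have pb : η * ξ ∈ PS F A k true := mulP false true hη hξ
  have pt : ξ * (ξ * ξ) ∈ PS F A k true := mulP true false hξ pe
  have pa1 : η * (ξ * ξ) ∈ PS F A k false := mulP false false hη pe
  have pa2 : ξ * (η * ξ) ∈ PS F A k false := mulP true true hξ pb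
  have pq : ξ * (ξ * (ξ * ξ)) ∈ PS F A k false := mulP true true hξ pt
  have pc1 : η * (ξ * (ξ * ξ)) ∈ PS F A k true := mulP false true hη pt
  have pc2 : ξ * (η * (ξ * ξ)) ∈ PS F A k true := mulP true false hξ pa1
  have pc3 : ξ * (ξ * (η * ξ)) ∈ PS F A k true := mulP true false hξ pa2
  have pd1 : η * (ξ * (ξ * (ξ * ξ))) ∈ PS F A k false := mulP false false hη pq
  have pd2 : ξ * (η * (ξ * (ξ * ξ))) ∈ PS F A k false := mulP true true hξ pc1
  have pd3 : ξ * (ξ * (η * (ξ * ξ))) ∈ PS F A k false := mulP true true hξ pc2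
  have pd4 : ξ * (ξ * (ξ * (η * ξ))) ∈ PS F A k false := mulP true true hξ pc3
  interval_cases a <;> interval_cases b
  · exact bot_le
  · refine Submodule.span_le.2 ?_
    rintro _ rfl
    exact hη
  · refine Submodule.span_le.2 ?_
    rintro _ rfl
    exact hξ
  · refine Submodule.span_le.2 ?_
    rintro _ rfl
    exact pb
  · refine Submodule.span_le.2 ?_
    rintro _ rfl
    exact pe
  · refine Submodule.span_le.2 ?_
    rintro _ (rfl | rfl)
    · exact pa1
    · exact pa2
  · refine Submodule.span_le.2 ?_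
    rintro _ rfl
    exact pt
  · refine Submodule.span_le.2 ?_
    rintro _ (rfl | rfl | rfl)
    · exact pc1
    · exact pc2
    · exact pc3
  · refine Submodule.span_le.2 ?_
    rintro _ rfl
    exact pq
  · refine Submodule.span_le.2 ?_
    rintro _ (rfl | rfl | rfl | rfl)
    · exact pd1
    · exact pd2
    · exact pd3
    · exact pd4

theorem sp {Z : Submodule F (GrA k A)} {s : Set (GrA k A)} (hZ : Z = Submodule.span F s) {x : GrA k A}
    (hx : x ∈ s) : x ∈ Z := hZ ▸ Submodule.subset_span hx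

/-- the products computed directly -/
def tab : List (ℕ × ℕ × ℕ × ℕ) := [(1, 0, 1, 0), (0, 1, 1, 0), (1, 0, 2, 0), (0, 1, 2, 0),
  (1, 0, 1, 1), (1, 0, 3, 0), (2, 0, 2, 0), (0, 1, 3, 0), (1, 0, 2, 1), (1, 1, 2, 0),
  (0, 1, 4, 0), (1, 0, 3, 1), (1, 1, 3, 0), (2, 0, 2, 1)]

theorem tab_fin : ∀ a : Fin 5, ∀ b : Fin 2, ∀ c : Fin 5, ∀ d : Fin 2,
    a.val + c.val ≤ 4 → b.val + d.val ≤ 1 →
    (a.val = 0 ∧ b.val = 0) ∨ (c.val = 0 ∧ d.val = 0) ∨ (a.val, b.val, c.val, d.val) ∈ tab ∨
      (c.val, d.val, a.val, b.val) ∈ tab := by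
  decide

theorem tab_all (a b c d : ℕ) (ha : a + c ≤ 4) (hb : b + d ≤ 1) :
    (a = 0 ∧ b = 0) ∨ (c = 0 ∧ d = 0) ∨ (a, b, c, d) ∈ tab ∨ (c, d, a, b) ∈ tab :=
  tab_fin ⟨a, by omega⟩ ⟨b, by omega⟩ ⟨c, by omega⟩ ⟨d, by omega⟩ ha hb

theorem W_tab (hA : IsMalcev A) (ξ η : GrA k A) (hξ : ξ ∈ PS F A k true)
    (hη : η ∈ PS F A k false) : ∀ q ∈ tab, Cl (W F ξ η q.1 q.2.1) (W F ξ η q.2.2.1 q.2.2.2)
      (W F ξ η (q.1 + q.2.2.1) (q.2.1 + q.2.2.2)) := by
  obtain ⟨r0, r1, r2, r3, r4⟩ := rels F hA ξ η hξ hη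
  simp only [tab, List.forall_mem_cons, List.not_mem_nil, false_imp_iff, implies_true, and_true]
  refine ⟨?_, ?_, ?_, ?_, ?_, ?_, ?_, ?_, ?_, ?_, ?_, ?_, ?_, ?_⟩
  · refine cl_span ?_
    rintro _ rfl _ rfl
    exact Submodule.subset_span rfl
  · refine cl_span ?_
    rintro _ rfl _ rfl
    exact Submodule.subset_span rfl
  · refine cl_span ?_
    rintro _ rfl _ rfl
    exact Submodule.subset_span rfl
  · refine cl_span ?_
    rintro _ rfl _ rfl
    exact Submodule.subset_span (Or.inl rfl)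
  · refine cl_span ?_
    rintro _ rfl _ rfl
    exact Submodule.subset_span (Or.inr rfl)
  · refine cl_span ?_
    rintro _ rfl _ rfl
    exact Submodule.subset_span rfl
  · refine cl_span ?_
    rintro _ rfl _ rfl
    rw [r0]
    exact Submodule.zero_mem _
  · refine cl_span ?_
    rintro _ rfl _ rfl
    exact Submodule.subset_span (Or.inl rfl)
  · refine cl_span ?_
    rintro _ rfl _ (rfl | rfl)
    · exact Submodule.subset_span (Or.inr (Or.inl rfl))
    · exact Submodule.subset_span (Or.inr (Or.inr rfl))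
  · refine cl_span ?_
    rintro _ rfl _ rfl
    rw [r1]
    refine Submodule.sub_mem _ (Submodule.neg_mem _ ?_) ?_
    · exact Submodule.subset_span (Or.inl rfl)
    · exact Submodule.subset_span (Or.inr (Or.inl rfl))
  · refine cl_span ?_
    rintro _ rfl _ rfl
    exact Submodule.subset_span (Or.inl rfl)
  · refine cl_span ?_
    rintro _ rfl _ (rfl | rfl | rfl)
    · exact Submodule.subset_span (Or.inr (Or.inl rfl))
    · exact Submodule.subset_span (Or.inr (Or.inr (Or.inl rfl)))
    · exact Submodule.subset_span (Or.inr (Or.inr (Or.inr rfl)))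
  · refine cl_span ?_
    rintro _ rfl _ rfl
    rw [r2]
    refine Submodule.sub_mem _ (Submodule.neg_mem _ ?_) ?_
    · exact Submodule.subset_span (Or.inl rfl)
    · exact Submodule.subset_span (Or.inr (Or.inl rfl))
  · refine cl_span ?_
    rintro _ rfl _ (rfl | rfl)
    · rw [r3]
      refine Submodule.add_mem _ (Submodule.smul_mem _ _ ?_) (Submodule.smul_mem _ _ ?_)
      · exact Submodule.subset_span (Or.inr (Or.inl rfl))
      · exact Submodule.subset_span (Or.inr (Or.inr (Or.inl rfl)))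
    · rw [r4]
      refine Submodule.sub_mem _ ?_ ?_
      · exact Submodule.subset_span (Or.inr (Or.inr (Or.inl rfl)))
      · exact Submodule.subset_span (Or.inl rfl)

theorem W_mul (hA : IsMalcev A) (ξ η : GrA k A) (hξ : ξ ∈ PS F A k true) (hη : η ∈ PS F A k false)
    (a b c d : ℕ) (ha : a + c ≤ 4) (hb : b + d ≤ 1) :
    Cl (W F ξ η a b) (W F ξ η c d) (W F ξ η (a + c) (b + d)) := by
  rcases tab_all a b c d ha hb with
    ⟨rfl, rfl⟩ | ⟨rfl, rfl⟩ | h | h
  · exact Cl.botl _ _
  · exact Cl.botr _ _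
  · exact W_tab hA ξ η hξ hη _ h
  · rw [Nat.add_comm a c, Nat.add_comm b d]
    exact Cl.swap hA (Nat.bodd c) (Nat.bodd a) (W_par ξ η hξ hη c d (by omega) (by omega))
      (W_par ξ η hξ hη a b (by omega) (by omega)) (W_tab hA ξ η hξ hη _ h)

end SpE

end Pool.Agent.MalP
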