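import Pool.Agent.MalP.Check4

/-! # The multiplication table of the free Malcev superalgebra up to the component with four odd letters `x` and
the even letters `b`, `c` -/

set_option autoImplicit false
set_option maxRecDepth 100000

namespace Pool.Agent.MalP

namespace Chk

noncomputable def d6_c274 : Cm := .mk (nat_lit 12) (nat_lit 274) (nat_lit 15) (nat_lit 6) (.c (nat_lit 5) (nat_lit 1) (nat_lit 4) (nat_lit 1) (nat_lit 6) (.c (nat_lit 6) (nat_lit 1) (nat_lit 3) (nat_lit 1) (nat_lit 7) (.c (nat_lit 7) (nat_lit 3) (nat_lit 2) (nat_lit 1) (nat_lit 8) (.c (nat_lit 10) (nat_lit 2) (nat_lit 1) (nat_lit 1) (nat_lit 11) (.c (nat_lit 12) (nat_lit 2) (nat_lit 0) (nat_lit 1) (nat_lit 13) .nil)))))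

noncomputable def d6_c259 : Cm := .mk (nat_lit 21) (nat_lit 259) (nat_lit 21) (nat_lit 3) (.c (nat_lit 6) (nat_lit 1) (nat_lit 4) (nat_lit 1) (nat_lit 3) (.c (nat_lit 10) (nat_lit 2) (nat_lit 2) (nat_lit 1) (nat_lit 4) (.c (nat_lit 14) (nat_lit 1) (nat_lit 0) (nat_lit 1) (nat_lit 6) .nil)))

noncomputable def d6_c19 : Cm := .mk (nat_lit 25) (nat_lit 19) (nat_lit 24) (nat_lit 3) (.c (nat_lit 6) (nat_lit 1) (nat_lit 5) (nat_lit 1) (nat_lit 3) (.c (nat_lit 12) (nat_lit 2) (nat_lit 2) (nat_lit 1) (nat_lit 4) (.c (nat_lit 14) (nat_lit 1) (nat_lit 1) (nat_lit 1) (nat_lit 6) .nil)))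

noncomputable def d6_c275 : Cm := .mk (nat_lit 30) (nat_lit 275) (nat_lit 28) (nat_lit 11) (.c (nat_lit 7) (nat_lit 3) (nat_lit 6) (nat_lit 1) (nat_lit 11) (.c (nat_lit 10) (nat_lit 2) (nat_lit 5) (nat_lit 1) (nat_lit 14) (.c (nat_lit 12) (nat_lit 2) (nat_lit 4) (nat_lit 1) (nat_lit 16) (.c (nat_lit 14) (nat_lit 1) (nat_lit 3) (nat_lit 1) (nat_lit 18) (.c (nat_lit 15) (nat_lit 6) (nat_lit 2) (nat_lit 1) (nat_lit 19) (.c (nat_lit 21) (nat_lit 3) (nat_lit 1) (nat_lit 1) (nat_lit 25) (.c (nat_lit 24) (nat_lit 3) (nat_lit 0) (nat_lit 1) (nat_lit 28) .nil)))))))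

noncomputable def d6_c260 : Cm := .mk (nat_lit 50) (nat_lit 260) (nat_lit 39) (nat_lit 4) (.c (nat_lit 10) (nat_lit 2) (nat_lit 6) (nat_lit 1) (nat_lit 4) (.c (nat_lit 14) (nat_lit 1) (nat_lit 4) (nat_lit 1) (nat_lit 6) (.c (nat_lit 21) (nat_lit 3) (nat_lit 2) (nat_lit 1) (nat_lit 7) (.c (nat_lit 27) (nat_lit 1) (nat_lit 0) (nat_lit 1) (nat_lit 10) .nil))))

noncomputable def d6_c20 : Cm := .mk (nat_lit 57) (nat_lit 20) (nat_lit 43) (nat_lit 4) (.c (nat_lit 12) (nat_lit 2) (nat_lit 6) (nat_lit 1) (nat_lit 4) (.c (nat_lit 14) (nat_lit 1) (nat_lit 5) (nat_lit 1) (nat_lit 6) (.c (nat_lit 24) (nat_lit 3) (nat_lit 2) (nat_lit 1) (nat_lit 7) (.c (nat_lit 27) (nat_lit 1) (nat_lit 1) (nat_lit 1) (nat_lit 10) .nil))))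

noncomputable def d6_c276 : Cm := .mk (nat_lit 64) (nat_lit 276) (nat_lit 47) (nat_lit 16) (.c (nat_lit 12) (nat_lit 2) (nat_lit 10) (nat_lit 2) (nat_lit 16) (.c (nat_lit 14) (nat_lit 1) (nat_lit 7) (nat_lit 3) (nat_lit 20) (.c (nat_lit 15) (nat_lit 6) (nat_lit 6) (nat_lit 1) (nat_lit 23) (.c (nat_lit 21) (nat_lit 3) (nat_lit 5) (nat_lit 1) (nat_lit 29) (.c (nat_lit 24) (nat_lit 3) (nat_lit 4) (nat_lit 1) (nat_lit 32) (.c (nat_lit 27) (nat_lit 1) (nat_lit 3) (nat_lit 1) (nat_lit 35) (.c (nat_lit 28) (nat_lit 11) (nat_lit 2) (nat_lit 1) (nat_lit 36) (.c (nat_lit 39) (nat_lit 4) (nat_lit 1) (nat_lit 1) (nat_lit 47) (.c (nat_lit 43) (nat_lit 4) (nat_lit 0) (nat_lit 1) (nat_lit 51) .nil)))))))))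

noncomputable def d6_t0 : Tr := (.nd (.nd (.nd (.nd (.nd (.nd (.nd .leaf (nat_lit 1024) (nat_lit 0) (.p (nat_lit 3) (nat_lit 4) .z) .df .leaf) (nat_lit 2048) (nat_lit 1) (.p (nat_lit 4) (nat_lit 4) .z) .df (.nd .leaf (nat_lit 2049) (nat_lit 2) (.p (nat_lit 5) (nat_lit 4) .z) .df .leaf)) (nat_lit 2050) (nat_lit 3) (.p (nat_lit 6) (nat_lit 4) .z) .df (.nd (.nd .leaf (nat_lit 3074) (nat_lit 4) (.p (nat_lit 7) (nat_lit 4) .z) .df .leaf) (nat_lit 4097) (nat_lit 5) (.p (nat_lit 8) (nat_lit 4) .z) .df .leaf)) (nat_lit 4098) (nat_lit 7) (.p (nat_lit 10) (nat_lit 4) .z) .df (.nd (.nd (.nd .leaf (nat_lit 5120) (nat_lit 6) (.p (nat_lit 9) (nat_lit 4) .z) .df .leaf) (nat_lit 5122) (nat_lit 9) (.p (nat_lit 12) (nat_lit 4) .z) .df .leaf) (nat_lit 5124) (nat_lit 18) (.n (nat_lit 15) (nat_lit 4) (.n (nat_lit 16) (nat_lit 4) (.p (nat_lit 19) (nat_lit 4) (.n (nat_lit 20) (nat_lit 4) .z)))) (.ct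 d6_c274 (nat_lit 4) (nat_lit 0) (.s true (nat_lit 1) (nat_lit 2) (nat_lit 0) (nat_lit 1) (nat_lit 2) true (nat_lit 0) true (nat_lit 2) true (nat_lit 2) true (nat_lit 4) true (nat_lit 3) (.e true (nat_lit 4) (nat_lit 8) (nat_lit 2) (nat_lit 2) (.e true (nat_lit 4) (nat_lit 7) (nat_lit 2) (nat_lit 2) (.e true (nat_lit 4) (nat_lit 12) (nat_lit 0) (nat_lit 4) (.e false (nat_lit 4) (nat_lit 11) (nat_lit 1) (nat_lit 3) .nil)))))) (.nd (.nd .leaf (nat_lit 6144) (nat_lit 8) (.p (nat_lit 11) (nat_lit 4) .z) .df .leaf) (nat_lit 6145) (nat_lit 10) (.p (nat_lit 13) (nat_lit 4) .z) .df .leaf))) (nat_lit 6146) (nat_lit 11) (.p (nat_lit 14) (nat_lit 4) .z) .df (.nd (.nd (.nd (.nd .leaf (nat_lit 6147) (nat_lit 20) (.n (nat_lit 16) (nat_lit 4) (.p (nat_lit 17) (nat_lit 4) (.n (nat_lit 18) (nat_lit 4) (.p (nat_lit 20) (nat_lit 4) .z)))) (.ct d6_c274 (nat_lit 4) (nat_lit 1) (.s true (nat_lit 1)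 (nat_lit 2) (nat_lit 0) (nat_lit 2) (nat_lit 1) true (nat_lit 1) true (nat_lit 3) true (nat_lit 2) true (nat_lit 4) true (nat_lit 2) (.e true (nat_lit 4) (nat_lit 10) (nat_lit 1) (nat_lit 3) (.e true (nat_lit 4) (nat_lit 8) (nat_lit 2) (nat_lit 2) (.e false (nat_lit 4) (nat_lit 12) (nat_lit 0) (nat_lit 4) (.e false (nat_lit 4) (nat_lit 9) (nat_lit 2) (nat_lit 2) .nil)))))) .leaf) (nat_lit 6148) (nat_lit 24) (.n (nat_lit 22) (nat_lit 4) (.n (nat_lit 23) (nat_lit 4) .z)) (.ct d6_c259 (nat_lit 4) (nat_lit 0) (.s true (nat_lit 1) (nat_lit 2) (nat_lit 0) (nat_lit 2) (nat_lit 2) true (nat_lit 0) true (nat_lit 1) true (nat_lit 1) true (nat_lit 2) true (nat_lit 1) (.e true (nat_lit 4) (nat_lit 14) (nat_lit 0) (nat_lit 2) (.e true (nat_lit 4) (nat_lit 11) (nat_lit 2) (nat_lit 1) .nil)))) (.nd .leaf (nat_lit 6149) (nat_lit 28) (.n (nat_lit 25) (nat_lit 4) (.n (nat_lit 26) (nat_lit 4) .z))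 (.ct d6_c19 (nat_lit 4) (nat_lit 0) (.s true (nat_lit 1) (nat_lit 2) (nat_lit 1) (nat_lit 2) (nat_lit 2) true (nat_lit 0) true (nat_lit 1) true (nat_lit 1) true (nat_lit 2) true (nat_lit 1) (.e true (nat_lit 4) (nat_lit 14) (nat_lit 1) (nat_lit 2) (.e true (nat_lit 4) (nat_lit 13) (nat_lit 2) (nat_lit 1) .nil)))) .leaf)) (nat_lit 7170) (nat_lit 12) (.p (nat_lit 15) (nat_lit 4) .z) .df (.nd (.nd .leaf (nat_lit 7174) (nat_lit 39) (.p (nat_lit 37) (nat_lit 4) .z) .df .leaf) (nat_lit 8194) (nat_lit 13) (.p (nat_lit 16) (nat_lit 4) .z) .df .leaf)) (nat_lit 8198) (nat_lit 41) (.p (nat_lit 28) (nat_lit 8) (.p (nat_lit 29) (nat_lit 12) (.n (nat_lit 30) (nat_lit 4) (.p (nat_lit 31) (nat_lit 4) (.n (nat_lit 32) (nat_lit 4) (.p (nat_lit 33) (nat_lit 4) (.n (nat_lit 35) (nat_lit 4) (.n (nat_lit 37) (nat_lit 4) .z)))))))) (.ct d6_c275 (nat_lit 4) (nat_lit 0) (.s false (nat_lit 1) (nat_lit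 4) (nat_lit 2) (nat_lit 1) (nat_lit 2) true (nat_lit 0) true (nat_lit 4) true (nat_lit 2) true (nat_lit 4) true (nat_lit 5) (.s true (nat_lit 1) (nat_lit 4) (nat_lit 2) (nat_lit 2) (nat_lit 1) true (nat_lit 1) true (nat_lit 5) true (nat_lit 2) true (nat_lit 4) true (nat_lit 4) (.s true (nat_lit 1) (nat_lit 5) (nat_lit 0) (nat_lit 2) (nat_lit 2) true (nat_lit 2) true (nat_lit 4) true (nat_lit 1) true (nat_lit 6) true (nat_lit 4) (.s false (nat_lit 1) (nat_lit 6) (nat_lit 0) (nat_lit 1) (nat_lit 2) true (nat_lit 2) true (nat_lit 4) true (nat_lit 0) true (nat_lit 6) true (nat_lit 5) (.e false (nat_lit 4) (nat_lit 18) (nat_lit 2) (nat_lit 4) (.e false (nat_lit 8) (nat_lit 15) (nat_lit 2) (nat_lit 4) (.e false (nat_lit 12) (nat_lit 16) (nat_lit 2) (nat_lit 4) (.e true (nat_lit 4) (nat_lit 19) (nat_lit 2) (nat_lit 4) (.e false (nat_lit 4) (nat_lit 20) (nat_lit 2) (nat_lit 4) (.e true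 (nat_lit 4) (nat_lit 17) (nat_lit 2) (nat_lit 4) (.e true (nat_lit 4) (nat_lit 7) (nat_lit 6) (nat_lit 0) (.e true (nat_lit 4) (nat_lit 23) (nat_lit 1) (nat_lit 5) .nil))))))))))))) (.nd (.nd (.nd .leaf (nat_lit 9218) (nat_lit 14) (.p (nat_lit 17) (nat_lit 4) .z) .df .leaf) (nat_lit 9222) (nat_lit 43) (.n (nat_lit 29) (nat_lit 4) (.p (nat_lit 30) (nat_lit 4) (.n (nat_lit 31) (nat_lit 4) (.n (nat_lit 32) (nat_lit 4) (.p (nat_lit 33) (nat_lit 4) (.p (nat_lit 34) (nat_lit 4) (.p (nat_lit 35) (nat_lit 4) (.p (nat_lit 36) (nat_lit 4) (.p (nat_lit 37) (nat_lit 4) .z))))))))) (.ct d6_c275 (nat_lit 4) (nat_lit 0) (.s true (nat_lit 1) (nat_lit 4) (nat_lit 1) (nat_lit 2) (nat_lit 2) true (nat_lit 1) true (nat_lit 4) true (nat_lit 2) true (nat_lit 5) true (nat_lit 4) (.s false (nat_lit 1) (nat_lit 5) (nat_lit 2) (nat_lit 0) (nat_lit 2) true (nat_lit 0) true (nat_lit 4) true (nat_lit 1)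 true (nat_lit 4) true (nat_lit 6) (.s true (nat_lit 1) (nat_lit 5) (nat_lit 2) (nat_lit 2) (nat_lit 0) true (nat_lit 2) true (nat_lit 6) true (nat_lit 1) true (nat_lit 4) true (nat_lit 4) (.s true (nat_lit 1) (nat_lit 6) (nat_lit 2) (nat_lit 0) (nat_lit 1) true (nat_lit 1) true (nat_lit 5) true (nat_lit 0) true (nat_lit 4) true (nat_lit 6) (.e false (nat_lit 8) (nat_lit 16) (nat_lit 2) (nat_lit 4) (.e false (nat_lit 4) (nat_lit 22) (nat_lit 1) (nat_lit 5) (.e false (nat_lit 8) (nat_lit 20) (nat_lit 2) (nat_lit 4) (.e false (nat_lit 8) (nat_lit 15) (nat_lit 2) (nat_lit 4) (.e true (nat_lit 8) (nat_lit 19) (nat_lit 2) (nat_lit 4) (.e true (nat_lit 4) (nat_lit 8) (nat_lit 6) (nat_lit 0) (.e false (nat_lit 4) (nat_lit 25) (nat_lit 0) (nat_lit 6) .nil)))))))))))) .leaf) (nat_lit 10241) (nat_lit 15) (.p (nat_lit 18) (nat_lit 4) .z) .df (.nd (.nd .leaf (nat_lit 10242) (nat_lit 21) (.p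 (nat_lit 21) (nat_lit 4) .z) .df .leaf) (nat_lit 10245) (nat_lit 40) (.p (nat_lit 38) (nat_lit 4) .z) .df .leaf)))) (nat_lit 10246) (nat_lit 54) (.p (nat_lit 40) (nat_lit 4) (.n (nat_lit 42) (nat_lit 4) .z)) (.ct d6_c260 (nat_lit 8) (nat_lit 0) (.s true (nat_lit 1) (nat_lit 4) (nat_lit 2) (nat_lit 2) (nat_lit 2) true (nat_lit 0) true (nat_lit 2) true (nat_lit 1) true (nat_lit 2) true (nat_lit 2) (.s true (nat_lit 1) (nat_lit 6) (nat_lit 2) (nat_lit 0) (nat_lit 2) true (nat_lit 0) true (nat_lit 2) true (nat_lit 0) true (nat_lit 2) true (nat_lit 3) (.s true (nat_lit 1) (nat_lit 6) (nat_lit 2) (nat_lit 2) (nat_lit 0) true (nat_lit 1) true (nat_lit 3) true (nat_lit 0) true (nat_lit 2) true (nat_lit 2) (.e false (nat_lit 8) (nat_lit 22) (nat_lit 2) (nat_lit 2) (.e true (nat_lit 8) (nat_lit 27) (nat_lit 0) (nat_lit 3) .nil)))))) (.nd (.nd (.nd (.nd (.nd .leaf (nat_lit 11265) (nat_lit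 16) (.p (nat_lit 19) (nat_lit 4) .z) .df .leaf) (nat_lit 11266) (nat_lit 22) (.p (nat_lit 22) (nat_lit 4) .z) .df (.nd .leaf (nat_lit 11269) (nat_lit 45) (.p (nat_lit 28) (nat_lit 8) (.p (nat_lit 29) (nat_lit 8) (.n (nat_lit 32) (nat_lit 4) (.p (nat_lit 33) (nat_lit 8) (.n (nat_lit 36) (nat_lit 4) (.n (nat_lit 37) (nat_lit 4) .z)))))) (.ct d6_c275 (nat_lit 4) (nat_lit 1) (.s false (nat_lit 1) (nat_lit 6) (nat_lit 2) (nat_lit 0) (nat_lit 1) true (nat_lit 1) true (nat_lit 5) true (nat_lit 0) true (nat_lit 4) true (nat_lit 6) (.e false (nat_lit 4) (nat_lit 23) (nat_lit 1) (nat_lit 5) (.e false (nat_lit 4) (nat_lit 8) (nat_lit 6) (nat_lit 0) (.e true (nat_lit 4) (nat_lit 16) (nat_lit 2) (nat_lit 4) (.e false (nat_lit 4) (nat_lit 17) (nat_lit 2) (nat_lit 4) (.e true (nat_lit 4) (nat_lit 18) (nat_lit 2) (nat_lit 4) (.e false (nat_lit 4) (nat_lit 20) (nat_lit 2) (nat_lit 4) (.e true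 (nat_lit 4) (nat_lit 25) (nat_lit 0) (nat_lit 6) .nil))))))))) .leaf)) (nat_lit 11270) (nat_lit 55) (.p (nat_lit 40) (nat_lit 8) (.p (nat_lit 41) (nat_lit 8) .z)) (.ct d6_c260 (nat_lit 4) (nat_lit 0) (.s false (nat_lit 1) (nat_lit 6) (nat_lit 2) (nat_lit 0) (nat_lit 2) true (nat_lit 0) true (nat_lit 2) true (nat_lit 0) true (nat_lit 2) true (nat_lit 3) (.e false (nat_lit 8) (nat_lit 23) (nat_lit 2) (nat_lit 2) (.e false (nat_lit 4) (nat_lit 10) (nat_lit 6) (nat_lit 0) (.e false (nat_lit 4) (nat_lit 22) (nat_lit 2) (nat_lit 2) (.e false (nat_lit 4) (nat_lit 27) (nat_lit 0) (nat_lit 3) .nil)))))) (.nd (.nd .leaf (nat_lit 12288) (nat_lit 17) (.p (nat_lit 20) (nat_lit 4) .z) .df .leaf) (nat_lit 12290) (nat_lit 25) (.p (nat_lit 24) (nat_lit 4) .z) .df .leaf)) (nat_lit 12292) (nat_lit 44) (.p (nat_lit 29) (nat_lit 4) (.p (nat_lit 31) (nat_lit 4) (.n (nat_lit 34) (nat_lit 4) (.n (nat_lit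 35) (nat_lit 4) (.p (nat_lit 38) (nat_lit 4) .z))))) (.ct d6_c275 (nat_lit 4) (nat_lit 2) (.s false (nat_lit 1) (nat_lit 4) (nat_lit 1) (nat_lit 2) (nat_lit 2) true (nat_lit 1) true (nat_lit 4) true (nat_lit 2) true (nat_lit 5) true (nat_lit 4) (.e false (nat_lit 4) (nat_lit 10) (nat_lit 5) (nat_lit 1) (.e false (nat_lit 4) (nat_lit 16) (nat_lit 2) (nat_lit 4) (.e true (nat_lit 4) (nat_lit 22) (nat_lit 1) (nat_lit 5) (.e true (nat_lit 4) (nat_lit 23) (nat_lit 1) (nat_lit 5) (.e false (nat_lit 4) (nat_lit 18) (nat_lit 2) (nat_lit 4) .nil))))))) (.nd (.nd (.nd .leaf (nat_lit 12294) (nat_lit 61) (.p (nat_lit 44) (nat_lit 4) (.n (nat_lit 46) (nat_lit 4) .z)) (.ct d6_c20 (nat_lit 8) (nat_lit 0) (.s true (nat_lit 1) (nat_lit 5) (nat_lit 2) (nat_lit 2) (nat_lit 2) true (nat_lit 0) true (nat_lit 2) true (nat_lit 1) true (nat_lit 2) true (nat_lit 2) (.s true (nat_lit 1) (nat_lit 6) (nat_lit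 2) (nat_lit 1) (nat_lit 2) true (nat_lit 0) true (nat_lit 2) true (nat_lit 0) true (nat_lit 2) true (nat_lit 3) (.s true (nat_lit 1) (nat_lit 6) (nat_lit 2) (nat_lit 2) (nat_lit 1) true (nat_lit 1) true (nat_lit 3) true (nat_lit 0) true (nat_lit 2) true (nat_lit 2) (.e false (nat_lit 8) (nat_lit 25) (nat_lit 2) (nat_lit 2) (.e true (nat_lit 8) (nat_lit 27) (nat_lit 1) (nat_lit 3) .nil)))))) .leaf) (nat_lit 12298) (nat_lit 95) (.p (nat_lit 47) (nat_lit 6) (.n (nat_lit 48) (nat_lit 2) (.p (nat_lit 49) (nat_lit 4) (.n (nat_lit 50) (nat_lit 8) (.n (nat_lit 51) (nat_lit 6) (.p (nat_lit 52) (nat_lit 10) (.p (nat_lit 53) (nat_lit 1) (.p (nat_lit 54) (nat_lit 5) (.n (nat_lit 55) (nat_lit 1) (.p (nat_lit 56) (nat_lit 4) (.n (nat_lit 57) (nat_lit 3) (.p (nat_lit 58) (nat_lit 1) (.p (nat_lit 59) (nat_lit 1) (.p (nat_lit 60) (nat_lit 3) (.p (nat_lit 61) (nat_lit 4) (.p (nat_lit 62) (nat_lit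 3) .z)))))))))))))))) (.ct d6_c276 (nat_lit 4) (nat_lit 0) (.s false (nat_lit 1) (nat_lit 10) (nat_lit 1) (nat_lit 2) (nat_lit 2) true (nat_lit 3) true (nat_lit 6) true (nat_lit 0) true (nat_lit 7) true (nat_lit 6) (.e false (nat_lit 4) (nat_lit 21) (nat_lit 5) (nat_lit 3) (.e true (nat_lit 4) (nat_lit 40) (nat_lit 1) (nat_lit 7) (.e false (nat_lit 4) (nat_lit 42) (nat_lit 1) (nat_lit 7) (.e false (nat_lit 4) (nat_lit 28) (nat_lit 2) (nat_lit 6) (.e false (nat_lit 4) (nat_lit 29) (nat_lit 2) (nat_lit 6) (.e true (nat_lit 4) (nat_lit 30) (nat_lit 2) (nat_lit 6) (.e false (nat_lit 4) (nat_lit 34) (nat_lit 2) (nat_lit 6) (.e true (nat_lit 4) (nat_lit 37) (nat_lit 2) (nat_lit 6) (.e true (nat_lit 4) (nat_lit 38) (nat_lit 2) (nat_lit 6) .nil))))))))))) .leaf) (nat_lit 12299) (nat_lit 97) (.p (nat_lit 47) (nat_lit 8) (.p (nat_lit 48) (nat_lit 8) (.n (nat_lit 51) (nat_lit 4) (.p (nat_lit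 52) (nat_lit 8) (.n (nat_lit 53) (nat_lit 4) (.n (nat_lit 55) (nat_lit 4) (.n (nat_lit 56) (nat_lit 4) (.n (nat_lit 57) (nat_lit 4) (.p (nat_lit 60) (nat_lit 4) .z))))))))) (.ct d6_c276 (nat_lit 4) (nat_lit 0) (.s false (nat_lit 1) (nat_lit 11) (nat_lit 1) (nat_lit 2) (nat_lit 2) true (nat_lit 3) true (nat_lit 6) true (nat_lit 0) true (nat_lit 7) true (nat_lit 6) (.e false (nat_lit 4) (nat_lit 22) (nat_lit 5) (nat_lit 3) (.e false (nat_lit 4) (nat_lit 32) (nat_lit 2) (nat_lit 6) (.e true (nat_lit 8) (nat_lit 40) (nat_lit 1) (nat_lit 7) (.e true (nat_lit 8) (nat_lit 41) (nat_lit 1) (nat_lit 7) (.e false (nat_lit 4) (nat_lit 34) (nat_lit 2) (nat_lit 6) .nil))))))) (.nd (.nd .leaf (nat_lit 13312) (nat_lit 19) (.n (nat_lit 15) (nat_lit 8) (.n (nat_lit 16) (nat_lit 4) (.p (nat_lit 17) (nat_lit 4) (.p (nat_lit 18) (nat_lit 4) (.p (nat_lit 19) (nat_lit 4) (.n (nat_lit 20) (nat_lit 4)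 .z)))))) (.ct d6_c274 (nat_lit 4) (nat_lit 4) (.s false (nat_lit 1) (nat_lit 2) (nat_lit 1) (nat_lit 0) (nat_lit 2) false (nat_lit 0) true (nat_lit 2) true (nat_lit 2) true (nat_lit 3) true (nat_lit 4) (.e false (nat_lit 4) (nat_lit 5) (nat_lit 4) (nat_lit 0) (.e false (nat_lit 4) (nat_lit 9) (nat_lit 2) (nat_lit 2) (.e true (nat_lit 4) (nat_lit 7) (nat_lit 2) (nat_lit 2) (.e false (nat_lit 4) (nat_lit 10) (nat_lit 1) (nat_lit 3) .nil)))))) .leaf) (nat_lit 13314) (nat_lit 26) (.p (nat_lit 25) (nat_lit 4) .z) .df .leaf))) (nat_lit 13316) (nat_lit 46) (.p (nat_lit 29) (nat_lit 4) (.p (nat_lit 30) (nat_lit 4) (.p (nat_lit 31) (nat_lit 4) (.n (nat_lit 32) (nat_lit 4) (.p (nat_lit 33) (nat_lit 4) (.n (nat_lit 34) (nat_lit 4) (.p (nat_lit 37) (nat_lit 4) .z))))))) (.ct d6_c275 (nat_lit 4) (nat_lit 2) (.s true (nat_lit 1) (nat_lit 6) (nat_lit 0) (nat_lit 1) (nat_lit 2) true (nat_lit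 2) true (nat_lit 4) true (nat_lit 0) true (nat_lit 6) true (nat_lit 5) (.e true (nat_lit 4) (nat_lit 19) (nat_lit 2) (nat_lit 4) (.e false (nat_lit 4) (nat_lit 7) (nat_lit 6) (nat_lit 0) (.e false (nat_lit 4) (nat_lit 25) (nat_lit 0) (nat_lit 6) (.e false (nat_lit 4) (nat_lit 26) (nat_lit 0) (nat_lit 6) (.e false (nat_lit 4) (nat_lit 23) (nat_lit 1) (nat_lit 5) .nil))))))) (.nd (.nd (.nd (.nd .leaf (nat_lit 13318) (nat_lit 62) (.p (nat_lit 44) (nat_lit 8) (.p (nat_lit 45) (nat_lit 8) .z)) (.ct d6_c20 (nat_lit 4) (nat_lit 0) (.s false (nat_lit 1) (nat_lit 6) (nat_lit 2) (nat_lit 1) (nat_lit 2) true (nat_lit 0) true (nat_lit 2) true (nat_lit 0) true (nat_lit 2) true (nat_lit 3) (.e false (nat_lit 8) (nat_lit 26) (nat_lit 2) (nat_lit 2) (.e false (nat_lit 4) (nat_lit 12) (nat_lit 6) (nat_lit 0) (.e false (nat_lit 4) (nat_lit 25) (nat_lit 2) (nat_lit 2) (.e false (nat_lit 4) (nat_lit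 27) (nat_lit 1) (nat_lit 3) .nil)))))) .leaf) (nat_lit 13322) (nat_lit 94) (.p (nat_lit 47) (nat_lit 16) (.p (nat_lit 48) (nat_lit 12) (.n (nat_lit 49) (nat_lit 4) (.n (nat_lit 50) (nat_lit 4) (.n (nat_lit 51) (nat_lit 12) (.p (nat_lit 52) (nat_lit 12) (.n (nat_lit 53) (nat_lit 4) (.n (nat_lit 55) (nat_lit 4) (.n (nat_lit 56) (nat_lit 4) (.p (nat_lit 58) (nat_lit 4) (.p (nat_lit 60) (nat_lit 4) .z))))))))))) (.ct d6_c276 (nat_lit 4) (nat_lit 0) (.s false (nat_lit 1) (nat_lit 6) (nat_lit 4) (nat_lit 1) (nat_lit 2) true (nat_lit 0) true (nat_lit 6) true (nat_lit 2) true (nat_lit 4) true (nat_lit 7) (.e true (nat_lit 4) (nat_lit 34) (nat_lit 2) (nat_lit 6) (.e true (nat_lit 4) (nat_lit 35) (nat_lit 2) (nat_lit 6) (.e false (nat_lit 4) (nat_lit 16) (nat_lit 6) (nat_lit 2) (.e false (nat_lit 4) (nat_lit 25) (nat_lit 4) (nat_lit 4) (.e false (nat_lit 4) (nat_lit 26) (nat_lit 4) (nat_lit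 4) (.e true (nat_lit 4) (nat_lit 41) (nat_lit 1) (nat_lit 7) (.e true (nat_lit 4) (nat_lit 42) (nat_lit 1) (nat_lit 7) .nil))))))))) (.nd .leaf (nat_lit 13323) (nat_lit 98) (.p (nat_lit 56) (nat_lit 8) (.p (nat_lit 58) (nat_lit 8) (.p (nat_lit 59) (nat_lit 8) (.n (nat_lit 60) (nat_lit 4) .z)))) (.ct d6_c276 (nat_lit 4) (nat_lit 0) (.s false (nat_lit 1) (nat_lit 6) (nat_lit 1) (nat_lit 0) (nat_lit 6) false (nat_lit 0) true (nat_lit 2) true (nat_lit 2) true (nat_lit 7) true (nat_lit 8) (.e true (nat_lit 8) (nat_lit 15) (nat_lit 6) (nat_lit 2) (.e false (nat_lit 8) (nat_lit 18) (nat_lit 6) (nat_lit 2) (.e false (nat_lit 4) (nat_lit 19) (nat_lit 6) (nat_lit 2) (.e true (nat_lit 8) (nat_lit 20) (nat_lit 6) (nat_lit 2) (.e true (nat_lit 8) (nat_lit 40) (nat_lit 1) (nat_lit 7) (.e true (nat_lit 8) (nat_lit 41) (nat_lit 1) (nat_lit 7) .nil)))))))) .leaf)) (nat_lit 14336) (nat_lit 23)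 (.p (nat_lit 23) (nat_lit 4) .z) .df (.nd (.nd .leaf (nat_lit 14337) (nat_lit 27) (.p (nat_lit 26) (nat_lit 4) .z) .df .leaf) (nat_lit 14338) (nat_lit 29) (.p (nat_lit 27) (nat_lit 4) .z) .df .leaf)) (nat_lit 14339) (nat_lit 47) (.p (nat_lit 29) (nat_lit 4) (.n (nat_lit 30) (nat_lit 4) (.p (nat_lit 31) (nat_lit 4) (.n (nat_lit 33) (nat_lit 4) (.n (nat_lit 37) (nat_lit 4) .z))))) (.ct d6_c275 (nat_lit 4) (nat_lit 3) (.s true (nat_lit 1) (nat_lit 3) (nat_lit 2) (nat_lit 2) (nat_lit 2) true (nat_lit 0) true (nat_lit 4) true (nat_lit 3) true (nat_lit 4) true (nat_lit 4) (.e true (nat_lit 4) (nat_lit 7) (nat_lit 6) (nat_lit 0) (.e false (nat_lit 4) (nat_lit 16) (nat_lit 2) (nat_lit 4) (.e true (nat_lit 4) (nat_lit 17) (nat_lit 2) (nat_lit 4) (.e false (nat_lit 4) (nat_lit 18) (nat_lit 2) (nat_lit 4) (.e true (nat_lit 4) (nat_lit 20) (nat_lit 2) (nat_lit 4) .nil))))))) (.nd (.nd (.nd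 .leaf (nat_lit 14340) (nat_lit 56) (.n (nat_lit 41) (nat_lit 4) (.n (nat_lit 42) (nat_lit 4) .z)) (.ct d6_c260 (nat_lit 4) (nat_lit 1) (.s false (nat_lit 1) (nat_lit 4) (nat_lit 2) (nat_lit 2) (nat_lit 2) true (nat_lit 0) true (nat_lit 2) true (nat_lit 1) true (nat_lit 2) true (nat_lit 2) (.e false (nat_lit 4) (nat_lit 10) (nat_lit 6) (nat_lit 0) (.e true (nat_lit 4) (nat_lit 22) (nat_lit 2) (nat_lit 2) (.e true (nat_lit 4) (nat_lit 23) (nat_lit 2) (nat_lit 2) .nil))))) .leaf) (nat_lit 14341) (nat_lit 63) (.n (nat_lit 45) (nat_lit 4) (.n (nat_lit 46) (nat_lit 4) .z)) (.ct d6_c20 (nat_lit 4) (nat_lit 1) (.s false (nat_lit 1) (nat_lit 5) (nat_lit 2) (nat_lit 2) (nat_lit 2) true (nat_lit 0) true (nat_lit 2) true (nat_lit 1) true (nat_lit 2) true (nat_lit 2) (.e false (nat_lit 4) (nat_lit 12) (nat_lit 6) (nat_lit 0) (.e true (nat_lit 4) (nat_lit 25) (nat_lit 2) (nat_lit 2) (.e true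 (nat_lit 4) (nat_lit 26) (nat_lit 2) (nat_lit 2) .nil))))) .leaf) (nat_lit 14343) (nat_lit 101) (.p (nat_lit 48) (nat_lit 8) (.p (nat_lit 50) (nat_lit 8) (.n (nat_lit 53) (nat_lit 4) (.n (nat_lit 54) (nat_lit 8) (.n (nat_lit 55) (nat_lit 4) (.p (nat_lit 57) (nat_lit 4) (.p (nat_lit 58) (nat_lit 4) (.p (nat_lit 59) (nat_lit 8) (.n (nat_lit 60) (nat_lit 4) .z))))))))) (.ct d6_c276 (nat_lit 4) (nat_lit 1) (.s false (nat_lit 1) (nat_lit 6) (nat_lit 3) (nat_lit 2) (nat_lit 2) true (nat_lit 1) true (nat_lit 6) true (nat_lit 2) true (nat_lit 5) true (nat_lit 6) (.e false (nat_lit 4) (nat_lit 15) (nat_lit 6) (nat_lit 2) (.e true (nat_lit 4) (nat_lit 37) (nat_lit 2) (nat_lit 6) .nil)))) (.nd (.nd .leaf (nat_lit 14344) (nat_lit 93) (.p (nat_lit 47) (nat_lit 4) (.p (nat_lit 49) (nat_lit 4) (.n (nat_lit 50) (nat_lit 4) (.n (nat_lit 51) (nat_lit 8) (.p (nat_lit 52) (nat_lit 8) (.n (nat_lit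 53) (nat_lit 2) (.p (nat_lit 54) (nat_lit 6) (.n (nat_lit 55) (nat_lit 2) (.p (nat_lit 56) (nat_lit 4) (.p (nat_lit 57) (nat_lit 2) (.p (nat_lit 58) (nat_lit 2) (.n (nat_lit 59) (nat_lit 2) (.p (nat_lit 60) (nat_lit 2) (.n (nat_lit 62) (nat_lit 2) .z)))))))))))))) (.ct d6_c276 (nat_lit 4) (nat_lit 1) (.s false (nat_lit 1) (nat_lit 14) (nat_lit 2) (nat_lit 0) (nat_lit 1) true (nat_lit 3) true (nat_lit 7) false (nat_lit 1) true (nat_lit 6) true (nat_lit 8) (.e true (nat_lit 4) (nat_lit 23) (nat_lit 5) (nat_lit 3) (.e false (nat_lit 4) (nat_lit 42) (nat_lit 1) (nat_lit 7) (.e false (nat_lit 4) (nat_lit 29) (nat_lit 2) (nat_lit 6) (.e true (nat_lit 4) (nat_lit 30) (nat_lit 2) (nat_lit 6) (.e false (nat_lit 4) (nat_lit 31) (nat_lit 2) (nat_lit 6) (.e true (nat_lit 4) (nat_lit 33) (nat_lit 2) (nat_lit 6) (.e true (nat_lit 4) (nat_lit 37) (nat_lit 2) (nat_lit 6) (.e true (nat_lit 4)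 (nat_lit 45) (nat_lit 0) (nat_lit 8) .nil)))))))))) .leaf) (nat_lit 14345) (nat_lit 92) (.p (nat_lit 47) (nat_lit 4) (.p (nat_lit 48) (nat_lit 16) (.n (nat_lit 49) (nat_lit 4) (.p (nat_lit 50) (nat_lit 12) (.n (nat_lit 53) (nat_lit 6) (.n (nat_lit 54) (nat_lit 10) (.n (nat_lit 55) (nat_lit 6) (.n (nat_lit 56) (nat_lit 4) (.p (nat_lit 57) (nat_lit 6) (.p (nat_lit 58) (nat_lit 6) (.p (nat_lit 59) (nat_lit 6) (.n (nat_lit 60) (nat_lit 6) (.n (nat_lit 62) (nat_lit 2) .z))))))))))))) (.ct d6_c276 (nat_lit 4) (nat_lit 1) (.s false (nat_lit 1) (nat_lit 14) (nat_lit 2) (nat_lit 1) (nat_lit 0) true (nat_lit 4) true (nat_lit 8) false (nat_lit 1) true (nat_lit 6) true (nat_lit 7) (.e true (nat_lit 4) (nat_lit 26) (nat_lit 4) (nat_lit 4) (.e false (nat_lit 4) (nat_lit 46) (nat_lit 0) (nat_lit 8) (.e true (nat_lit 4) (nat_lit 29) (nat_lit 2) (nat_lit 6) (.e false (nat_lit 4) (nat_lit 30)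 (nat_lit 2) (nat_lit 6) (.e true (nat_lit 4) (nat_lit 31) (nat_lit 2) (nat_lit 6) (.e false (nat_lit 4) (nat_lit 33) (nat_lit 2) (nat_lit 6) (.e false (nat_lit 4) (nat_lit 37) (nat_lit 2) (nat_lit 6) (.e true (nat_lit 4) (nat_lit 41) (nat_lit 1) (nat_lit 7) .nil)))))))))) .leaf))))) (nat_lit 15362) (nat_lit 30) (.p (nat_lit 28) (nat_lit 4) .z) .df (.nd (.nd (.nd (.nd (.nd (.nd .leaf (nat_lit 15366) (nat_lit 83) (.p (nat_lit 48) (nat_lit 8) (.p (nat_lit 50) (nat_lit 8) (.n (nat_lit 53) (nat_lit 4) (.n (nat_lit 54) (nat_lit 8) (.n (nat_lit 55) (nat_lit 4) (.p (nat_lit 56) (nat_lit 4) (.p (nat_lit 57) (nat_lit 4) (.p (nat_lit 58) (nat_lit 4) (.p (nat_lit 59) (nat_lit 8) (.n (nat_lit 60) (nat_lit 4) .z)))))))))) (.ct d6_c276 (nat_lit 8) (nat_lit 2) (.s true (nat_lit 2) (nat_lit 6) (nat_lit 3) (nat_lit 2) (nat_lit 2) true (nat_lit 1) true (nat_lit 6) true (nat_lit 2) true (nat_lit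 5) true (nat_lit 6) (.s true (nat_lit 1) (nat_lit 14) (nat_lit 0) (nat_lit 1) (nat_lit 2) true (nat_lit 4) true (nat_lit 6) false (nat_lit 1) true (nat_lit 8) true (nat_lit 7) (.s false (nat_lit 1) (nat_lit 14) (nat_lit 1) (nat_lit 0) (nat_lit 2) true (nat_lit 3) true (nat_lit 6) false (nat_lit 1) true (nat_lit 7) true (nat_lit 8) (.e false (nat_lit 4) (nat_lit 29) (nat_lit 2) (nat_lit 6) (.e false (nat_lit 4) (nat_lit 30) (nat_lit 2) (nat_lit 6) (.e false (nat_lit 4) (nat_lit 31) (nat_lit 2) (nat_lit 6) (.e false (nat_lit 4) (nat_lit 33) (nat_lit 2) (nat_lit 6) (.e false (nat_lit 8) (nat_lit 37) (nat_lit 2) (nat_lit 6) (.e true (nat_lit 4) (nat_lit 26) (nat_lit 4) (nat_lit 4) (.e true (nat_lit 8) (nat_lit 35) (nat_lit 2) (nat_lit 6) (.e false (nat_lit 4) (nat_lit 45) (nat_lit 0) (nat_lit 8) (.e false (nat_lit 4) (nat_lit 23) (nat_lit 5) (nat_lit 3) (.e true (nat_lit 4) (nat_lit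 34) (nat_lit 2) (nat_lit 6) (.e true (nat_lit 4) (nat_lit 36) (nat_lit 2) (nat_lit 6) (.e true (nat_lit 4) (nat_lit 41) (nat_lit 1) (nat_lit 7) .nil)))))))))))))))) .leaf) (nat_lit 16386) (nat_lit 31) (.p (nat_lit 29) (nat_lit 4) .z) .df (.nd .leaf (nat_lit 16390) (nat_lit 86) (.p (nat_lit 47) (nat_lit 12) (.p (nat_lit 48) (nat_lit 12) (.n (nat_lit 51) (nat_lit 12) (.p (nat_lit 52) (nat_lit 12) (.n (nat_lit 53) (nat_lit 2) (.p (nat_lit 54) (nat_lit 2) (.n (nat_lit 55) (nat_lit 2) (.p (nat_lit 57) (nat_lit 2) (.p (nat_lit 58) (nat_lit 2) (.n (nat_lit 59) (nat_lit 2) (.p (nat_lit 60) (nat_lit 2) (.n (nat_lit 62) (nat_lit 2) .z)))))))))))) (.ct d6_c276 (nat_lit 4) (nat_lit 2) (.s true (nat_lit 1) (nat_lit 8) (nat_lit 2) (nat_lit 2) (nat_lit 2) true (nat_lit 2) true (nat_lit 6) true (nat_lit 1) true (nat_lit 6) true (nat_lit 6) (.s false (nat_lit 1) (nat_lit 14) (nat_lit 2) (nat_lit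 0) (nat_lit 1) true (nat_lit 3) true (nat_lit 7) false (nat_lit 1) true (nat_lit 6) true (nat_lit 8) (.e false (nat_lit 16) (nat_lit 29) (nat_lit 2) (nat_lit 6) (.e false (nat_lit 8) (nat_lit 28) (nat_lit 2) (nat_lit 6) (.e true (nat_lit 8) (nat_lit 30) (nat_lit 2) (nat_lit 6) (.e false (nat_lit 8) (nat_lit 31) (nat_lit 2) (nat_lit 6) (.e true (nat_lit 4) (nat_lit 32) (nat_lit 2) (nat_lit 6) (.e true (nat_lit 4) (nat_lit 35) (nat_lit 2) (nat_lit 6) (.e true (nat_lit 8) (nat_lit 37) (nat_lit 2) (nat_lit 6) (.e true (nat_lit 4) (nat_lit 23) (nat_lit 5) (nat_lit 3) (.e false (nat_lit 4) (nat_lit 42) (nat_lit 1) (nat_lit 7) (.e true (nat_lit 4) (nat_lit 45) (nat_lit 0) (nat_lit 8) .nil))))))))))))) .leaf)) (nat_lit 17410) (nat_lit 32) (.p (nat_lit 30) (nat_lit 4) .z) .df (.nd (.nd .leaf (nat_lit 17414) (nat_lit 90) (.p (nat_lit 47) (nat_lit 4) (.p (nat_lit 48) (nat_lit 12) (.p (nat_lit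 50) (nat_lit 8) (.n (nat_lit 51) (nat_lit 4) (.p (nat_lit 52) (nat_lit 4) (.n (nat_lit 53) (nat_lit 2) (.n (nat_lit 54) (nat_lit 6) (.n (nat_lit 55) (nat_lit 2) (.p (nat_lit 57) (nat_lit 6) (.p (nat_lit 58) (nat_lit 6) (.p (nat_lit 59) (nat_lit 6) (.n (nat_lit 60) (nat_lit 6) (.n (nat_lit 62) (nat_lit 2) .z))))))))))))) (.ct d6_c276 (nat_lit 4) (nat_lit 2) (.s false (nat_lit 1) (nat_lit 6) (nat_lit 0) (nat_lit 6) (nat_lit 1) true (nat_lit 5) true (nat_lit 7) true (nat_lit 2) true (nat_lit 8) true (nat_lit 2) (.e false (nat_lit 8) (nat_lit 40) (nat_lit 1) (nat_lit 7) (.e false (nat_lit 8) (nat_lit 41) (nat_lit 1) (nat_lit 7) (.e true (nat_lit 8) (nat_lit 19) (nat_lit 6) (nat_lit 2) (.e false (nat_lit 8) (nat_lit 44) (nat_lit 0) (nat_lit 8) (.e false (nat_lit 8) (nat_lit 45) (nat_lit 0) (nat_lit 8) (.e false (nat_lit 8) (nat_lit 15) (nat_lit 6) (nat_lit 2) (.e false (nat_lit 4)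 (nat_lit 16) (nat_lit 6) (nat_lit 2) (.e true (nat_lit 4) (nat_lit 18) (nat_lit 6) (nat_lit 2) (.e false (nat_lit 4) (nat_lit 20) (nat_lit 6) (nat_lit 2) .nil))))))))))) .leaf) (nat_lit 18434) (nat_lit 33) (.p (nat_lit 31) (nat_lit 4) .z) .df .leaf)) (nat_lit 18438) (nat_lit 88) (.n (nat_lit 47) (nat_lit 12) (.n (nat_lit 48) (nat_lit 16) (.p (nat_lit 49) (nat_lit 4) (.n (nat_lit 50) (nat_lit 4) (.p (nat_lit 51) (nat_lit 12) (.n (nat_lit 52) (nat_lit 8) (.p (nat_lit 53) (nat_lit 6) (.p (nat_lit 54) (nat_lit 2) (.p (nat_lit 55) (nat_lit 6) (.p (nat_lit 56) (nat_lit 4) (.n (nat_lit 57) (nat_lit 6) (.n (nat_lit 58) (nat_lit 6) (.n (nat_lit 59) (nat_lit 2) (.p (nat_lit 60) (nat_lit 2) (.p (nat_lit 62) (nat_lit 6) .z))))))))))))))) (.ct d6_c276 (nat_lit 8) (nat_lit 2) (.s false (nat_lit 1) (nat_lit 6) (nat_lit 0) (nat_lit 6) (nat_lit 1) true (nat_lit 5) true (nat_lit 7) true (nat_lit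 2) true (nat_lit 8) true (nat_lit 2) (.s false (nat_lit 1) (nat_lit 6) (nat_lit 2) (nat_lit 2) (nat_lit 3) true (nat_lit 1) true (nat_lit 5) true (nat_lit 2) true (nat_lit 6) true (nat_lit 6) (.s false (nat_lit 1) (nat_lit 14) (nat_lit 0) (nat_lit 1) (nat_lit 2) true (nat_lit 4) true (nat_lit 6) false (nat_lit 1) true (nat_lit 8) true (nat_lit 7) (.s false (nat_lit 1) (nat_lit 14) (nat_lit 1) (nat_lit 2) (nat_lit 0) true (nat_lit 5) true (nat_lit 8) false (nat_lit 1) true (nat_lit 7) true (nat_lit 6) (.s false (nat_lit 1) (nat_lit 14) (nat_lit 2) (nat_lit 1) (nat_lit 0) true (nat_lit 4) true (nat_lit 8) false (nat_lit 1) true (nat_lit 6) true (nat_lit 7) (.e false (nat_lit 8) (nat_lit 40) (nat_lit 1) (nat_lit 7) (.e false (nat_lit 8) (nat_lit 41) (nat_lit 1) (nat_lit 7) (.e true (nat_lit 8) (nat_lit 19) (nat_lit 6) (nat_lit 2) (.e false (nat_lit 8) (nat_lit 44) (nat_lit 0) (nat_lit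 8) (.e false (nat_lit 8) (nat_lit 45) (nat_lit 0) (nat_lit 8) (.e false (nat_lit 8) (nat_lit 15) (nat_lit 6) (nat_lit 2) (.e false (nat_lit 8) (nat_lit 20) (nat_lit 6) (nat_lit 2) (.e false (nat_lit 8) (nat_lit 37) (nat_lit 2) (nat_lit 6) .nil)))))))))))))) (.nd (.nd (.nd .leaf (nat_lit 19458) (nat_lit 34) (.p (nat_lit 32) (nat_lit 4) .z) .df .leaf) (nat_lit 19462) (nat_lit 77) (.p (nat_lit 60) (nat_lit 4) .z) .df .leaf) (nat_lit 20482) (nat_lit 35) (.p (nat_lit 33) (nat_lit 4) .z) .df (.nd (.nd .leaf (nat_lit 20486) (nat_lit 84) (.n (nat_lit 47) (nat_lit 4) (.n (nat_lit 48) (nat_lit 16) (.p (nat_lit 49) (nat_lit 4) (.n (nat_lit 50) (nat_lit 12) (.p (nat_lit 51) (nat_lit 4) (.p (nat_lit 53) (nat_lit 6) (.p (nat_lit 54) (nat_lit 10) (.p (nat_lit 55) (nat_lit 6) (.n (nat_lit 56) (nat_lit 4) (.n (nat_lit 57) (nat_lit 10) (.n (nat_lit 58) (nat_lit 10) (.n (nat_lit 59) (nat_lit 10)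 (.p (nat_lit 60) (nat_lit 10) (.p (nat_lit 62) (nat_lit 6) .z)))))))))))))) (.ct d6_c276 (nat_lit 8) (nat_lit 2) (.s false (nat_lit 1) (nat_lit 6) (nat_lit 0) (nat_lit 6) (nat_lit 1) true (nat_lit 5) true (nat_lit 7) true (nat_lit 2) true (nat_lit 8) true (nat_lit 2) (.s false (nat_lit 2) (nat_lit 6) (nat_lit 1) (nat_lit 0) (nat_lit 6) false (nat_lit 0) true (nat_lit 2) true (nat_lit 2) true (nat_lit 7) true (nat_lit 8) (.s false (nat_lit 1) (nat_lit 6) (nat_lit 2) (nat_lit 2) (nat_lit 3) true (nat_lit 1) true (nat_lit 5) true (nat_lit 2) true (nat_lit 6) true (nat_lit 6) (.s true (nat_lit 2) (nat_lit 6) (nat_lit 4) (nat_lit 2) (nat_lit 1) true (nat_lit 1) true (nat_lit 7) true (nat_lit 2) true (nat_lit 4) true (nat_lit 6) (.s true (nat_lit 2) (nat_lit 13) (nat_lit 2) (nat_lit 2) (nat_lit 0) true (nat_lit 4) true (nat_lit 8) false (nat_lit 0) true (nat_lit 6) true (nat_lit 6)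 (.s false (nat_lit 1) (nat_lit 14) (nat_lit 0) (nat_lit 1) (nat_lit 2) true (nat_lit 4) true (nat_lit 6) false (nat_lit 1) true (nat_lit 8) true (nat_lit 7) (.s false (nat_lit 1) (nat_lit 14) (nat_lit 1) (nat_lit 2) (nat_lit 0) true (nat_lit 5) true (nat_lit 8) false (nat_lit 1) true (nat_lit 7) true (nat_lit 6) (.s true (nat_lit 2) (nat_lit 14) (nat_lit 2) (nat_lit 0) (nat_lit 1) true (nat_lit 3) true (nat_lit 7) false (nat_lit 1) true (nat_lit 6) true (nat_lit 8) (.s false (nat_lit 1) (nat_lit 14) (nat_lit 2) (nat_lit 1) (nat_lit 0) true (nat_lit 4) true (nat_lit 8) false (nat_lit 1) true (nat_lit 6) true (nat_lit 7) (.e false (nat_lit 16) (nat_lit 45) (nat_lit 0) (nat_lit 8) (.e true (nat_lit 8) (nat_lit 15) (nat_lit 6) (nat_lit 2) (.e false (nat_lit 16) (nat_lit 37) (nat_lit 2) (nat_lit 6) (.e true (nat_lit 16) (nat_lit 29) (nat_lit 2) (nat_lit 6) (.e false (nat_lit 16) (nat_lit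 30) (nat_lit 2) (nat_lit 6) (.e false (nat_lit 8) (nat_lit 26) (nat_lit 4) (nat_lit 4) (.e false (nat_lit 8) (nat_lit 32) (nat_lit 2) (nat_lit 6) (.e true (nat_lit 16) (nat_lit 28) (nat_lit 2) (nat_lit 6) (.e true (nat_lit 8) (nat_lit 42) (nat_lit 1) (nat_lit 7) (.e false (nat_lit 8) (nat_lit 23) (nat_lit 5) (nat_lit 3) .nil)))))))))))))))))))) .leaf) (nat_lit 21505) (nat_lit 48) (.p (nat_lit 28) (nat_lit 4) (.p (nat_lit 29) (nat_lit 4) (.n (nat_lit 30) (nat_lit 4) (.n (nat_lit 31) (nat_lit 4) (.p (nat_lit 34) (nat_lit 4) (.n (nat_lit 37) (nat_lit 4) (.n (nat_lit 38) (nat_lit 4) .z))))))) (.ct d6_c275 (nat_lit 4) (nat_lit 5) (.s true (nat_lit 1) (nat_lit 4) (nat_lit 2) (nat_lit 2) (nat_lit 1) true (nat_lit 1) true (nat_lit 5) true (nat_lit 2) true (nat_lit 4) true (nat_lit 4) (.e true (nat_lit 4) (nat_lit 10) (nat_lit 5) (nat_lit 1) (.e true (nat_lit 4) (nat_lit 13) (nat_lit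 4) (nat_lit 2) (.e false (nat_lit 4) (nat_lit 15) (nat_lit 2) (nat_lit 4) (.e false (nat_lit 8) (nat_lit 16) (nat_lit 2) (nat_lit 4) (.e true (nat_lit 4) (nat_lit 19) (nat_lit 2) (nat_lit 4) (.e false (nat_lit 4) (nat_lit 20) (nat_lit 2) (nat_lit 4) .nil)))))))) .leaf))) (nat_lit 21506) (nat_lit 50) (.p (nat_lit 39) (nat_lit 4) .z) .df (.nd (.nd (.nd (.nd .leaf (nat_lit 21509) (nat_lit 78) (.p (nat_lit 61) (nat_lit 4) .z) .df .leaf) (nat_lit 22529) (nat_lit 36) (.p (nat_lit 34) (nat_lit 4) .z) .df (.nd .leaf (nat_lit 22530) (nat_lit 51) (.p (nat_lit 40) (nat_lit 4) .z) .df .leaf)) (nat_lit 22533) (nat_lit 87) (.n (nat_lit 47) (nat_lit 8) (.n (nat_lit 48) (nat_lit 8) (.p (nat_lit 51) (nat_lit 8) (.n (nat_lit 52) (nat_lit 8) (.p (nat_lit 55) (nat_lit 4) (.n (nat_lit 56) (nat_lit 4) (.n (nat_lit 57) (nat_lit 4) (.n (nat_lit 58) (nat_lit 8) (.n (nat_lit 59) (nat_lit 8) (.p (nat_lit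 60) (nat_lit 4) .z)))))))))) (.ct d6_c276 (nat_lit 4) (nat_lit 3) (.s true (nat_lit 1) (nat_lit 11) (nat_lit 1) (nat_lit 2) (nat_lit 2) true (nat_lit 3) true (nat_lit 6) true (nat_lit 0) true (nat_lit 7) true (nat_lit 6) (.s true (nat_lit 1) (nat_lit 11) (nat_lit 2) (nat_lit 1) (nat_lit 2) true (nat_lit 2) true (nat_lit 6) true (nat_lit 0) true (nat_lit 6) true (nat_lit 7) (.e true (nat_lit 8) (nat_lit 32) (nat_lit 2) (nat_lit 6) (.e false (nat_lit 4) (nat_lit 40) (nat_lit 1) (nat_lit 7) (.e false (nat_lit 8) (nat_lit 41) (nat_lit 1) (nat_lit 7) (.e true (nat_lit 8) (nat_lit 34) (nat_lit 2) (nat_lit 6) (.e false (nat_lit 4) (nat_lit 19) (nat_lit 6) (nat_lit 2) (.e false (nat_lit 8) (nat_lit 28) (nat_lit 2) (nat_lit 6) (.e false (nat_lit 8) (nat_lit 29) (nat_lit 2) (nat_lit 6) (.e false (nat_lit 8) (nat_lit 33) (nat_lit 2) (nat_lit 6) (.e true (nat_lit 4) (nat_lit 36) (nat_lit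 2) (nat_lit 6) (.e true (nat_lit 4) (nat_lit 37) (nat_lit 2) (nat_lit 6) .nil))))))))))))) (.nd (.nd .leaf (nat_lit 23553) (nat_lit 37) (.p (nat_lit 35) (nat_lit 4) .z) .df .leaf) (nat_lit 23554) (nat_lit 52) (.p (nat_lit 41) (nat_lit 4) .z) .df .leaf)) (nat_lit 23557) (nat_lit 79) (.p (nat_lit 62) (nat_lit 4) .z) .df (.nd (.nd (.nd .leaf (nat_lit 24576) (nat_lit 49) (.n (nat_lit 28) (nat_lit 4) (.n (nat_lit 29) (nat_lit 8) (.p (nat_lit 30) (nat_lit 4) (.n (nat_lit 31) (nat_lit 4) (.n (nat_lit 33) (nat_lit 4) (.p (nat_lit 34) (nat_lit 4) (.p (nat_lit 35) (nat_lit 4) (.p (nat_lit 36) (nat_lit 4) (.p (nat_lit 37) (nat_lit 4) (.n (nat_lit 38) (nat_lit 4) .z)))))))))) (.ct d6_c275 (nat_lit 4) (nat_lit 6) (.s true (nat_lit 1) (nat_lit 5) (nat_lit 2) (nat_lit 0) (nat_lit 2) true (nat_lit 0) true (nat_lit 4) true (nat_lit 1) true (nat_lit 4) true (nat_lit 6) (.e false (nat_lit 4) (nat_lit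 9) (nat_lit 6) (nat_lit 0) (.e true (nat_lit 8) (nat_lit 20) (nat_lit 2) (nat_lit 4) (.e true (nat_lit 4) (nat_lit 10) (nat_lit 5) (nat_lit 1) (.e true (nat_lit 4) (nat_lit 15) (nat_lit 2) (nat_lit 4) (.e true (nat_lit 4) (nat_lit 16) (nat_lit 2) (nat_lit 4) (.e false (nat_lit 4) (nat_lit 19) (nat_lit 2) (nat_lit 4) .nil)))))))) .leaf) (nat_lit 24578) (nat_lit 57) (.p (nat_lit 43) (nat_lit 4) .z) .df .leaf) (nat_lit 24580) (nat_lit 96) (.n (nat_lit 47) (nat_lit 4) (.p (nat_lit 48) (nat_lit 4) (.n (nat_lit 49) (nat_lit 4) (.p (nat_lit 50) (nat_lit 8) (.p (nat_lit 51) (nat_lit 4) (.n (nat_lit 52) (nat_lit 8) (.n (nat_lit 53) (nat_lit 2) (.n (nat_lit 54) (nat_lit 6) (.n (nat_lit 55) (nat_lit 2) (.p (nat_lit 57) (nat_lit 6) (.p (nat_lit 58) (nat_lit 6) (.p (nat_lit 59) (nat_lit 6) (.n (nat_lit 60) (nat_lit 6) (.n (nat_lit 61) (nat_lit 4) (.n (nat_lit 62) (nat_lit 6) .z)))))))))))))))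 (.ct d6_c276 (nat_lit 4) (nat_lit 4) (.s true (nat_lit 1) (nat_lit 5) (nat_lit 2) (nat_lit 2) (nat_lit 4) true (nat_lit 0) true (nat_lit 4) true (nat_lit 3) true (nat_lit 6) true (nat_lit 6) (.e true (nat_lit 4) (nat_lit 12) (nat_lit 10) (nat_lit 0) (.e true (nat_lit 4) (nat_lit 22) (nat_lit 5) (nat_lit 3) (.e true (nat_lit 4) (nat_lit 23) (nat_lit 5) (nat_lit 3) (.e true (nat_lit 4) (nat_lit 38) (nat_lit 2) (nat_lit 6) (.e true (nat_lit 4) (nat_lit 28) (nat_lit 2) (nat_lit 6) (.e true (nat_lit 4) (nat_lit 29) (nat_lit 2) (nat_lit 6) (.e false (nat_lit 4) (nat_lit 32) (nat_lit 2) (nat_lit 6) (.e true (nat_lit 4) (nat_lit 33) (nat_lit 2) (nat_lit 6) .nil)))))))))) (.nd (.nd .leaf (nat_lit 25600) (nat_lit 38) (.p (nat_lit 36) (nat_lit 4) .z) .df .leaf) (nat_lit 25602) (nat_lit 58) (.p (nat_lit 44) (nat_lit 4) .z) .df .leaf)))) (nat_lit 25604) (nat_lit 85) (.n (nat_lit 47) (nat_lit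 8) (.n (nat_lit 48) (nat_lit 8) (.p (nat_lit 51) (nat_lit 8) (.n (nat_lit 52) (nat_lit 8) (.p (nat_lit 53) (nat_lit 4) (.p (nat_lit 56) (nat_lit 4) (.p (nat_lit 58) (nat_lit 4) (.p (nat_lit 59) (nat_lit 8) (.n (nat_lit 60) (nat_lit 4) .z))))))))) (.ct d6_c276 (nat_lit 4) (nat_lit 4) (.s false (nat_lit 1) (nat_lit 6) (nat_lit 0) (nat_lit 6) (nat_lit 1) true (nat_lit 5) true (nat_lit 7) true (nat_lit 2) true (nat_lit 8) true (nat_lit 2) (.s false (nat_lit 1) (nat_lit 6) (nat_lit 1) (nat_lit 0) (nat_lit 6) false (nat_lit 0) true (nat_lit 2) true (nat_lit 2) true (nat_lit 7) true (nat_lit 8) (.s false (nat_lit 1) (nat_lit 6) (nat_lit 2) (nat_lit 2) (nat_lit 3) true (nat_lit 1) true (nat_lit 5) true (nat_lit 2) true (nat_lit 6) true (nat_lit 6) (.s true (nat_lit 1) (nat_lit 13) (nat_lit 2) (nat_lit 2) (nat_lit 0) true (nat_lit 4) true (nat_lit 8) false (nat_lit 0) true (nat_lit 6)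 true (nat_lit 6) (.s false (nat_lit 1) (nat_lit 14) (nat_lit 0) (nat_lit 1) (nat_lit 2) true (nat_lit 4) true (nat_lit 6) false (nat_lit 1) true (nat_lit 8) true (nat_lit 7) (.s false (nat_lit 1) (nat_lit 14) (nat_lit 1) (nat_lit 2) (nat_lit 0) true (nat_lit 5) true (nat_lit 8) false (nat_lit 1) true (nat_lit 7) true (nat_lit 6) (.s false (nat_lit 1) (nat_lit 14) (nat_lit 2) (nat_lit 1) (nat_lit 0) true (nat_lit 4) true (nat_lit 8) false (nat_lit 1) true (nat_lit 6) true (nat_lit 7) (.e true (nat_lit 4) (nat_lit 19) (nat_lit 6) (nat_lit 2) (.e false (nat_lit 4) (nat_lit 44) (nat_lit 0) (nat_lit 8) (.e false (nat_lit 8) (nat_lit 45) (nat_lit 0) (nat_lit 8) (.e false (nat_lit 4) (nat_lit 37) (nat_lit 2) (nat_lit 6) (.e true (nat_lit 8) (nat_lit 29) (nat_lit 2) (nat_lit 6) (.e true (nat_lit 8) (nat_lit 33) (nat_lit 2) (nat_lit 6) (.e false (nat_lit 8) (nat_lit 32) (nat_lit 2) (nat_lit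 6) (.e false (nat_lit 4) (nat_lit 34) (nat_lit 2) (nat_lit 6) (.e true (nat_lit 8) (nat_lit 28) (nat_lit 2) (nat_lit 6) .nil))))))))))))))))) (.nd (.nd (.nd (.nd (.nd .leaf (nat_lit 26624) (nat_lit 42) (.p (nat_lit 29) (nat_lit 4) (.p (nat_lit 30) (nat_lit 4) (.p (nat_lit 31) (nat_lit 4) (.p (nat_lit 33) (nat_lit 4) (.n (nat_lit 34) (nat_lit 4) (.n (nat_lit 35) (nat_lit 4) (.n (nat_lit 36) (nat_lit 4) .z))))))) (.ct d6_c275 (nat_lit 4) (nat_lit 6) (.s false (nat_lit 1) (nat_lit 4) (nat_lit 1) (nat_lit 2) (nat_lit 2) true (nat_lit 1) true (nat_lit 4) true (nat_lit 2) true (nat_lit 5) true (nat_lit 4) (.s false (nat_lit 1) (nat_lit 5) (nat_lit 0) (nat_lit 2) (nat_lit 2) true (nat_lit 2) true (nat_lit 4) true (nat_lit 1) true (nat_lit 6) true (nat_lit 4) (.e false (nat_lit 4) (nat_lit 16) (nat_lit 2) (nat_lit 4) (.e true (nat_lit 4) (nat_lit 22) (nat_lit 1) (nat_lit 5) (.e true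 (nat_lit 4) (nat_lit 23) (nat_lit 1) (nat_lit 5) (.e false (nat_lit 4) (nat_lit 18) (nat_lit 2) (nat_lit 4) (.e false (nat_lit 4) (nat_lit 17) (nat_lit 2) (nat_lit 4) (.e true (nat_lit 4) (nat_lit 25) (nat_lit 0) (nat_lit 6) (.e false (nat_lit 4) (nat_lit 20) (nat_lit 2) (nat_lit 4) .nil)))))))))) .leaf) (nat_lit 26626) (nat_lit 59) (.p (nat_lit 45) (nat_lit 4) .z) .df (.nd .leaf (nat_lit 26628) (nat_lit 80) (.p (nat_lit 47) (nat_lit 8) (.n (nat_lit 48) (nat_lit 4) (.p (nat_lit 49) (nat_lit 4) (.n (nat_lit 50) (nat_lit 12) (.n (nat_lit 51) (nat_lit 8) (.p (nat_lit 52) (nat_lit 12) (.p (nat_lit 54) (nat_lit 8) (.n (nat_lit 57) (nat_lit 4) (.n (nat_lit 58) (nat_lit 4) (.n (nat_lit 59) (nat_lit 8) (.p (nat_lit 60) (nat_lit 8) (.p (nat_lit 62) (nat_lit 4) .z)))))))))))) (.ct d6_c276 (nat_lit 8) (nat_lit 4) (.s true (nat_lit 1) (nat_lit 6) (nat_lit 0) (nat_lit 6) (nat_lit 1) true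 (nat_lit 5) true (nat_lit 7) true (nat_lit 2) true (nat_lit 8) true (nat_lit 2) (.s true (nat_lit 2) (nat_lit 6) (nat_lit 1) (nat_lit 4) (nat_lit 2) true (nat_lit 3) true (nat_lit 6) true (nat_lit 2) true (nat_lit 7) true (nat_lit 4) (.s false (nat_lit 1) (nat_lit 6) (nat_lit 2) (nat_lit 2) (nat_lit 3) true (nat_lit 1) true (nat_lit 5) true (nat_lit 2) true (nat_lit 6) true (nat_lit 6) (.s false (nat_lit 2) (nat_lit 6) (nat_lit 3) (nat_lit 2) (nat_lit 2) true (nat_lit 1) true (nat_lit 6) true (nat_lit 2) true (nat_lit 5) true (nat_lit 6) (.s true (nat_lit 2) (nat_lit 9) (nat_lit 2) (nat_lit 2) (nat_lit 2) true (nat_lit 2) true (nat_lit 6) true (nat_lit 1) true (nat_lit 6) true (nat_lit 6) (.s true (nat_lit 2) (nat_lit 11) (nat_lit 1) (nat_lit 2) (nat_lit 2) true (nat_lit 3) true (nat_lit 6) true (nat_lit 0) true (nat_lit 7) true (nat_lit 6) (.s true (nat_lit 2) (nat_lit 11) (nat_lit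 2) (nat_lit 1) (nat_lit 2) true (nat_lit 2) true (nat_lit 6) true (nat_lit 0) true (nat_lit 6) true (nat_lit 7) (.s false (nat_lit 3) (nat_lit 14) (nat_lit 0) (nat_lit 1) (nat_lit 2) true (nat_lit 4) true (nat_lit 6) false (nat_lit 1) true (nat_lit 8) true (nat_lit 7) (.s false (nat_lit 1) (nat_lit 14) (nat_lit 1) (nat_lit 2) (nat_lit 0) true (nat_lit 5) true (nat_lit 8) false (nat_lit 1) true (nat_lit 7) true (nat_lit 6) (.s false (nat_lit 3) (nat_lit 14) (nat_lit 2) (nat_lit 1) (nat_lit 0) true (nat_lit 4) true (nat_lit 8) false (nat_lit 1) true (nat_lit 6) true (nat_lit 7) (.e true (nat_lit 8) (nat_lit 40) (nat_lit 1) (nat_lit 7) (.e false (nat_lit 16) (nat_lit 19) (nat_lit 6) (nat_lit 2) (.e true (nat_lit 8) (nat_lit 44) (nat_lit 0) (nat_lit 8) (.e true (nat_lit 16) (nat_lit 45) (nat_lit 0) (nat_lit 8) (.e false (nat_lit 8) (nat_lit 23) (nat_lit 5) (nat_lit 3) (.e true (nat_lit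 8) (nat_lit 29) (nat_lit 2) (nat_lit 6) (.e false (nat_lit 8) (nat_lit 30) (nat_lit 2) (nat_lit 6) (.e true (nat_lit 24) (nat_lit 31) (nat_lit 2) (nat_lit 6) (.e true (nat_lit 16) (nat_lit 32) (nat_lit 2) (nat_lit 6) (.e false (nat_lit 24) (nat_lit 33) (nat_lit 2) (nat_lit 6) (.e false (nat_lit 16) (nat_lit 35) (nat_lit 2) (nat_lit 6) (.e false (nat_lit 16) (nat_lit 28) (nat_lit 2) (nat_lit 6) .nil))))))))))))))))))))))) .leaf)) (nat_lit 27648) (nat_lit 53) (.p (nat_lit 42) (nat_lit 4) .z) .df (.nd (.nd .leaf (nat_lit 27649) (nat_lit 60) (.p (nat_lit 46) (nat_lit 4) .z) .df .leaf) (nat_lit 27651) (nat_lit 99) (.p (nat_lit 48) (nat_lit 4) (.p (nat_lit 49) (nat_lit 4) (.p (nat_lit 50) (nat_lit 4) (.p (nat_lit 52) (nat_lit 4) (.n (nat_lit 53) (nat_lit 4) (.n (nat_lit 54) (nat_lit 8) (.n (nat_lit 55) (nat_lit 4) (.p (nat_lit 56) (nat_lit 4) (.p (nat_lit 57) (nat_lit 4) (.p (nat_lit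 58) (nat_lit 4) (.p (nat_lit 59) (nat_lit 8) (.n (nat_lit 60) (nat_lit 4) .z)))))))))))) (.ct d6_c276 (nat_lit 4) (nat_lit 5) (.s false (nat_lit 1) (nat_lit 14) (nat_lit 1) (nat_lit 2) (nat_lit 0) true (nat_lit 5) true (nat_lit 8) false (nat_lit 1) true (nat_lit 7) true (nat_lit 6) (.e false (nat_lit 4) (nat_lit 45) (nat_lit 0) (nat_lit 8) (.e false (nat_lit 4) (nat_lit 14) (nat_lit 9) (nat_lit 1) (.e false (nat_lit 4) (nat_lit 41) (nat_lit 1) (nat_lit 7) (.e false (nat_lit 4) (nat_lit 42) (nat_lit 1) (nat_lit 7) (.e true (nat_lit 4) (nat_lit 35) (nat_lit 2) (nat_lit 6) .nil))))))) .leaf)) (nat_lit 28674) (nat_lit 64) (.p (nat_lit 47) (nat_lit 4) .z) .df (.nd (.nd (.nd .leaf (nat_lit 29698) (nat_lit 65) (.p (nat_lit 48) (nat_lit 4) .z) .df .leaf) (nat_lit 30722) (nat_lit 66) (.p (nat_lit 49) (nat_lit 4) .z) .df .leaf) (nat_lit 31746) (nat_lit 67) (.p (nat_lit 50) (nat_lit 4)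 .z) .df (.nd (.nd .leaf (nat_lit 32770) (nat_lit 68) (.p (nat_lit 51) (nat_lit 4) .z) .df .leaf) (nat_lit 33794) (nat_lit 69) (.p (nat_lit 52) (nat_lit 4) .z) .df .leaf))) (nat_lit 34818) (nat_lit 70) (.p (nat_lit 53) (nat_lit 4) .z) .df (.nd (.nd (.nd (.nd .leaf (nat_lit 35842) (nat_lit 71) (.p (nat_lit 54) (nat_lit 4) .z) .df .leaf) (nat_lit 36866) (nat_lit 72) (.p (nat_lit 55) (nat_lit 4) .z) .df (.nd .leaf (nat_lit 37890) (nat_lit 73) (.p (nat_lit 56) (nat_lit 4) .z) .df .leaf)) (nat_lit 38914) (nat_lit 91) (.p (nat_lit 47) (nat_lit 2) (.p (nat_lit 48) (nat_lit 2) (.n (nat_lit 51) (nat_lit 2) (.p (nat_lit 52) (nat_lit 2) (.p (nat_lit 53) (nat_lit 1) (.p (nat_lit 54) (nat_lit 1) (.n (nat_lit 55) (nat_lit 1) (.p (nat_lit 57) (nat_lit 1) (.p (nat_lit 58) (nat_lit 1) (.p (nat_lit 59) (nat_lit 1) (.n (nat_lit 60) (nat_lit 1) (.n (nat_lit 62) (nat_lit 1) .z)))))))))))) (.ct d6_c276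 (nat_lit 8) (nat_lit 6) (.s false (nat_lit 1) (nat_lit 5) (nat_lit 4) (nat_lit 2) (nat_lit 2) true (nat_lit 0) true (nat_lit 6) true (nat_lit 3) true (nat_lit 4) true (nat_lit 6) (.s false (nat_lit 1) (nat_lit 10) (nat_lit 1) (nat_lit 2) (nat_lit 2) true (nat_lit 3) true (nat_lit 6) true (nat_lit 0) true (nat_lit 7) true (nat_lit 6) (.e true (nat_lit 4) (nat_lit 29) (nat_lit 2) (nat_lit 6) (.e false (nat_lit 4) (nat_lit 32) (nat_lit 2) (nat_lit 6) (.e true (nat_lit 4) (nat_lit 33) (nat_lit 2) (nat_lit 6) (.e true (nat_lit 4) (nat_lit 25) (nat_lit 4) (nat_lit 4) (.e true (nat_lit 4) (nat_lit 26) (nat_lit 4) (nat_lit 4) (.e true (nat_lit 4) (nat_lit 31) (nat_lit 2) (nat_lit 6) (.e false (nat_lit 8) (nat_lit 34) (nat_lit 2) (nat_lit 6) (.e false (nat_lit 4) (nat_lit 35) (nat_lit 2) (nat_lit 6) (.e true (nat_lit 4) (nat_lit 40) (nat_lit 1) (nat_lit 7) (.e false (nat_lit 4) (nat_lit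 42) (nat_lit 1) (nat_lit 7) (.e true (nat_lit 4) (nat_lit 30) (nat_lit 2) (nat_lit 6) (.e true (nat_lit 4) (nat_lit 37) (nat_lit 2) (nat_lit 6) .nil))))))))))))))) (.nd (.nd .leaf (nat_lit 39937) (nat_lit 102) (.n (nat_lit 47) (nat_lit 18) (.n (nat_lit 48) (nat_lit 14) (.p (nat_lit 49) (nat_lit 4) (.p (nat_lit 50) (nat_lit 8) (.p (nat_lit 51) (nat_lit 14) (.n (nat_lit 52) (nat_lit 14) (.p (nat_lit 53) (nat_lit 3) (.n (nat_lit 54) (nat_lit 1) (.p (nat_lit 55) (nat_lit 5) (.p (nat_lit 56) (nat_lit 4) (.n (nat_lit 57) (nat_lit 1) (.n (nat_lit 58) (nat_lit 5) (.n (nat_lit 59) (nat_lit 1) (.n (nat_lit 60) (nat_lit 3) (.n (nat_lit 61) (nat_lit 4) (.p (nat_lit 62) (nat_lit 1) .z)))))))))))))))) (.ct d6_c276 (nat_lit 4) (nat_lit 7) (.s true (nat_lit 1) (nat_lit 10) (nat_lit 2) (nat_lit 2) (nat_lit 1) true (nat_lit 3) true (nat_lit 7) true (nat_lit 0) true (nat_lit 6) true (nat_lit 6)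 (.e true (nat_lit 4) (nat_lit 21) (nat_lit 5) (nat_lit 3) (.e true (nat_lit 4) (nat_lit 13) (nat_lit 10) (nat_lit 0) (.e true (nat_lit 4) (nat_lit 38) (nat_lit 2) (nat_lit 6) (.e false (nat_lit 4) (nat_lit 31) (nat_lit 2) (nat_lit 6) .nil)))))) .leaf) (nat_lit 40961) (nat_lit 74) (.p (nat_lit 57) (nat_lit 4) .z) .df .leaf)) (nat_lit 41985) (nat_lit 81) (.n (nat_lit 47) (nat_lit 8) (.n (nat_lit 48) (nat_lit 8) (.p (nat_lit 51) (nat_lit 8) (.n (nat_lit 52) (nat_lit 8) (.p (nat_lit 53) (nat_lit 4) (.p (nat_lit 55) (nat_lit 4) (.n (nat_lit 57) (nat_lit 4) (.n (nat_lit 58) (nat_lit 4) (.n (nat_lit 59) (nat_lit 4) .z))))))))) (.ct d6_c276 (nat_lit 8) (nat_lit 7) (.s true (nat_lit 1) (nat_lit 6) (nat_lit 0) (nat_lit 6) (nat_lit 1) true (nat_lit 5) true (nat_lit 7) true (nat_lit 2) true (nat_lit 8) true (nat_lit 2) (.s true (nat_lit 2) (nat_lit 6) (nat_lit 1) (nat_lit 4) (nat_lit 2)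 true (nat_lit 3) true (nat_lit 6) true (nat_lit 2) true (nat_lit 7) true (nat_lit 4) (.s false (nat_lit 1) (nat_lit 6) (nat_lit 2) (nat_lit 2) (nat_lit 3) true (nat_lit 1) true (nat_lit 5) true (nat_lit 2) true (nat_lit 6) true (nat_lit 6) (.s false (nat_lit 2) (nat_lit 6) (nat_lit 3) (nat_lit 2) (nat_lit 2) true (nat_lit 1) true (nat_lit 6) true (nat_lit 2) true (nat_lit 5) true (nat_lit 6) (.s true (nat_lit 2) (nat_lit 6) (nat_lit 5) (nat_lit 0) (nat_lit 2) false (nat_lit 0) true (nat_lit 6) true (nat_lit 2) true (nat_lit 3) true (nat_lit 8) (.s false (nat_lit 2) (nat_lit 11) (nat_lit 2) (nat_lit 1) (nat_lit 2) true (nat_lit 2) true (nat_lit 6) true (nat_lit 0) true (nat_lit 6) true (nat_lit 7) (.s false (nat_lit 3) (nat_lit 14) (nat_lit 0) (nat_lit 1) (nat_lit 2) true (nat_lit 4) true (nat_lit 6) false (nat_lit 1) true (nat_lit 8) true (nat_lit 7) (.s false (nat_lit 1) (nat_lit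 14) (nat_lit 1) (nat_lit 2) (nat_lit 0) true (nat_lit 5) true (nat_lit 8) false (nat_lit 1) true (nat_lit 7) true (nat_lit 6) (.s false (nat_lit 1) (nat_lit 14) (nat_lit 2) (nat_lit 1) (nat_lit 0) true (nat_lit 4) true (nat_lit 8) false (nat_lit 1) true (nat_lit 6) true (nat_lit 7) (.e true (nat_lit 8) (nat_lit 40) (nat_lit 1) (nat_lit 7) (.e true (nat_lit 8) (nat_lit 44) (nat_lit 0) (nat_lit 8) (.e true (nat_lit 8) (nat_lit 45) (nat_lit 0) (nat_lit 8) (.e true (nat_lit 16) (nat_lit 29) (nat_lit 2) (nat_lit 6) (.e false (nat_lit 16) (nat_lit 32) (nat_lit 2) (nat_lit 6) (.e true (nat_lit 16) (nat_lit 33) (nat_lit 2) (nat_lit 6) (.e false (nat_lit 8) (nat_lit 34) (nat_lit 2) (nat_lit 6) (.e true (nat_lit 16) (nat_lit 28) (nat_lit 2) (nat_lit 6) (.e false (nat_lit 8) (nat_lit 36) (nat_lit 2) (nat_lit 6) .nil))))))))))))))))))) (.nd (.nd (.nd .leaf (nat_lit 43009) (nat_lit 82) (.p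 (nat_lit 47) (nat_lit 4) (.n (nat_lit 48) (nat_lit 4) (.p (nat_lit 49) (nat_lit 8) (.n (nat_lit 50) (nat_lit 8) (.n (nat_lit 51) (nat_lit 8) (.p (nat_lit 52) (nat_lit 12) (.n (nat_lit 53) (nat_lit 2) (.p (nat_lit 54) (nat_lit 6) (.n (nat_lit 55) (nat_lit 2) (.p (nat_lit 56) (nat_lit 8) (.p (nat_lit 57) (nat_lit 2) (.p (nat_lit 58) (nat_lit 2) (.p (nat_lit 59) (nat_lit 2) (.p (nat_lit 60) (nat_lit 2) (.p (nat_lit 62) (nat_lit 2) .z))))))))))))))) (.ct d6_c276 (nat_lit 8) (nat_lit 7) (.s false (nat_lit 1) (nat_lit 6) (nat_lit 1) (nat_lit 4) (nat_lit 2) true (nat_lit 3) true (nat_lit 6) true (nat_lit 2) true (nat_lit 7) true (nat_lit 4) (.s false (nat_lit 1) (nat_lit 8) (nat_lit 2) (nat_lit 2) (nat_lit 2) true (nat_lit 2) true (nat_lit 6) true (nat_lit 1) true (nat_lit 6) true (nat_lit 6) (.s false (nat_lit 1) (nat_lit 11) (nat_lit 1) (nat_lit 2) (nat_lit 2) true (nat_lit 3) true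 (nat_lit 6) true (nat_lit 0) true (nat_lit 7) true (nat_lit 6) (.s false (nat_lit 1) (nat_lit 11) (nat_lit 2) (nat_lit 1) (nat_lit 2) true (nat_lit 2) true (nat_lit 6) true (nat_lit 0) true (nat_lit 6) true (nat_lit 7) (.s true (nat_lit 1) (nat_lit 14) (nat_lit 2) (nat_lit 0) (nat_lit 1) true (nat_lit 3) true (nat_lit 7) false (nat_lit 1) true (nat_lit 6) true (nat_lit 8) (.e true (nat_lit 20) (nat_lit 29) (nat_lit 2) (nat_lit 6) (.e false (nat_lit 12) (nat_lit 30) (nat_lit 2) (nat_lit 6) (.e true (nat_lit 4) (nat_lit 31) (nat_lit 2) (nat_lit 6) (.e false (nat_lit 8) (nat_lit 32) (nat_lit 2) (nat_lit 6) (.e true (nat_lit 4) (nat_lit 33) (nat_lit 2) (nat_lit 6) (.e false (nat_lit 4) (nat_lit 34) (nat_lit 2) (nat_lit 6) (.e false (nat_lit 16) (nat_lit 37) (nat_lit 2) (nat_lit 6) (.e false (nat_lit 4) (nat_lit 26) (nat_lit 4) (nat_lit 4) (.e true (nat_lit 16) (nat_lit 28) (nat_lit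 2) (nat_lit 6) (.e false (nat_lit 4) (nat_lit 35) (nat_lit 2) (nat_lit 6) (.e true (nat_lit 8) (nat_lit 41) (nat_lit 1) (nat_lit 7) (.e true (nat_lit 4) (nat_lit 19) (nat_lit 6) (nat_lit 2) (.e false (nat_lit 4) (nat_lit 36) (nat_lit 2) (nat_lit 6) (.e false (nat_lit 4) (nat_lit 45) (nat_lit 0) (nat_lit 8) .nil)))))))))))))))))))) .leaf) (nat_lit 44032) (nat_lit 100) (.p (nat_lit 47) (nat_lit 10) (.n (nat_lit 48) (nat_lit 2) (.p (nat_lit 49) (nat_lit 4) (.n (nat_lit 50) (nat_lit 12) (.n (nat_lit 51) (nat_lit 6) (.p (nat_lit 52) (nat_lit 18) (.p (nat_lit 53) (nat_lit 1) (.p (nat_lit 54) (nat_lit 9) (.n (nat_lit 55) (nat_lit 1) (.n (nat_lit 56) (nat_lit 4) (.n (nat_lit 57) (nat_lit 11) (.n (nat_lit 58) (nat_lit 7) (.n (nat_lit 59) (nat_lit 7) (.p (nat_lit 60) (nat_lit 11) (.p (nat_lit 61) (nat_lit 4) (.p (nat_lit 62) (nat_lit 7) .z)))))))))))))))) (.ct d6_c276 (nat_lit 4) (nat_lit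 8) (.s true (nat_lit 1) (nat_lit 12) (nat_lit 2) (nat_lit 2) (nat_lit 0) true (nat_lit 4) true (nat_lit 8) false (nat_lit 0) true (nat_lit 6) true (nat_lit 6) (.e true (nat_lit 4) (nat_lit 24) (nat_lit 4) (nat_lit 4) (.e false (nat_lit 4) (nat_lit 12) (nat_lit 11) (nat_lit 0) (.e true (nat_lit 4) (nat_lit 29) (nat_lit 2) (nat_lit 6) (.e true (nat_lit 4) (nat_lit 31) (nat_lit 2) (nat_lit 6) (.e false (nat_lit 4) (nat_lit 34) (nat_lit 2) (nat_lit 6) (.e false (nat_lit 4) (nat_lit 35) (nat_lit 2) (nat_lit 6) (.e true (nat_lit 4) (nat_lit 38) (nat_lit 2) (nat_lit 6) (.e false (nat_lit 4) (nat_lit 33) (nat_lit 2) (nat_lit 6) .nil)))))))))) .leaf) (nat_lit 45056) (nat_lit 75) (.p (nat_lit 58) (nat_lit 4) .z) .df (.nd (.nd .leaf (nat_lit 46080) (nat_lit 76) (.p (nat_lit 59) (nat_lit 4) .z) .df .leaf) (nat_lit 47104) (nat_lit 89) (.p (nat_lit 47) (nat_lit 4) (.p (nat_lit 48) (nat_lit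 8) (.n (nat_lit 49) (nat_lit 4) (.p (nat_lit 50) (nat_lit 4) (.n (nat_lit 53) (nat_lit 2) (.n (nat_lit 54) (nat_lit 2) (.n (nat_lit 55) (nat_lit 2) (.n (nat_lit 56) (nat_lit 8) (.n (nat_lit 57) (nat_lit 2) (.n (nat_lit 58) (nat_lit 2) (.n (nat_lit 59) (nat_lit 6) (.p (nat_lit 60) (nat_lit 2) (.p (nat_lit 62) (nat_lit 2) .z))))))))))))) (.ct d6_c276 (nat_lit 4) (nat_lit 8) (.s false (nat_lit 1) (nat_lit 6) (nat_lit 3) (nat_lit 2) (nat_lit 2) true (nat_lit 1) true (nat_lit 6) true (nat_lit 2) true (nat_lit 5) true (nat_lit 6) (.s false (nat_lit 1) (nat_lit 14) (nat_lit 0) (nat_lit 1) (nat_lit 2) true (nat_lit 4) true (nat_lit 6) false (nat_lit 1) true (nat_lit 8) true (nat_lit 7) (.e false (nat_lit 4) (nat_lit 15) (nat_lit 6) (nat_lit 2) (.e true (nat_lit 4) (nat_lit 37) (nat_lit 2) (nat_lit 6) (.e false (nat_lit 4) (nat_lit 26) (nat_lit 4) (nat_lit 4) (.e false (nat_lit 4) (nat_lit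 35) (nat_lit 2) (nat_lit 6) (.e true (nat_lit 4) (nat_lit 45) (nat_lit 0) (nat_lit 8) (.e true (nat_lit 4) (nat_lit 42) (nat_lit 1) (nat_lit 7) .nil))))))))) .leaf))))))

noncomputable def d6_D : Dt := ⟨(nat_lit 4294967296), (nat_lit 2147483648), (nat_lit 4), (nat_lit 63), (nat_lit 403444267725823861656888021061391567390898210247054020152488511682895826046746703507142773718257706879693700017477880343953470679343316066594089681834503303741332493086393593798802462952730116502347907823307038267916548297471628109234405664212675499156819856523661986155781515020761108039442444538786438953688602936171327626447506934763157650271868482957560923490296964610369598568476041404631377368020197048454769404133264215512288166854172075683217413), (nat_lit 549619516340), d6_t0, .nil⟩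

theorem d6_T : chkT 1 idsM d6_D d6_D.T = true := by
  decide +kernel

theorem d6_N : chkN d6_D par1 d6_D.N = true := by
  decide +kernel

end Chk

end Pool.Agent.MalP
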